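import Pool.Agent.H14P.Sat

/-!
# Existence of regular polynomials

By helper14.
-/

set_option autoImplicit false
set_option linter.all false

open Polynomial

noncomputable section

namespace Pool.Agent.H14P

theorem two_zero {k : Type} [Field k] (h2 : (2 : k) = 0) : (2 : k[X]) = 0 := by
  have : (2 : k[X]) = C 2 := (map_ofNat C 2).symm
  rw [this, h2, C_0]

theorem exists_sq_split {k : Type} [Field k] (h2 : (2 : k) = 0)
    (hF : Function.Surjective (fun x : k => x ^ 2)) (p : k[X]) :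
    ∃ V U : k[X], p = V ^ 2 + X * U ^ 2 := by
  have h2' := two_zero h2
  induction p using Polynomial.induction_on' with
  | add p q hp hq =>
    obtain ⟨V, U, rfl⟩ := hp
    obtain ⟨V', U', rfl⟩ := hq
    refine ⟨V + V', U + U', ?_⟩
    linear_combination (-(V * V') - X * U * U') * h2'
  | monomial n a =>
    obtain ⟨b, rfl⟩ := hF a
    rcases Nat.even_or_odd' n with ⟨i, rfl | rfl⟩
    · refine ⟨monomial i b, 0, ?_⟩
      rw [zero_pow two_ne_zero, mul_zero, add_zero, pow_two, monomial_mul_monomial, two_mul]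
      congr 1
      ring
    · refine ⟨0, monomial i b, ?_⟩
      rw [zero_pow two_ne_zero, zero_add, pow_two, monomial_mul_monomial, X_mul_monomial, two_mul]
      congr 1
      ring

variable {O K k : Type} [CommRing O] [IsDomain O] [Field K] [Field k] [Algebra O K]

variable {π : O} {ρ : O →+* k} (h : DV K π ρ)

include h

theorem lift_deg (p : k[X]) : ∃ q : O[X], q.map ρ = p ∧ q.natDegree ≤ p.natDegree := by
  have hl : p ∈ lifts ρ := by
    rw [lifts_iff_coeff_lifts]
    intro n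
    exact h.surj _
  obtain ⟨q, hq, hq2⟩ := exists_natDegree_eq_of_mem_lifts hl
  exact ⟨q, hq, hq2.le⟩

theorem psub {p q : O[X]} (hpq : p.map ρ = q.map ρ) : ∃ t, p = q + C π * t := by
  have h1 : (p - q).map ρ = 0 := by rw [Polynomial.map_sub, hpq, sub_self]
  obtain ⟨t, ht⟩ := h.pdvd.1 h1
  exact ⟨t, by rw [← ht]; ring⟩

/-- the regularity of the special polynomial -/
theorem reg_of (h2 : π ∣ 2) (V U : O[X]) (c : O) (hU : U.map ρ ≠ 0) :
    Reg π ρ (V ^ 2 + (X - C (π * c)) * U ^ 2 + C π) := by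
  have hρ2 : (2 : k) = 0 := by
    have := (h.ker 2).2 h2
    rwa [map_ofNat] at this
  have h2' := two_zero hρ2
  obtain ⟨ε, hε⟩ := h2
  have hε' : (2 : O[X]) = C π * C ε := by
    rw [← C_mul, ← hε]
    exact (map_ofNat C 2).symm
  have hρπ : (C π : O[X]).map ρ = 0 := by rw [map_C, h.rho_pi, C_0]
  intro m V' c₁ c₂ c₃ hmi heq
  have hmp : Prime (m.map ρ) := hmi.prime
  -- reduction
  have e0 := congrArg (Polynomial.map ρ) heq
  simp only [Polynomial.map_add, Polynomial.map_mul, Polynomial.map_pow, Polynomial.map_sub, map_X,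
    map_C, map_mul, map_pow, h.rho_pi, C_0, zero_mul, sub_zero, add_zero,
    zero_pow two_ne_zero] at e0
  -- the derivative
  have d1 : (U.map ρ) ^ 2 = (m.map ρ) ^ 2 * derivative (c₁.map ρ) := by
    have e1 := congrArg derivative e0
    simp only [derivative_add, derivative_mul, derivative_pow, derivative_X, Nat.cast_ofNat,
      C_ofNat] at e1
    linear_combination e1 + (-(V.map ρ) ^ (2 - 1) * derivative (V.map ρ) -
      X * (U.map ρ) ^ (2 - 1) * derivative (U.map ρ) + (V'.map ρ) ^ (2 - 1) * derivative (V'.map ρ)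
      + (m.map ρ) ^ (2 - 1) * derivative (m.map ρ) * c₁.map ρ) * h2'
  have d2 : m.map ρ ∣ U.map ρ := by
    apply hmp.dvd_of_dvd_pow (n := 2)
    rw [d1, pow_two, mul_assoc]
    exact dvd_mul_right _ _
  have d3 : m.map ρ ∣ V'.map ρ - V.map ρ := by
    apply hmp.dvd_of_dvd_pow (n := 2)
    obtain ⟨w, hw⟩ := d2
    refine ⟨m.map ρ * (X * w ^ 2 - c₁.map ρ), ?_⟩
    rw [hw] at e0
    linear_combination -e0 + ((V.map ρ) ^ 2 - V'.map ρ * V.map ρ) * h2'
  obtain ⟨w, hw⟩ := d2
  obtain ⟨w', hw'⟩ := d3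
  obtain ⟨U₁, rfl⟩ := Polynomial.map_surjective ρ h.surj w
  obtain ⟨a, rfl⟩ := Polynomial.map_surjective ρ h.surj w'
  obtain ⟨s, hs⟩ := psub h (p := U) (q := m * U₁) (by rw [hw, Polynomial.map_mul])
  obtain ⟨b, hb⟩ := psub h (p := V') (q := V + m * a)
    (by rw [Polynomial.map_add, Polynomial.map_mul, ← hw']; ring)
  -- the equation
  set ξ : O[X] := X - C (π * c) with hξ
  rw [hs, hb, C_pow] at heq
  have key : m ^ 2 * (ξ * U₁ ^ 2 - a ^ 2 - c₁) = - C π * (1 - C ε * V * m * a - m * c₂ +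
      C π * (C ε * m * U₁ * s * ξ + ξ * s ^ 2 - b ^ 2 - C ε * m * a * b - C ε * V * b - c₃)) := by
    linear_combination heq + (- C π * m * U₁ * s * ξ + V * (m * a + C π * b) +
      C π * m * a * b) * hε'
  have k1 : (ξ * U₁ ^ 2 - a ^ 2 - c₁).map ρ = 0 := by
    have e1 := congrArg (Polynomial.map ρ) key
    rw [Polynomial.map_mul, Polynomial.map_mul, Polynomial.map_neg, hρπ, neg_zero, zero_mul] at e1
    rcases mul_eq_zero.1 e1 with e2 | e2
    · exfalso
      rw [Polynomial.map_pow] at e2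
      exact hmp.ne_zero ((pow_eq_zero_iff two_ne_zero).1 e2)
    · exact e2
  obtain ⟨t, ht⟩ := h.pdvd.1 k1
  rw [ht] at key
  have k2 : m ^ 2 * t = - (1 - C ε * V * m * a - m * c₂ +
      C π * (C ε * m * U₁ * s * ξ + ξ * s ^ 2 - b ^ 2 - C ε * m * a * b - C ε * V * b - c₃)) := by
    have hπ : (C π : O[X]) ≠ 0 := C_ne_zero.2 h.ne
    apply mul_left_cancel₀ hπ
    linear_combination key
  have k3 := congrArg (Polynomial.map ρ) k2
  simp only [Polynomial.map_neg, Polynomial.map_add, Polynomial.map_sub, Polynomial.map_mul,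
    Polynomial.map_pow, Polynomial.map_one, hρπ, zero_mul, add_zero] at k3
  apply hmp.not_unit
  apply isUnit_of_dvd_one
  refine ⟨(C ε).map ρ * V.map ρ * a.map ρ + c₂.map ρ - m.map ρ * t.map ρ, ?_⟩
  linear_combination k3

/-- Existence. -/
theorem exists_reg (h2 : π ∣ 2) (hF : Function.Surjective (fun x : k => x ^ 2)) {g : ℕ}
    (hg : 1 ≤ g) (p : k[X]) (hm : p.Monic) (hd : p.natDegree = 2 * g + 1)
    (ht : p.coeff (2 * g) = 0) :
    ∃ f : O[X], f.Monic ∧ f.natDegree = 2 * g + 1 ∧ f.coeff (2 * g) = 0 ∧ f.map ρ = p ∧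
      Reg π ρ f := by
  have hρ2 : (2 : k) = 0 := by
    have := (h.ker 2).2 h2
    rwa [map_ofNat] at this
  obtain ⟨V, U, hVU⟩ := exists_sq_split hρ2 hF p
  have hU0 : U ≠ 0 := by
    rintro rfl
    rw [zero_pow two_ne_zero, mul_zero, add_zero] at hVU
    rw [hVU, natDegree_pow] at hd
    omega
  have hU2 : (X * U ^ 2).natDegree = 2 * U.natDegree + 1 := by
    rw [natDegree_X_mul (pow_ne_zero 2 hU0), natDegree_pow]
  have hV2 : (V ^ 2).natDegree = 2 * V.natDegree := by rw [natDegree_pow]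
  have hlt : (V ^ 2).natDegree < (X * U ^ 2).natDegree := by
    by_contra hc
    have h3 : (X * U ^ 2).natDegree < (V ^ 2).natDegree := by omega
    have h4 := natDegree_add_eq_left_of_natDegree_lt h3
    rw [← hVU, hd, hV2] at h4
    omega
  have hdeg : p.natDegree = (X * U ^ 2).natDegree := by
    rw [hVU]
    exact natDegree_add_eq_right_of_natDegree_lt hlt
  have hUg : U.natDegree = g := by omega
  have hVg : V.natDegree ≤ g := by omega
  have hUl : U.Monic := by
    have h3 : p.leadingCoeff = (X * U ^ 2).leadingCoeff := by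
      rw [hVU]
      exact leadingCoeff_add_of_degree_lt (degree_lt_degree hlt)
    rw [hm.leadingCoeff, leadingCoeff_mul, leadingCoeff_X, one_mul, leadingCoeff_pow] at h3
    have h4 : (U.leadingCoeff - 1) ^ 2 = 0 := by
      linear_combination -h3 + (1 - U.leadingCoeff) * hρ2
    have h5 := (pow_eq_zero_iff two_ne_zero).1 h4
    exact sub_eq_zero.1 h5
  obtain ⟨V', hV1, hV3⟩ := lift_deg h V
  obtain ⟨U', hU1, hU3, hU4⟩ := lifts_and_natDegree_eq_and_monic (f := ρ) (p := U) (by
    rw [lifts_iff_coeff_lifts]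
    intro n
    exact h.surj _) hUl
  have hU'd : U'.natDegree = g := by rw [hU3, hUg]
  have hU'2 : (U' ^ 2).natDegree = 2 * g := by rw [hU4.natDegree_pow, hU'd]
  have hc0 : π ∣ (V' ^ 2 + X * U' ^ 2).coeff (2 * g) := by
    rw [← h.ker, ← coeff_map, Polynomial.map_add, Polynomial.map_mul, Polynomial.map_pow,
      Polynomial.map_pow, map_X, hV1, hU1, ← hVU, ht]
  obtain ⟨c, hc⟩ := hc0
  have hmX : ((X - C (π * c)) * U' ^ 2).Monic := (monic_X_sub_C _).mul (hU4.pow 2)
  have hdX : ((X - C (π * c)) * U' ^ 2).natDegree = 2 * g + 1 := by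
    rw [(monic_X_sub_C _).natDegree_mul (hU4.pow 2), natDegree_X_sub_C, hU'2]
    ring
  have hV'2 : (V' ^ 2).natDegree ≤ 2 * g := natDegree_pow_le.trans (by omega)
  have hsum : V' ^ 2 + (X - C (π * c)) * U' ^ 2 + C π =
      (X - C (π * c)) * U' ^ 2 + (V' ^ 2 + C π) := by ring
  have hr : (V' ^ 2 + C π).natDegree < ((X - C (π * c)) * U' ^ 2).natDegree := by
    rw [hdX]
    refine lt_of_le_of_lt (natDegree_add_le _ _) ?_
    rw [natDegree_C]
    omega
  refine ⟨V' ^ 2 + (X - C (π * c)) * U' ^ 2 + C π, ?_, ?_, ?_, ?_,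
    reg_of h h2 V' U' c (by rw [hU1]; exact hU0)⟩
  · rw [hsum]
    exact hmX.add_of_left (degree_lt_degree hr)
  · rw [hsum, natDegree_add_eq_left_of_natDegree_lt hr, hdX]
  · have e1 : V' ^ 2 + (X - C (π * c)) * U' ^ 2 + C π =
        (V' ^ 2 + X * U' ^ 2) - C (π * c) * U' ^ 2 + C π := by ring
    have e2 : (U' ^ 2).coeff (2 * g) = 1 := by
      rw [← hU'2]
      exact (hU4.pow 2).coeff_natDegree
    rw [e1, coeff_add, coeff_sub, coeff_C_mul, e2, hc, coeff_C_ne_zero (by omega)]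
    ring
  · rw [Polynomial.map_add, Polynomial.map_add, Polynomial.map_mul, Polynomial.map_sub,
      Polynomial.map_pow, Polynomial.map_pow, map_X, map_C, map_C, map_mul, h.rho_pi, hV1, hU1]
    rw [hVU]
    simp

omit h in
/-- regularity only depends on `f` modulo `π ^ 2` -/
theorem reg_congr {f f' : O[X]} (hf : Reg π ρ f) (hff : C (π ^ 2) ∣ f - f') : Reg π ρ f' := by
  intro m v c₁ c₂ c₃ hmi he
  obtain ⟨t, ht⟩ := hff
  refine hf m v c₁ c₂ (c₃ + t) hmi ?_
  linear_combination he + ht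

end Pool.Agent.H14P
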