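import Pool.Agent.H14P.Pts
import Pool.Agent.H14P.RegEx
import Pool.Agent.H14F.Compl

/-!
# The completions of a number field

By helper14.
-/

set_option autoImplicit false
set_option linter.all false

open Polynomial IsDedekindDomain NumberField WithZero Filter Topology
open scoped Classical

noncomputable section

namespace Pool.Agent.H14P

variable {F : Type} [Field F] [NumberField F] (v : HeightOneSpectrum (𝓞 F))

theorem val_F (x : F) : Valued.v (algebraMap F (v.adicCompletion F) x) = v.valuation F x :=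
  HeightOneSpectrum.valuedAdicCompletion_eq_valuation' v x

theorem alg_O (a : 𝓞 F) : ((algebraMap (𝓞 F) (v.adicCompletionIntegers F) a :
    v.adicCompletionIntegers F) : v.adicCompletion F) = algebraMap F (v.adicCompletion F) a := rfl

/-- approximation -/
theorem dens_O (x : v.adicCompletionIntegers F) (n : ℕ) : ∃ a : 𝓞 F,
    Valued.v ((x - algebraMap (𝓞 F) (v.adicCompletionIntegers F) a : v.adicCompletionIntegers F) :
      v.adicCompletion F) ≤ exp (-(n : ℤ)) := by
  have h1 : (fun z => (x : v.adicCompletion F) - z) ⁻¹'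
      {y : v.adicCompletion F | Valued.v y ≤ exp (-(n : ℤ))} ∈ 𝓝 (x : v.adicCompletion F) := by
    have h5 : Tendsto (fun z : v.adicCompletion F => (x : v.adicCompletion F) - z)
        (𝓝 (x : v.adicCompletion F)) (𝓝 ((x : v.adicCompletion F) - x)) :=
      tendsto_const_nhds.sub tendsto_id
    rw [sub_self] at h5
    exact h5 ((Pool.Agent.H14F.mem_nhds_iff v _).2 ⟨n, le_rfl⟩)
  obtain ⟨_, hy, s, rfl⟩ := mem_closure_iff_nhds.1
    (HeightOneSpectrum.denseRange_algebraMap F v (x : v.adicCompletion F)) _ h1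
  have h2 : Valued.v ((x : v.adicCompletion F) - algebraMap F (v.adicCompletion F) s) ≤
      exp (-(n : ℤ)) := hy
  have hn1 : (exp (-(n : ℤ)) : ℤᵐ⁰) ≤ 1 := by
    rw [← exp_zero, exp_le_exp]
    omega
  have h3 : v.valuation F s ≤ 1 := by
    rw [← val_F]
    have e : algebraMap F (v.adicCompletion F) s = (x : v.adicCompletion F) -
        ((x : v.adicCompletion F) - algebraMap F (v.adicCompletion F) s) := by ring
    rw [e]
    refine (Valuation.map_sub _ _ _).trans (max_le x.2 (h2.trans hn1))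
  obtain ⟨a, ha⟩ := HeightOneSpectrum.exists_valuation_sub_lt_of_integer v h3
    (Units.mk0 (exp (-(n : ℤ))) exp_ne_zero)
  refine ⟨a, ?_⟩
  have h4 : Valued.v (algebraMap F (v.adicCompletion F) (algebraMap (𝓞 F) F a - s)) ≤
      exp (-(n : ℤ)) := by
    rw [val_F]
    exact ha.le
  have e : ((x - algebraMap (𝓞 F) (v.adicCompletionIntegers F) a : v.adicCompletionIntegers F) :
      v.adicCompletion F) = ((x : v.adicCompletion F) - algebraMap F (v.adicCompletion F) s) -
      algebraMap F (v.adicCompletion F) (algebraMap (𝓞 F) F a - s) := by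
    rw [map_sub]
    show (x : v.adicCompletion F) - algebraMap F (v.adicCompletion F) a = _
    ring
  rw [e]
  exact (Valuation.map_sub _ _ _).trans (max_le h2 h4)

/-- uniformizers -/
theorem exists_unif : ∃ ϖ : 𝓞 F, Valued.v ((algebraMap (𝓞 F) (v.adicCompletionIntegers F) ϖ :
    v.adicCompletionIntegers F) : v.adicCompletion F) = exp (-1 : ℤ) := by
  obtain ⟨ϖ, hϖ⟩ := v.intValuation_exists_uniformizer
  refine ⟨ϖ, ?_⟩
  rw [alg_O, val_F]
  have := v.valuation_of_algebraMap (K := F) ϖ
  exact this.trans hϖ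

variable {v} {π : v.adicCompletionIntegers F}

theorem dvd_iff (hπ : Valued.v (π : v.adicCompletion F) = exp (-1 : ℤ))
    (x : v.adicCompletionIntegers F) (n : ℕ) :
    π ^ n ∣ x ↔ Valued.v (x : v.adicCompletion F) ≤ exp (-(n : ℤ)) := by
  have hpn : Valued.v (((π ^ n : v.adicCompletionIntegers F)) : v.adicCompletion F) =
      exp (-(n : ℤ)) := by
    have e : ((π ^ n : v.adicCompletionIntegers F) : v.adicCompletion F) =
        (π : v.adicCompletion F) ^ n := rfl
    rw [e, map_pow, hπ, ← exp_nsmul]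
    congr 1
    simp
  have hpn0 : ((π ^ n : v.adicCompletionIntegers F) : v.adicCompletion F) ≠ 0 := by
    intro h0
    rw [h0, map_zero] at hpn
    exact exp_ne_zero hpn.symm
  constructor
  · rintro ⟨y, rfl⟩
    have e : ((π ^ n * y : v.adicCompletionIntegers F) : v.adicCompletion F) =
        ((π ^ n : v.adicCompletionIntegers F) : v.adicCompletion F) * (y : v.adicCompletion F) := rfl
    rw [e, map_mul, hpn]
    exact mul_le_of_le_one_right' y.2
  · intro h
    have h1 : Valued.v ((x : v.adicCompletion F) /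
        ((π ^ n : v.adicCompletionIntegers F) : v.adicCompletion F)) ≤ 1 := by
      rw [map_div₀, hpn]
      exact div_le_one_of_le₀ h zero_le
    refine ⟨⟨_, h1⟩, ?_⟩
    apply Subtype.ext
    show (x : v.adicCompletion F) = ((π ^ n : v.adicCompletionIntegers F) : v.adicCompletion F) *
      ((x : v.adicCompletion F) / ((π ^ n : v.adicCompletionIntegers F) : v.adicCompletion F))
    field_simp

theorem irr_unif (hπ : Valued.v (π : v.adicCompletion F) = exp (-1 : ℤ)) : Irreducible π := by
  have hu : ∀ x : v.adicCompletionIntegers F, ¬ IsUnit x → π ∣ x := by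
    intro x hx
    rw [HeightOneSpectrum.adicCompletionIntegers.isUnit_iff_valued_eq_one] at hx
    have h1 : Valued.v (x : v.adicCompletion F) < 1 := lt_of_le_of_ne x.2 hx
    have h2 := (dvd_iff hπ x 1).2 (by
      by_cases h0 : Valued.v (x : v.adicCompletion F) = 0
      · rw [h0]; exact zero_le
      · rw [← exp_log h0, ← exp_zero, exp_lt_exp] at h1
        rw [← exp_log h0, exp_le_exp]
        push_cast
        omega)
    rwa [pow_one] at h2
  have hπ0 : π ≠ 0 := by
    rintro rfl
    have e : (((0 : v.adicCompletionIntegers F)) : v.adicCompletion F) = 0 := rfl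
    rw [e, map_zero] at hπ
    exact exp_ne_zero hπ.symm
  have hπu : ¬ IsUnit π := by
    rw [HeightOneSpectrum.adicCompletionIntegers.isUnit_iff_valued_eq_one]
    intro h
    rw [hπ, ← exp_zero] at h
    have := exp_injective h
    omega
  refine ⟨hπu, fun a b hab => ?_⟩
  by_contra hc
  push Not at hc
  obtain ⟨c, hc1⟩ := hu a hc.1
  obtain ⟨d, hd1⟩ := hu b hc.2
  apply hπu
  apply IsUnit.of_mul_eq_one (c * d)
  apply mul_left_cancel₀ hπ0
  rw [mul_one]
  conv_rhs => rw [hab, hc1, hd1]
  ring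

theorem dv_unif (hπ : Valued.v (π : v.adicCompletion F) = exp (-1 : ℤ)) :
    DV (v.adicCompletion F) π (IsLocalRing.residue (v.adicCompletionIntegers F)) :=
  dv_of_dvr _ _ (irr_unif hπ)

theorem res_mem (hπ : Valued.v (π : v.adicCompletion F) = exp (-1 : ℤ)) (a : 𝓞 F) :
    IsLocalRing.residue (v.adicCompletionIntegers F)
      (algebraMap (𝓞 F) (v.adicCompletionIntegers F) a) = 0 ↔ a ∈ v.asIdeal := by
  rw [(dv_unif hπ).ker]
  have h1 := dvd_iff hπ (algebraMap (𝓞 F) (v.adicCompletionIntegers F) a) 1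
  rw [pow_one] at h1
  rw [h1, alg_O, val_F]
  have h2 : v.valuation F (algebraMap (𝓞 F) F a) < 1 ↔ a ∈ v.asIdeal :=
    v.valuation_lt_one_iff_mem (K := F) a
  rw [← h2]
  by_cases h0 : v.valuation F (algebraMap (𝓞 F) F a) = 0
  · rw [h0]
    simp
  · rw [← exp_log h0, exp_le_exp, ← exp_zero, exp_lt_exp]
    push_cast
    omega

theorem res_surj (hπ : Valued.v (π : v.adicCompletion F) = exp (-1 : ℤ)) :
    Function.Surjective ((IsLocalRing.residue (v.adicCompletionIntegers F)).comp
      (algebraMap (𝓞 F) (v.adicCompletionIntegers F))) := by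
  intro y
  obtain ⟨x, rfl⟩ := IsLocalRing.residue_surjective y
  obtain ⟨a, ha⟩ := dens_O v x 1
  have h1 := (dvd_iff hπ _ 1).2 ha
  rw [pow_one, ← (dv_unif hπ).ker, map_sub, sub_eq_zero] at h1
  exact ⟨a, h1.symm⟩

/-- the residue field -/
def resE (hπ : Valued.v (π : v.adicCompletion F) = exp (-1 : ℤ)) :
    𝓞 F ⧸ v.asIdeal ≃+* IsLocalRing.ResidueField (v.adicCompletionIntegers F) :=
  (Ideal.quotEquivOfEq (by
    ext a
    rw [RingHom.mem_ker]
    exact (res_mem hπ a).symm)).trans (RingHom.quotientKerEquivOfSurjective (res_surj hπ))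

theorem resE_mk (hπ : Valued.v (π : v.adicCompletion F) = exp (-1 : ℤ)) (a : 𝓞 F) :
    resE hπ (Ideal.Quotient.mk v.asIdeal a) = IsLocalRing.residue (v.adicCompletionIntegers F)
      (algebraMap (𝓞 F) (v.adicCompletionIntegers F) a) := by
  unfold resE
  rw [RingEquiv.trans_apply, Ideal.quotEquivOfEq_mk]
  rfl

/-- irreducibility modulo `v` -/
theorem irr_res (hπ : Valued.v (π : v.adicCompletion F) = exp (-1 : ℤ)) (f : (𝓞 F)[X]) :
    Irreducible (f.map (Ideal.Quotient.mk v.asIdeal)) ↔
    Irreducible ((f.map (algebraMap (𝓞 F) (v.adicCompletionIntegers F))).map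
      (IsLocalRing.residue (v.adicCompletionIntegers F))) := by
  have e : (f.map (algebraMap (𝓞 F) (v.adicCompletionIntegers F))).map
      (IsLocalRing.residue (v.adicCompletionIntegers F)) =
      Polynomial.mapEquiv (resE hπ) (f.map (Ideal.Quotient.mk v.asIdeal)) := by
    rw [Polynomial.mapEquiv_apply, Polynomial.map_map, Polynomial.map_map]
    congr 1
  rw [e]
  exact (MulEquiv.irreducible_iff (Polynomial.mapEquiv (resE hπ))).symm

theorem two_unif (hπ : Valued.v (π : v.adicCompletion F) = exp (-1 : ℤ))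
    (h2 : (2 : 𝓞 F) ∈ v.asIdeal) : π ∣ 2 := by
  rw [← (dv_unif hπ).ker]
  have h1 := (res_mem hπ 2).2 h2
  rwa [map_ofNat] at h1

/-- congruences -/
theorem sq_dvd_of_mem (hπ : Valued.v (π : v.adicCompletion F) = exp (-1 : ℤ)) {a : 𝓞 F} {n : ℕ}
    (ha : a ∈ v.asIdeal ^ n) : π ^ n ∣ algebraMap (𝓞 F) (v.adicCompletionIntegers F) a := by
  rw [dvd_iff hπ, alg_O, val_F]
  have h1 : v.intValuation a ≤ exp (-(n : ℤ)) := (v.intValuation_le_pow_iff_mem a n).2 ha
  have h2 := v.valuation_of_algebraMap (K := F) a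
  exact h2.le.trans h1

variable (v) in
/-- Regularity at `v`. -/
def RegAt (f : (𝓞 F)[X]) : Prop :=
  ∃ π : v.adicCompletionIntegers F, Valued.v (π : v.adicCompletion F) = exp (-1 : ℤ) ∧
    Reg π (IsLocalRing.residue (v.adicCompletionIntegers F))
      (f.map (algebraMap (𝓞 F) (v.adicCompletionIntegers F)))

theorem regAt_congr {f f' : (𝓞 F)[X]} (hf : RegAt v f)
    (h : ∀ j, f.coeff j - f'.coeff j ∈ v.asIdeal ^ 2) : RegAt v f' := by
  obtain ⟨π, hπ, hr⟩ := hf
  refine ⟨π, hπ, reg_congr hr ?_⟩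
  rw [C_dvd_iff_dvd_coeff]
  intro j
  rw [coeff_sub, coeff_map, coeff_map, ← map_sub]
  exact sq_dvd_of_mem hπ (h j)

end Pool.Agent.H14P
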