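import Pool.Agent.H14P.AdmH
import Pool.Agent.H14F.Final

/-!
# The main theorem for all genera

By helper14.
-/

set_option autoImplicit false
set_option linter.all false

open Polynomial IsDedekindDomain NumberField WithZero
open scoped Classical Pointwise

noncomputable section

namespace Pool.Agent.H14P

open Pool.Agent.N783.PF Pool.Agent.H14F
open Pool.Agent.N874.Jac (UniquelyTwoDivisible ShaTwoTrivialReal)
open Pool.Agent.N352.PF (rv)
open Pool.Agent.N170.PF (LBad.mono)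

section points

variable {F M : Type} [Field F] [NumberField F] [Field M] [NumberField M] [Algebra F M]
  [IsGalois F M]

/-- Local points at the split primes over two. -/
theorem loc_pt {w : HeightOneSpectrum (𝓞 M)} (h2 : (2 : 𝓞 M) ∈ w.asIdeal) (ht : Tot F w) {g : ℕ}
    (hg : 1 ≤ g) {f : (𝓞 F)[X]} (hm : f.Monic) (hd : f.natDegree = 2 * g + 1)
    (hr : RegAt (w.under (𝓞 F)) f) (hs : (fF f).Separable) {x y : w.adicCompletion M}
    (hxy : y ^ 2 = ((fF (up M f)).map (algebraMap M (w.adicCompletion M))).eval x)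
    (hI : ∀ n : ℕ, ∃ I : Ideal (Q ((fF (up M f)).map (algebraMap M (w.adicCompletion M)))), I ≠ ⊥ ∧
      ∃ φ, I ^ (2 ^ (n + 1)) * Mu ((fF (up M f)).map (algebraMap M (w.adicCompletion M)))
        (X - C x) (C y) = Ideal.span {φ}) : False := by
  obtain ⟨e, he⟩ := compl_bij (w.under (𝓞 F)) w (algebraMap F M) (unr_val ht.unr) (tot_dens ht)
  obtain ⟨π, hπ, hreg⟩ := hr
  have h2' : (2 : 𝓞 F) ∈ (w.under (𝓞 F)).asIdeal := by
    have e2 := nat_mem_under (L := F) w 2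
    rw [Nat.cast_ofNat, Nat.cast_ofNat] at e2
    rw [e2]
    exact h2
  have hmO : (f.map (algebraMap (𝓞 F) ((w.under (𝓞 F)).adicCompletionIntegers F))).Monic :=
    hm.map _
  refine no_pt' (dv_unif hπ) (e.symm : w.adicCompletion M →+* (w.under (𝓞 F)).adicCompletion F)
    (fO := f.map (algebraMap (𝓞 F) ((w.under (𝓞 F)).adicCompletionIntegers F))) ?_ hmO
    (by rw [hm.natDegree_map, hd]) hreg (two_unif hπ h2') ?_ ?_ hg hxy hI
  · rw [fF, up, Polynomial.map_map, Polynomial.map_map, Polynomial.map_map, Polynomial.map_map]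
    congr 1
    refine RingHom.ext fun a => ?_
    show e.symm (algebraMap M (w.adicCompletion M)
      (algebraMap (𝓞 M) M (algebraMap (𝓞 F) (𝓞 M) a))) = _
    have h3 : algebraMap (𝓞 M) M (algebraMap (𝓞 F) (𝓞 M) a) = algebraMap F M (algebraMap (𝓞 F) F a) :=
      rfl
    rw [h3, ← he, RingEquiv.symm_apply_apply]
    rfl
  · rw [fF_up, Polynomial.map_map]
    exact hs.map
  · haveI : CharZero (w.adicCompletion M) :=
      charZero_of_injective_algebraMap (algebraMap M (w.adicCompletion M)).injective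
    exact two_ne_zero

/-- Global points. -/
theorem glob_pt {w : HeightOneSpectrum (𝓞 M)} (h2 : (2 : 𝓞 M) ∈ w.asIdeal) (ht : Tot F w) {g : ℕ}
    (hg : 1 ≤ g) {f : (𝓞 F)[X]} (hm : f.Monic) (hd : f.natDegree = 2 * g + 1)
    (hr : RegAt (w.under (𝓞 F)) f) (hs : (fF f).Separable)
    (hJ : UniquelyTwoDivisible (fF (up M f))) (x y : M) :
    y ^ 2 ≠ (fF (up M f)).eval x := by
  intro hxy
  have hs' : (fF (up M f)).Separable := by
    rw [fF_up]
    exact hs.map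
  have hd' : (fF (up M f)).natDegree = 2 * g + 1 := by
    rw [fF, (up_monic hm).natDegree_map, up_deg hm, hd]
  have key : ∀ p : M[X], p = fF (up M f) →
      (Function.Surjective fun P : CommRing.Pic (AdjoinRoot (X ^ 2 - C p : M[X][X])) => P ^ 2) →
      Function.Surjective
        fun P : CommRing.Pic (AdjoinRoot (X ^ 2 - C (fF (up M f)) : M[X][X])) => P ^ 2 := by
    rintro p rfl h
    exact h
  have hsur := key ((fF (up M f)).map (algebraMap M M))
    (by rw [Algebra.algebraMap_self, Polynomial.map_id]) hJ.surjective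
  refine loc_pt h2 ht hg hm hd hr hs (x := algebraMap M (w.adicCompletion M) x)
    (y := algebraMap M (w.adicCompletion M) y) ?_ ?_
  · rw [eval_map, eval₂_at_apply, ← hxy, map_pow]
  · intro n
    obtain ⟨I, hI, φ, hφ⟩ := ideals_Q two_ne_zero ⟨g, hd'⟩ hs'.squarefree hsur
      (Mu (fF (up M f)) (X - C x) (C y)) (Mu_ne x y) (n + 1)
    refine ⟨I.map (mp (algebraMap M (w.adicCompletion M)) (fF (up M f))), ?_,
      mp (algebraMap M (w.adicCompletion M)) (fF (up M f)) φ, ?_⟩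
    · intro h0
      rw [Ideal.map_eq_bot_iff_of_injective (mp_inj (algebraMap M (w.adicCompletion M)).injective)]
        at h0
      exact hI h0
    · have h1 := congrArg (Ideal.map (mp (algebraMap M (w.adicCompletion M)) (fF (up M f)))) hφ
      rw [Ideal.map_mul, Ideal.map_pow, Ideal.map_span, Set.image_singleton, map_Mu] at h1
      rw [← h1]
      simp

end points

/-- The properties over an admissible field. -/
structure AllH (F M : Type) [Field F] [NumberField F] [Field M] [NumberField M] [Algebra F M]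
    (f : (𝓞 F)[X]) : Prop where
  div : UniquelyTwoDivisible (fF (up M f))
  sha : ShaTwoTrivialReal (fF (up M f)) (𝓞 M)
  pts : ∀ x y : M, y ^ 2 ≠ (fF (up M f)).eval x
  loc : ∀ w : HeightOneSpectrum (𝓞 M), (2 : 𝓞 M) ∈ w.asIdeal → ∀ x y : w.adicCompletion M,
    y ^ 2 = ((fF (up M f)).map (algebraMap M (w.adicCompletion M))).eval x →
    ¬ ∀ n : ℕ, ∃ I : Ideal (Q ((fF (up M f)).map (algebraMap M (w.adicCompletion M)))), I ≠ ⊥ ∧
      ∃ φ, I ^ (2 ^ (n + 1)) * Mu ((fF (up M f)).map (algebraMap M (w.adicCompletion M)))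
        (X - C x) (C y) = Ideal.span {φ}

/-- The properties of the curve. -/
structure GoodH (F M₀ : Type) [Field F] [NumberField F] [Field M₀] [NumberField M₀] [Algebra F M₀]
    (g : ℕ) (f : (𝓞 F)[X]) : Prop where
  adm : AdmH F M₀ g f
  all : ∀ (M : Type) [Field M] [NumberField M] [Algebra F M], AdmH F M g f → AllH F M f

/-- The conditions on `W` and `f₁`. -/
structure EH (F M : Type) [Field F] [NumberField F] [Field M] [NumberField M] [Algebra F M] (W : ℕ)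
    (f₁ : (𝓞 F)[X]) : Prop where
  four : 4 ∣ W
  irr : ∀ v : HeightOneSpectrum (𝓞 F), (W : 𝓞 F) ∈ v.asIdeal → Irreducible (rv v f₁)
  unr : ∀ w : HeightOneSpectrum (𝓞 M), ¬ Unr F w → (W : 𝓞 M) ∈ w.asIdeal
  reg : ∀ v : HeightOneSpectrum (𝓞 F), (2 : 𝓞 F) ∈ v.asIdeal → RegAt v f₁

theorem allH_of {F M : Type} [Field F] [NumberField F] [Field M] [NumberField M] [Algebra F M]
    {g : ℕ} (hg : 1 ≤ g) {f : (𝓞 F)[X]} (hm : f.Monic) (hd : f.natDegree = 2 * g + 1)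
    (hi : Irreducible (fF f))
    (hreg : ∀ v : HeightOneSpectrum (𝓞 F), (2 : 𝓞 F) ∈ v.asIdeal → RegAt v f)
    (hadm : AdmH F M g f) (h1 : Irreducible (fF (up M f))) (h2 : SelZero (up M f)) :
    AllH F M f := by
  haveI := hadm.galois
  obtain ⟨h3, h4⟩ := jac (up_monic hm) (by rw [up_deg hm, hd]; exact ⟨g, rfl⟩) h1 h2
  have hu : ∀ w : HeightOneSpectrum (𝓞 M), (2 : 𝓞 M) ∈ w.asIdeal →
      (2 : 𝓞 F) ∈ (w.under (𝓞 F)).asIdeal := by
    intro w hw
    have e2 := nat_mem_under (L := F) w 2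
    rw [Nat.cast_ofNat, Nat.cast_ofNat] at e2
    rw [e2]
    exact hw
  obtain ⟨w, hw⟩ := exists_two M
  refine ⟨h3, h4, glob_pt hw (hadm.two w hw) hg hm hd (hreg _ (hu w hw)) hi.separable h3, ?_⟩
  intro w hw x y hxy hI
  exact loc_pt hw (hadm.two w hw) hg hm hd (hreg _ (hu w hw)) hi.separable hxy hI

theorem twH (F M : Type) [Field F] [NumberField F] [Field M] [NumberField M] [Algebra F M]
    [IsGalois F M] (g : ℕ) (hg : 1 ≤ g) {n : ℕ} (hn : Module.finrank F M = 2 ^ n)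
    (h2 : ∀ w : HeightOneSpectrum (𝓞 M), (2 : 𝓞 M) ∈ w.asIdeal → Tot F w)
    (hr : ∀ σ : F →+* ℝ, ∃ ρ : M →+* ℝ, ρ.comp (algebraMap F M) = σ) :
    ∃ κ : ℕ, ∀ (B N W : ℕ) (f₁ : (𝓞 F)[X]) (S : Finset ℕ) (𝔮 : ℕ → Ideal (𝓞 F))
      (r P : ℕ → (𝓞 F)[X]) (f : (𝓞 F)[X]), κ ≤ W → GoodF g W f₁ → EH F M W f₁ →
      GoodS g W S 𝔮 r P →
      PS F M S → Fam g B W f₁ S P f → 2 ^ κ * B ≤ 4 ^ N → 1 ≤ B → ¬ LBad g N κ S 𝔮 P f →
      ∃ J ⊆ S, Irreducible (fF (f.scaleRoots ((Dp J : ℕ) : 𝓞 F))) ∧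
        GoodH F M g (f.scaleRoots ((Dp J : ℕ) : 𝓞 F)) ∧
        Min g (f.scaleRoots ((Dp J : ℕ) : 𝓞 F)) := by
  obtain ⟨κ₁, hκ₁⟩ := core g F hg
  obtain ⟨κ₂, hκ₂⟩ := sqf g F hg
  refine ⟨max κ₁ κ₂, fun B N W f₁ S 𝔮 r P f hW hf₁ hE hS hΦ hF hBN hB hnb => ?_⟩
  have hBN1 : 2 ^ κ₁ * B ≤ 4 ^ N :=
    (Nat.mul_le_mul_right _ (Nat.pow_le_pow_right (by norm_num) (le_max_left _ _))).trans hBN
  have hBN2 : 2 ^ κ₂ * B ≤ 4 ^ N :=
    (Nat.mul_le_mul_right _ (Nat.pow_le_pow_right (by norm_num) (le_max_right _ _))).trans hBN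
  have hnb1 : ¬ LBad g N κ₁ S 𝔮 P f := fun h => hnb (LBad.mono (le_max_left _ _) h)
  have hnb2 : ¬ LBad g N κ₂ S 𝔮 P f := fun h => hnb (LBad.mono (le_max_right _ _) h)
  have hm := hF.ht.mon
  have hd := hF.ht.deg
  have ht := hF.ht.tr
  have hirr : Irreducible (fF f) := Pool.Agent.N667.PF.irr F g W f₁ f hf₁ hF.one hm hd
  have hsq : SqF g f := hκ₂ B N W f₁ S 𝔮 r P f ((le_max_right _ _).trans hW) hf₁ hS hF hirr hBN2
    hB hnb2
  obtain ⟨L, _, _, _, θ, hc⟩ := Pool.Agent.N667.PF.gen F g f hm hd hirr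
  obtain ⟨J, hJ, hcore⟩ := hκ₁ L f f₁ θ B N W S 𝔮 r P ((le_max_left _ _).trans hW) hc hsq hf₁ hS
    hF hBN1 hB hnb1
  have D : Dat g W f f₁ θ S J 𝔮 r P := ⟨hg, hc, hsq, hf₁, hS, hF.one, hF.con, hJ⟩
  have hi : Irreducible (fF (f.scaleRoots ((Dp J : ℕ) : 𝓞 F))) := by
    rw [Pool.Agent.N170.PF.fF_scale hm]
    exact Pool.Agent.N170.PF.irr_scale (Nat.cast_ne_zero.2 D.dp_ne) hirr
  have hmD : (f.scaleRoots ((Dp J : ℕ) : 𝓞 F)).Monic := (monic_scaleRoots_iff _).2 hm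
  have hdD : (f.scaleRoots ((Dp J : ℕ) : 𝓞 F)).natDegree = 2 * g + 1 := by
    rw [natDegree_scaleRoots, hd]
  refine ⟨J, hJ, hi, ⟨adm_baseH hn h2 hr D ht hΦ hE.unr hE.irr, ?_⟩,
    Pool.Agent.N547.PF.min g W F S J 𝔮 r P f hg hS hsq hm hd hF.con hJ⟩
  intro M' _ _ _ hadm
  obtain ⟨h5, h6⟩ := selH D hcore M' hadm
  exact allH_of hg hmD hdD hi (fun v hv => reg_scale D hE.four hv (hE.reg v hv)) hadm h5 h6

/-- **The main theorem.** -/
theorem finalH (F M : Type) [Field F] [NumberField F] [Field M] [NumberField M] [Algebra F M]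
    [IsGalois F M] (g : ℕ) (hg : 1 ≤ g) {n : ℕ} (hn : Module.finrank F M = 2 ^ n)
    (h2 : ∀ w : HeightOneSpectrum (𝓞 M), (2 : 𝓞 M) ∈ w.asIdeal → Tot F w)
    (hr : ∀ σ : F →+* ℝ, ∃ ρ : M →+* ℝ, ρ.comp (algebraMap F M) = σ) :
    ∃ c : ℝ, 0 < c ∧ ∃ B₀ : ℕ, ∀ B ≥ B₀,
      {f : (𝓞 F)[X] | Ht g B f}.Finite ∧ c * ({f : (𝓞 F)[X] | Ht g B f}.ncard : ℝ) ≤
      ({f : (𝓞 F)[X] | Ht g B f ∧ Irreducible (fF f) ∧ GoodH F M g f ∧ Min g f}.ncard : ℝ) := by
  refine mainW Pool.Agent.N490.PF.pts bad F g hg (EH F M) (PS F M)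
    (GoodH F M g) ?_ ?_ (twH F M g hg hn h2 hr)
  · intro K
    obtain ⟨K₀, hK₀⟩ := famT F g hg
    obtain ⟨R, hR0, hR⟩ := exists_R F M
    have hW0 : 0 < (K + K₀ + 4).factorial * R :=
      Nat.mul_pos (Nat.factorial_pos _) hR0
    have hfW : (K + K₀ + 4).factorial ∣ (K + K₀ + 4).factorial * R := dvd_mul_right _ _
    have hKW : K ≤ (K + K₀ + 4).factorial * R := by
      have h1 : K + K₀ + 4 ≤ (K + K₀ + 4).factorial := Nat.self_le_factorial _
      have h2 := Nat.le_of_dvd hW0 hfW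
      omega
    have h4W : 4 ∣ (K + K₀ + 4).factorial * R :=
      ((Nat.dvd_factorial (by norm_num) (by omega))).trans hfW
    have h2W : 2 ∣ (K + K₀ + 4).factorial * R := (by norm_num : 2 ∣ 4).trans h4W
    obtain ⟨f₁, g1, g2, g3, g4, g5⟩ := exists_f1 F hg hW0 h2W
    have hgood := goodF_of hg hW0 h2W g1 g2 g3 g4
    refine ⟨(K + K₀ + 4).factorial * R, f₁, hKW, hgood, ⟨h4W, g4, ?_, g5⟩, ?_⟩
    · intro w hw
      rw [Nat.cast_mul]
      exact Ideal.mul_mem_left _ _ (hR w hw)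
    · refine hK₀ _ f₁ hgood fun q hq hqK => ?_
      exact (Nat.dvd_factorial hq.pos (by omega)).trans hfW
  · intro W m
    exact exsM F M g W hg m

end Pool.Agent.H14P
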