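import Pool.Agent.H14P.Gf
import Pool.Agent.H14F.AdmBase
import Pool.Agent.N783.PF.Jac

/-!
# Admissible extensions

By helper14.
-/

set_option autoImplicit false
set_option linter.all false

open Polynomial IsDedekindDomain NumberField WithZero
open scoped Classical Pointwise

noncomputable section

namespace Pool.Agent.H14P

open Pool.Agent.N783.PF Pool.Agent.H14F
open Pool.Agent.N874.Jac (UniquelyTwoDivisible ShaTwoTrivialReal)
open Pool.Agent.N352.PF (rv)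

/-- The extension `M` of `F` is admissible for the curve `y ^ 2 = f(x)`, `deg f = 2 g + 1`. -/
structure AdmH (F M : Type) [Field F] [NumberField F] [Field M] [NumberField M] [Algebra F M]
    (g : ℕ) (f : (𝓞 F)[X]) : Prop where
  galois : IsGalois F M
  deg : ∃ n : ℕ, Module.finrank F M = 2 ^ n
  two : ∀ w : HeightOneSpectrum (𝓞 M), (2 : 𝓞 M) ∈ w.asIdeal → Tot F w
  bad : ∀ w : HeightOneSpectrum (𝓞 M),
    (∀ j ≤ 2 * g, f.coeff j ∈ (w.under (𝓞 F)).asIdeal ^ (2 * g + 1 - j)) → Tot F w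
  real : ∀ σ : F →+* ℝ, ∃ ρ : M →+* ℝ, ρ.comp (algebraMap F M) = σ
  ram : ∀ w : HeightOneSpectrum (𝓞 M), ¬ Unr F w → Irreducible (rd (w.under (𝓞 F)).asIdeal f)

theorem irr_unscale {k : Type} [Field k] {p : k[X]} (hm : p.Monic) (hd : 2 ≤ p.natDegree) {D : k}
    (h : Irreducible (p.scaleRoots D)) : D ≠ 0 ∧ Irreducible p := by
  have hD : D ≠ 0 := by
    rintro rfl
    rw [scaleRoots_zero, hm.leadingCoeff, one_smul] at h
    exact not_irreducible_pow (by omega) h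
  refine ⟨hD, ?_⟩
  have h1 := Pool.Agent.N170.PF.irr_scale (inv_ne_zero hD) h
  rwa [← scaleRoots_mul, mul_inv_cancel₀ hD, scaleRoots_one] at h1

theorem rd_scale {F : Type} [Field F] [NumberField F] {f : (𝓞 F)[X]} (hm : f.Monic) (D : 𝓞 F)
    (v : HeightOneSpectrum (𝓞 F)) :
    rd v.asIdeal (f.scaleRoots D) = (rd v.asIdeal f).scaleRoots (Ideal.Quotient.mk v.asIdeal D) := by
  haveI : Nontrivial (𝓞 F ⧸ v.asIdeal) := Ideal.Quotient.nontrivial_iff.2 v.isPrime.ne_top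
  unfold rd
  rw [map_scaleRoots]
  rw [hm.leadingCoeff, map_one]
  exact one_ne_zero

section

variable {F L : Type} [Field F] [NumberField F] [Field L] [NumberField L] [Algebra F L]
  {g W : ℕ} {f f₁ : (𝓞 F)[X]} {θ : L} {S J : Finset ℕ} {𝔮 : ℕ → Ideal (𝓞 F)}
  {r P : ℕ → (𝓞 F)[X]}

/-- The Selmer group over an admissible extension. -/
theorem selH (D : Dat g W f f₁ θ S J 𝔮 r P) (hcore : CoreJ f θ J 𝔮)
    (M : Type) [Field M] [NumberField M] [Algebra F M]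
    (hadm : AdmH F M g (f.scaleRoots ((Dp J : ℕ) : 𝓞 F))) :
    Irreducible (fF (up M (f.scaleRoots ((Dp J : ℕ) : 𝓞 F)))) ∧
      SelZero (up M (f.scaleRoots ((Dp J : ℕ) : 𝓞 F))) := by
  haveI := hadm.galois
  obtain ⟨n, hn⟩ := hadm.deg
  have hm := D.gen.mon
  have hd := D.gen.deg
  have hg := D.hg
  have hq : ∀ q ∈ J, ∀ w : HeightOneSpectrum (𝓞 M), Ov (𝔮 q) w → Tot F w := by
    intro q hq w hw
    obtain ⟨a1, a2, a3, a4, a5, a6, a7, -⟩ := D.gs q (D.sub hq)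
    have h5 : ((Dp J : ℕ) : 𝓞 F) ∈ (w.under (𝓞 F)).asIdeal := by
      rw [Dp, Nat.cast_prod]
      exact Ideal.mem_of_dvd _ (Finset.dvd_prod_of_mem (fun q : ℕ => (q : 𝓞 F)) hq) (hw _ a7)
    refine hadm.bad w fun j hj => ?_
    rw [coeff_scaleRoots, hd]
    exact Ideal.mul_mem_left _ _ (Ideal.pow_mem_pow h5 _)
  have hram : ∀ w : HeightOneSpectrum (𝓞 M), ¬ Unr F w →
      Irreducible (rd (w.under (𝓞 F)).asIdeal f) := by
    intro w hw
    have h5 := hadm.ram w hw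
    rw [rd_scale hm] at h5
    haveI : (w.under (𝓞 F)).asIdeal.IsMaximal := (w.under (𝓞 F)).isMaximal
    letI : Field (𝓞 F ⧸ (w.under (𝓞 F)).asIdeal) := Ideal.Quotient.field _
    exact (irr_unscale (hm.map _) (by rw [hm.natDegree_map, hd]; omega) h5).2
  exact selM D hcore M hn hadm.two hadm.real hq hram

/-- The primes `𝔭` with `𝔭 ^ (2 g + 1 - j) ∣ a_j D ^ (2 g + 1 - j)` contain `D`. -/
theorem dp_mem_ofH (hg : 1 ≤ g) (hm : f.Monic) (hd : f.natDegree = 2 * g + 1)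
    (ht : f.coeff (2 * g) = 0) (hsq : SqF g f) {D : 𝓞 F} {w : HeightOneSpectrum (𝓞 F)}
    (h1 : ∀ j ≤ 2 * g, f.coeff j * D ^ (2 * g + 1 - j) ∈ w.asIdeal ^ (2 * g + 1 - j)) :
    D ∈ w.asIdeal := by
  by_contra hD1
  haveI hp := w.isPrime
  have hco : ∀ j < 2 * g + 1, f.coeff j ∈ w.asIdeal ^ 2 := by
    intro j hj
    rcases Nat.lt_or_ge j (2 * g) with h2 | h2
    · have h3 : D ^ (2 * g + 1 - j) ∉ w.asIdeal := fun h => hD1 (hp.mem_of_pow_mem _ h)
      have h4 := h1 j h2.le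
      rw [mul_comm (f.coeff j)] at h4
      rcases Ideal.IsPrime.mul_mem_pow w.asIdeal h4 with h' | h'
      · exact absurd h' h3
      · exact Ideal.pow_le_pow_right (by omega) h'
    · have h3 : j = 2 * g := by omega
      rw [h3, ht]
      exact Ideal.zero_mem _
  have hf : f.map (Ideal.Quotient.mk (w.asIdeal ^ 2)) = X ^ (2 * g + 1) :=
    Pool.Agent.N547.PF.map_eq_X_pow _ f _ hm hd
    fun j hj => Ideal.Quotient.eq_zero_iff_mem.2 (hco j hj)
  apply hsq w.asIdeal hp w.ne_bot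
  rw [← Ideal.Quotient.eq_zero_iff_mem, dsc, ← resultant_map_map, ← derivative_map, hf,
    resultant_X_pow_left]
  · rw [derivative_X_pow, coeff_C_mul, coeff_X_pow, if_neg (by omega), mul_zero,
      zero_pow (by omega)]
  · rw [derivative_X_pow]
    refine (natDegree_C_mul_le _ _).trans ?_
    refine (natDegree_X_pow_le _).trans (by omega)

/-- The field `M` is admissible. -/
theorem adm_baseH {M : Type} [Field M] [NumberField M] [Algebra F M] [IsGalois F M] {n : ℕ}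
    (hn : Module.finrank F M = 2 ^ n)
    (h2 : ∀ w : HeightOneSpectrum (𝓞 M), (2 : 𝓞 M) ∈ w.asIdeal → Tot F w)
    (hr : ∀ σ : F →+* ℝ, ∃ ρ : M →+* ℝ, ρ.comp (algebraMap F M) = σ)
    (D : Dat g W f f₁ θ S J 𝔮 r P) (ht : f.coeff (2 * g) = 0)
    (hS : ∀ q ∈ S, ∀ w : HeightOneSpectrum (𝓞 M), (q : 𝓞 M) ∈ w.asIdeal → Tot F w)
    (hW : ∀ w : HeightOneSpectrum (𝓞 M), ¬ Unr F w → (W : 𝓞 M) ∈ w.asIdeal)
    (hirr : ∀ v : HeightOneSpectrum (𝓞 F), (W : 𝓞 F) ∈ v.asIdeal → Irreducible (rv v f₁)) :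
    AdmH F M g (f.scaleRoots ((Dp J : ℕ) : 𝓞 F)) := by
  have hm := D.gen.mon
  have hd := D.gen.deg
  refine ⟨inferInstance, ⟨n, hn⟩, h2, ?_, hr, ?_⟩
  · intro w h3
    have h4 : ∀ j ≤ 2 * g, f.coeff j * ((Dp J : ℕ) : 𝓞 F) ^ (2 * g + 1 - j) ∈
        (w.under (𝓞 F)).asIdeal ^ (2 * g + 1 - j) := by
      intro j hj
      have := h3 j hj
      rwa [coeff_scaleRoots, hd] at this
    obtain ⟨q, hq, hqw⟩ := D.exists_q (dp_mem_ofH D.hg hm hd ht D.sqf h4)
    rw [nat_mem_under] at hqw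
    exact hS q (D.sub hq) w hqw
  · intro w hw
    have hWw : (W : 𝓞 F) ∈ (w.under (𝓞 F)).asIdeal := by
      rw [nat_mem_under]
      exact hW w hw
    have e1 := Pool.Agent.N78.PF.rd_eq (Pool.Agent.N78.PF.sp_le hWw) D.one
    have h3 : Irreducible (rd (w.under (𝓞 F)).asIdeal f) := by
      rw [e1]
      exact hirr _ hWw
    rw [rd_scale hm]
    haveI : (w.under (𝓞 F)).asIdeal.IsMaximal := (w.under (𝓞 F)).isMaximal
    letI : Field (𝓞 F ⧸ (w.under (𝓞 F)).asIdeal) := Ideal.Quotient.field _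
    refine Pool.Agent.N170.PF.irr_scale ?_ h3
    intro h0
    exact D.dp_notMem hWw (Ideal.Quotient.eq_zero_iff_mem.1 h0)

/-- Regularity of the twist. -/
theorem reg_scale (D : Dat g W f f₁ θ S J 𝔮 r P) (h4 : 4 ∣ W) {v : HeightOneSpectrum (𝓞 F)}
    (hv : (2 : 𝓞 F) ∈ v.asIdeal) (hf : RegAt v f₁) :
    RegAt v (f.scaleRoots ((Dp J : ℕ) : 𝓞 F)) := by
  have h42 : (4 : 𝓞 F) ∈ v.asIdeal ^ 2 := by
    have e : (4 : 𝓞 F) = 2 ^ 2 := by norm_num
    rw [e]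
    exact Ideal.pow_mem_pow hv 2
  have hd := D.gen.deg
  refine regAt_congr hf fun j => ?_
  rw [coeff_scaleRoots]
  obtain ⟨t, ht⟩ : (4 : 𝓞 F) ∣ ((Dp J : ℕ) : 𝓞 F) ^ (f.natDegree - j) - 1 := by
    have h8 := D.eight
    have e1 : (4 : ℤ) ∣ ((Dp J : ℕ) : ℤ) - 1 := by omega
    have e2 : (4 : ℤ) ∣ ((Dp J : ℕ) : ℤ) ^ (f.natDegree - j) - 1 := by
      have := sub_dvd_pow_sub_pow ((Dp J : ℕ) : ℤ) 1 (f.natDegree - j)
      rw [one_pow] at this
      exact e1.trans this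
    obtain ⟨t, ht⟩ := e2
    refine ⟨(t : 𝓞 F), ?_⟩
    have := congrArg (Int.cast : ℤ → 𝓞 F) ht
    rw [Int.cast_sub, Int.cast_pow, Int.cast_natCast, Int.cast_one, Int.cast_mul,
      Int.cast_ofNat] at this
    exact this
  obtain ⟨s, hs⟩ : (4 : 𝓞 F) ∣ f.coeff j - f₁.coeff j := by
    have h1 := D.one j
    rw [sp, Ideal.mem_span_singleton] at h1
    refine Dvd.dvd.trans ?_ h1
    obtain ⟨k, rfl⟩ := h4
    exact ⟨(k : 𝓞 F), by push_cast; ring⟩
  have e : f₁.coeff j - f.coeff j * ((Dp J : ℕ) : 𝓞 F) ^ (f.natDegree - j) =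
      4 * (-s - f.coeff j * t) := by
    linear_combination -hs - f.coeff j * ht
  rw [e]
  exact Ideal.mul_mem_right _ _ h42

end

end Pool.Agent.H14P
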