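import Mathlib

/-!
# Common zeros of two plane curves

By helper14.
-/

set_option autoImplicit false
set_option linter.all false

open Polynomial
open scoped Polynomial.Bivariate

noncomputable section

namespace Pool.Agent.H14P

section

variable {K : Type} [Field K]

/-- The resultant of coprime polynomials is not zero. -/
theorem res_ne {G R : K[X][Y]} (hG : Irreducible G) (hd : 0 < G.natDegree) (h : ¬ G ∣ R) :
    G.resultant R ≠ 0 := by
  letI : NormalizedGCDMonoid K[X] := Classical.choice inferInstance
  have hprim : G.IsPrimitive := hG.isPrimitive hd.ne'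
  have hinj : Function.Injective (algebraMap K[X] (FractionRing K[X])) :=
    IsFractionRing.injective _ _
  have h1 : Irreducible (G.map (algebraMap K[X] (FractionRing K[X]))) :=
    hprim.irreducible_iff_irreducible_map_fraction_map.1 hG
  have h2 : ¬ G.map (algebraMap K[X] (FractionRing K[X])) ∣
      R.map (algebraMap K[X] (FractionRing K[X])) := fun h3 =>
    h ((hprim.dvd_iff_fraction_map_dvd_fraction_map (K := FractionRing K[X])).2 h3)
  have h3 : IsCoprime (G.map (algebraMap K[X] (FractionRing K[X])))
      (R.map (algebraMap K[X] (FractionRing K[X]))) := (h1.coprime_iff_not_dvd).2 h2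
  intro h0
  have h4 : (G.map (algebraMap K[X] (FractionRing K[X]))).resultant
      (R.map (algebraMap K[X] (FractionRing K[X]))) = 0 := by
    rw [natDegree_map_eq_of_injective hinj, natDegree_map_eq_of_injective hinj,
      resultant_map_map, h0, map_zero]
  rw [resultant_eq_zero_iff] at h4
  exact h4.2 h3

variable {M : Type} [Field M] [Algebra K M]

/-- The first coordinate of a common zero is a root of the resultant. -/
theorem res_root {G R : K[X][Y]} (hd : 0 < G.natDegree) {x y : M}
    (hG : aevalAeval x y G = 0) (hR : aevalAeval x y R = 0) : aeval x (G.resultant R) = 0 := by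
  obtain ⟨p, q, -, -, h⟩ := exists_mul_add_mul_eq_C_resultant G R le_rfl le_rfl (Or.inl hd.ne')
  have h1 := congrArg (aevalAeval x y) h
  rw [map_add, map_mul, map_mul, hG, hR, zero_mul, zero_mul, add_zero, aevalAeval_C] at h1
  exact h1.symm

/-- The bound. -/
theorem lt_bound {G R : K[X][Y]} (hG : Irreducible G) (hd : 0 < G.natDegree) (h : ¬ G ∣ R) {x y : M}
    (h1 : aevalAeval x y G = 0) (h2 : aevalAeval x y R = 0) (σ : M →+* ℂ) :
    ‖σ x‖₊ < cauchyBound ((G.resultant R).map (σ.comp (algebraMap K M))) := by
  apply IsRoot.norm_lt_cauchyBound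
  · rw [Polynomial.map_ne_zero_iff (σ.comp (algebraMap K M)).injective]
    exact res_ne hG hd h
  · rw [IsRoot.def, eval_map, ← hom_eval₂]
    have h3 := res_root hd h1 h2
    rw [aeval_def] at h3
    rw [h3, map_zero]

theorem lt_bound' {G R : K[X][Y]} (hG : Irreducible G) (hd : 0 < (Bivariate.swap G).natDegree)
    (h : ¬ G ∣ R) {x y : M} (h1 : aevalAeval x y G = 0) (h2 : aevalAeval x y R = 0)
    (σ : M →+* ℂ) :
    ‖σ y‖₊ < cauchyBound (((Bivariate.swap G).resultant (Bivariate.swap R)).map
      (σ.comp (algebraMap K M))) := by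
  refine lt_bound (x := y) (y := x) ?_ hd ?_ ?_ ?_ σ
  · exact (MulEquiv.irreducible_iff (Bivariate.swap (R := K)).toMulEquiv).2 hG
  · intro h3
    exact h ((map_dvd_iff (Bivariate.swap (R := K))).1 h3)
  · rw [Bivariate.aevalAeval_swap]
    exact h1
  · rw [Bivariate.aevalAeval_swap]
    exact h2

end

end Pool.Agent.H14P
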