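import Pool.Agent.H14P.FinH
import Pool.Agent.N352.JB.All

/-!
# Descent: points which lift to a covering with trivial class

By helper14.
-/

set_option autoImplicit false
set_option linter.all false

open Polynomial IsDedekindDomain
open scoped Classical

noncomputable section

namespace Pool.Agent.H14P.Desc

open Pool.Agent.N352.JB
open Pool.Agent.N106.JB
open Pool.Agent.Y160.SE
open Pool.Agent.TH115.GD (incl rs ak)
open Pool.Agent.Y713.Jac (Gal)

/-- `J(E)` is a subgroup of `J(Ω)`. -/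
theorem inj_gen {E Ω : Type} [Field E] [Field Ω] [Algebra E Ω] [IsGalois E Ω] (f' : E[X])
    (hg : Good 2 (-1 : E) f') (φ : E →+* Ω) (hφ : ((incl E E Ω : E →ₐ[E] Ω) : E →+* Ω) = φ)
    (f₁ : E[X]) (h₁ : f'.map (algebraMap E E) = f₁) (f₂ : Polynomial Ω)
    (h₂ : f'.map (algebraMap E Ω) = f₂) (h : f₁.map φ = f₂) :
    Function.Injective (CommRing.Pic.mapRingHom (crMap 2 φ f₁ f₂ h)) := by
  subst hφ
  subst h₁
  subst h₂
  intro x y hxy
  have h1 := @Pool.Agent.N655.JB.inj E Ω _ _ _ _ f' hg (Additive.ofMul x) (Additive.ofMul y)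
    (congrArg Additive.ofMul hxy)
  exact Additive.ofMul.injective h1

theorem jm_inj {K E Ω : Type} [Field K] [Field E] [Field Ω] [Algebra K E] [Algebra E Ω]
    [Algebra K Ω] [IsScalarTower K E Ω] [IsGalois E Ω] {f : K[X]} (hg : Good 2 (-1 : K) f) :
    Function.Injective (jm 2 f (incl K E Ω) : Jac 2 f E → Jac 2 f Ω) := by
  have hgE : Good 2 (-1 : E) (f.map (algebraMap K E)) := by
    have := hg.up E
    rwa [map_neg, map_one] at this
  have h1 : (f.map (algebraMap K E)).map (algebraMap E Ω) = f.map (algebraMap K Ω) := by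
    rw [Polynomial.map_map, ← IsScalarTower.algebraMap_eq]
  have h2 := inj_gen (f.map (algebraMap K E)) hgE ((incl K E Ω : E →ₐ[K] Ω) : E →+* Ω)
    (RingHom.ext fun _ => rfl) (f.map (algebraMap K E))
    (by rw [Algebra.algebraMap_self, Polynomial.map_id]) (f.map (algebraMap K Ω)) h1
    (map_alg (incl K E Ω))
  intro x y hxy
  rw [jm_eq, jm_eq] at hxy
  exact Additive.toMul.injective (h2 (Additive.ofMul.injective hxy))

/-- The descent. -/
theorem desc {K Ω E Ω' : Type} [Field K] [Field Ω] [Algebra K Ω] [IsGalois K Ω] [Field E]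
    [Algebra K E] [Field Ω'] [Algebra E Ω'] [Algebra K Ω'] [IsScalarTower K E Ω'] [IsGalois E Ω']
    {f : K[X]} (hg : Good 2 (-1 : K) f) {N : ℕ} (hJ : ∀ x : Jac 2 f K, ∃ y, N • y = x)
    {c : (Ω ≃ₐ[K] Ω) → Jac 2 f Ω} {R : Jac 2 f Ω} (hR : ∀ σ, c σ = jm 2 f (ak σ) R - R)
    (hN : ∀ σ, N • c σ = 0) (ι : Ω →ₐ[K] Ω') (Q : Jac 2 f Ω') (C : Jac 2 f E)
    (hQ : N • Q = jm 2 f (incl K E Ω') C)
    (hτ : ∀ (τ : Ω' ≃ₐ[E] Ω') (σ : Ω ≃ₐ[K] Ω), (∀ x, τ (ι x) = ι (σ x)) →
      jm 2 f ι (c σ) = jm 2 f (rs K τ) Q - Q) : ∃ S : Jac 2 f E, N • S = C := by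
  have H := hyps
  -- the global class
  obtain ⟨y, hy⟩ := fixed_class (K := K) (E := K) (Ω := Ω) H hg (N • R) (by
    intro τ
    have h1 : jm 2 f (ak τ) (N • R) = N • R := by
      have h2 := hN τ
      rw [hR, smul_sub, sub_eq_zero] at h2
      rw [map_nsmul, h2]
    exact h1)
  obtain ⟨z, hz⟩ := hJ y
  set z' := jm 2 f (incl K K Ω) z with hz'
  have hfix : ∀ σ : Ω ≃ₐ[K] Ω, jm 2 f (ak σ) z' = z' := by
    intro σ
    rw [hz', jm_jm]
    have e : (ak σ).comp (incl K K Ω) = incl K K Ω := AlgHom.ext fun x => σ.commutes x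
    rw [e]
  have hNz : N • z' = N • R := by
    rw [hz', ← map_nsmul, hz, hy]
  set R' := R - z' with hR'
  have hR1 : ∀ σ, c σ = jm 2 f (ak σ) R' - R' := by
    intro σ
    rw [hR σ, hR', map_sub, hfix]
    abel
  have hR2 : N • R' = 0 := by
    rw [hR', smul_sub, hNz, sub_self]
  -- the local class
  obtain ⟨S, hS⟩ := fixed_class (K := K) (E := E) (Ω := Ω') H hg (Q - jm 2 f ι R') (by
    intro τ
    obtain ⟨σ, hσ⟩ : ∃ σ : Ω ≃ₐ[K] Ω, ∀ x, τ (ι x) = ι (σ x) := by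
      letI : Algebra Ω Ω' := ι.toRingHom.toAlgebra
      haveI : IsScalarTower K Ω Ω' := IsScalarTower.of_algebraMap_eq fun x => (ι.commutes x).symm
      refine ⟨(τ.restrictScalars K).restrictNormal Ω, fun x => ?_⟩
      exact ((τ.restrictScalars K).restrictNormal_commutes Ω x).symm
    have h1 := hτ τ σ hσ
    have hcomm : jm 2 f ι (jm 2 f (ak σ) R') = jm 2 f (rs K τ) (jm 2 f ι R') := by
      rw [jm_jm, jm_jm]
      have e : ι.comp (ak σ) = (rs K τ).comp ι := AlgHom.ext fun x => (hσ x).symm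
      rw [e]
    rw [hR1 σ, map_sub, hcomm] at h1
    rw [map_sub]
    have h2 : jm 2 f (rs K τ) Q = Q + (jm 2 f (rs K τ) (jm 2 f ι R') - jm 2 f ι R') := by
      rw [h1]
      abel
    rw [h2]
    abel)
  refine ⟨S, jm_inj (K := K) (E := E) (Ω := Ω') hg ?_⟩
  rw [map_nsmul, hS, smul_sub, ← map_nsmul, hR2, map_zero, sub_zero, hQ]

end Pool.Agent.H14P.Desc
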