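import Pool.Agent.H14P.Desc

/-!
# Descent: the Jacobian of a hyperelliptic curve

By helper14.
-/

set_option autoImplicit false
set_option linter.all false

open Polynomial IsDedekindDomain
open scoped Classical nonZeroDivisors

noncomputable section

namespace Pool.Agent.H14P.Desc

open Pool.Agent.N352.JB
open Pool.Agent.N106.JB
open Pool.Agent.Y160.SE
open Pool.Agent.TH115.GD (incl rs ak)
open Pool.Agent.Y713.Jac (Gal)

/-- The descent, for the Picard groups. -/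
theorem div_local {K E : Type} [Field K] [Field E] [Algebra K E] {f : K[X]}
    (hg : Good 2 (-1 : K) f)
    (hJ : Function.Surjective fun P : Pool.Agent.Y713.Jac.J 2 f K => P ^ 2) {n : ℕ}
    {c : Pool.Agent.Y713.Jac.Cochain 2 f} (hcob : Pool.Agent.Y713.Jac.IsCoboundary 2 f c)
    (hN : ∀ σ, c σ ^ (2 ^ n) = 1) (ι : SeparableClosure K →ₐ[K] SeparableClosure E)
    (Q : Pool.Agent.Y713.Jac.J 2 f (SeparableClosure E)) (C : Pool.Agent.Y713.Jac.J 2 f E)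
    (hQ : Q ^ (2 ^ n) = Pool.Agent.Y713.Jac.mapJ 2 f
      (IsScalarTower.toAlgHom K E (SeparableClosure E)) C)
    (hτ : ∀ (τ : SeparableClosure E ≃ₐ[E] SeparableClosure E) (σ : Gal K),
      (∀ x, τ (ι x) = ι (σ x)) → Pool.Agent.Y713.Jac.mapJ 2 f ι (c σ) =
        Pool.Agent.Y713.Jac.mapJ 2 f (τ.toAlgHom.restrictScalars K) Q / Q) :
    ∃ S : Pool.Agent.Y713.Jac.J 2 f E, S ^ (2 ^ n) = C := by
  obtain ⟨R, hR⟩ := (acob_iff (c := c)).1 hcob
  obtain ⟨S, hS⟩ := desc (E := E) (Ω' := SeparableClosure E) hg (N := 2 ^ n)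
    (c := fun σ => ad (c σ)) (R := R) (fun x => by
      obtain ⟨y, hy⟩ := pow_surj hJ n (mu x)
      refine ⟨ad y, ?_⟩
      rw [← ad_pow, hy, ad_mu]) hR (fun σ => by
      rw [← ad_pow, hN]
      rfl) ι (ad Q) (ad C) (by
      rw [← ad_pow, hQ, ad_mapJ]
      rfl) (fun τ σ h => by
      rw [← ad_mapJ, hτ τ σ h, ad_div, ad_mapJ]
      rfl)
  refine ⟨mu S, ad_inj ?_⟩
  rw [ad_pow, ad_mu, hS]

/-- From classes to ideals. -/
theorem ideal_of_class {A : Type} [CommRing A] [IsDedekindDomain A] (m : Ideal A) (hm : m ≠ ⊥)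
    {C S : CommRing.Pic A} (hC : Nonempty (m ≃ₗ[A] C)) {N : ℕ} (hS : S ^ N = C) :
    ∃ I : Ideal A, I ≠ ⊥ ∧ ∃ φ, I ^ N * m = Ideal.span {φ} := by
  have hm' : m ∈ (Ideal A)⁰ := mem_nonZeroDivisors_of_ne_zero hm
  haveI := Pool.Agent.Y228.SE.inv_ideal m hm'
  have h0 : ClassGroup.equivPic A (ClassGroup.mk0 ⟨m, hm'⟩) = C := by
    rw [Pool.Agent.Y228.SE.equivPic_mk0]
    exact CommRing.Pic.mk_eq_iff.2 hC
  obtain ⟨⟨I, hI'⟩, hI⟩ := ClassGroup.mk0_surjective ((ClassGroup.equivPic A).symm S⁻¹)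
  have hI0 : I ≠ ⊥ := nonZeroDivisors.ne_zero hI'
  refine ⟨I, hI0, ?_⟩
  have h1 : ClassGroup.mk0 ((⟨I, hI'⟩ : (Ideal A)⁰) ^ N * ⟨m, hm'⟩) = 1 := by
    rw [map_mul, map_pow, hI, ← map_pow (ClassGroup.equivPic A).symm, inv_pow, hS, ← h0, map_inv,
      MulEquiv.symm_apply_apply, inv_mul_cancel]
  have hh : I ^ N * m ∈ (Ideal A)⁰ := mul_mem (pow_mem hI' _) hm'
  have e : (⟨I ^ N * m, hh⟩ : (Ideal A)⁰) = (⟨I, hI'⟩ : (Ideal A)⁰) ^ N * ⟨m, hm'⟩ := by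
    apply Subtype.ext
    rfl
  rw [← e] at h1
  have h2 := (ClassGroup.mk0_eq_one_iff hh).1 h1
  obtain ⟨φ, hφ⟩ := h2.principal
  exact ⟨φ, hφ⟩

theorem iso_lf {K : Type} [Field K] (f : K[X]) (z : AdjoinRoot (X ^ 2 - C f : K[X][X])) :
    iso f z = lf f z := rfl

theorem iso_of {K : Type} [Field K] (f : K[X]) (p : K[X]) :
    iso f (AdjoinRoot.of (X ^ 2 - C f : K[X][X]) p) = cc f p := by
  rw [iso_lf, lf, AdjoinRoot.lift_of]

theorem iso_root {K : Type} [Field K] (f : K[X]) :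
    iso f (AdjoinRoot.root (X ^ 2 - C f : K[X][X])) = yy f := by
  rw [iso_lf, lf, AdjoinRoot.lift_root]

/-- The ideal of a point. -/
theorem ideal_pt {K : Type} [Field K] {f : K[X]} (h2 : (2 : K) ≠ 0) (hodd : Odd f.natDegree)
    (hsq : Squarefree f) {x y : K} {C₀ S : CommRing.Pic (AdjoinRoot (X ^ 2 - C f : K[X][X]))}
    (hC : Nonempty (Ideal.span {AdjoinRoot.of (X ^ 2 - C f : K[X][X]) (X - C x),
      AdjoinRoot.root (X ^ 2 - C f : K[X][X]) - AdjoinRoot.of (X ^ 2 - C f : K[X][X]) (C y)}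
        ≃ₗ[AdjoinRoot (X ^ 2 - C f : K[X][X])] C₀)) {N : ℕ} (hS : S ^ N = C₀) :
    ∃ I : Ideal (Q f), I ≠ ⊥ ∧ ∃ φ, I ^ N * Mu f (X - C x) (C y) = Ideal.span {φ} := by
  haveI : IsDedekindDomain (AdjoinRoot (X ^ 2 - C f : K[X][X])) :=
    Pool.Agent.TH943.HJ.dedekind h2 hodd hsq
  set m : Ideal (AdjoinRoot (X ^ 2 - C f : K[X][X])) :=
    Ideal.span {AdjoinRoot.of (X ^ 2 - C f : K[X][X]) (X - C x),
      AdjoinRoot.root (X ^ 2 - C f : K[X][X]) - AdjoinRoot.of (X ^ 2 - C f : K[X][X]) (C y)} with hm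
  have hmap : m.map (iso f) = Mu f (X - C x) (C y) := by
    rw [hm, Ideal.map_span, Set.image_pair,
      map_sub (iso f) (AdjoinRoot.root (X ^ 2 - C f : K[X][X])), iso_of, iso_root, iso_of]
    rfl
  have hm0 : m ≠ ⊥ := by
    intro h0
    apply Mu_ne (f := f) x y
    rw [← hmap, h0, Ideal.map_bot]
  obtain ⟨I, hI, φ, hφ⟩ := ideal_of_class m hm0 hC hS
  refine ⟨I.map (iso f), ?_, iso f φ, ?_⟩
  · intro h0
    rw [Ideal.map_eq_bot_iff_of_injective (iso f).injective] at h0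
    exact hI h0
  · have h1 := congrArg (Ideal.map (iso f)) hφ
    rw [Ideal.map_mul, Ideal.map_pow, hmap, Ideal.map_span, Set.image_singleton] at h1
    exact h1

end Pool.Agent.H14P.Desc
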