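import Pool.Agent.H14P.Quad

/-!
# Reduction modulo a uniformizer

By helper14. `O` is a discrete valuation ring with uniformizer `π`, quotient field `K` and residue field
`k`; we use only the properties in the structure `DV`.
-/

set_option autoImplicit false
set_option linter.all false

open Polynomial

noncomputable section

namespace Pool.Agent.H14P

variable {O K k : Type} [CommRing O] [IsDomain O] [Field K] [Field k] [Algebra O K]

/-- The properties of a discrete valuation ring. -/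
structure DV (K : Type) [Field K] [Algebra O K] (π : O) (ρ : O →+* k) : Prop where
  surj : Function.Surjective ρ
  ker : ∀ a, ρ a = 0 ↔ π ∣ a
  inj : Function.Injective (algebraMap O K)
  fac : ∀ a : O, a ≠ 0 → ∃ (n : ℕ) (b : O), a = π ^ n * b ∧ ρ b ≠ 0
  frac : ∀ x : K, ∃ (n : ℕ) (a : O), algebraMap O K (π ^ n) * x = algebraMap O K a
  ne : π ≠ 0

namespace DV

variable {π : O} {ρ : O →+* k} (h : DV K π ρ)

include h

theorem rho_pi : ρ π = 0 := (h.ker π).2 dvd_rfl

theorem prime : Prime π := by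
  refine ⟨h.ne, ?_, ?_⟩
  · intro hu
    have h1 : ρ 1 = 0 := (h.ker 1).2 hu.dvd
    rw [map_one] at h1
    exact one_ne_zero h1
  · intro a b hab
    have h1 := (h.ker _).2 hab
    rw [map_mul] at h1
    rcases mul_eq_zero.1 h1 with h2 | h2
    · exact Or.inl ((h.ker a).1 h2)
    · exact Or.inr ((h.ker b).1 h2)

/-! ### Polynomials -/

theorem pdvd {p : O[X]} : p.map ρ = 0 ↔ C π ∣ p := by
  rw [C_dvd_iff_dvd_coeff]
  constructor
  · intro h1 i
    rw [← h.ker]
    have := congrArg (fun q => q.coeff i) h1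
    simpa using this
  · intro h1
    ext i
    rw [coeff_map, coeff_zero, h.ker]
    exact h1 i

theorem pfac {p : O[X]} (hp : p ≠ 0) : ∃ (n : ℕ) (q : O[X]), p = C (π ^ n) * q ∧ q.map ρ ≠ 0 := by
  classical
  -- a coefficient which is not zero bounds the exponent
  obtain ⟨i, hi⟩ : ∃ i, p.coeff i ≠ 0 := by
    by_contra hc
    push Not at hc
    exact hp (Polynomial.ext (by simpa using hc))
  obtain ⟨N, b, hb, hb1⟩ := h.fac _ hi
  have hex : ∃ n, ¬ C (π ^ (n + 1)) ∣ p := by
    refine ⟨N, fun hd => ?_⟩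
    rw [C_dvd_iff_dvd_coeff] at hd
    obtain ⟨c, hc⟩ := hd i
    rw [hb, pow_succ, mul_assoc] at hc
    have h2 := mul_left_cancel₀ (pow_ne_zero N h.ne) hc
    exact hb1 ((h.ker b).2 ⟨c, h2⟩)
  set n := Nat.find hex with hn
  have h1 := Nat.find_spec hex
  rw [← hn] at h1
  have h2 : C (π ^ n) ∣ p := by
    rcases Nat.eq_zero_or_pos n with h0 | h0
    · rw [h0, pow_zero, C_1]
      exact one_dvd _
    · have h3 := Nat.find_min hex (m := n - 1) (by omega)
      rw [not_not, Nat.sub_add_cancel h0] at h3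
      exact h3
  obtain ⟨q, hq⟩ := h2
  refine ⟨n, q, hq, fun h0 => h1 ?_⟩
  obtain ⟨r, hr⟩ := h.pdvd.1 h0
  refine ⟨r, ?_⟩
  rw [hq, hr, pow_succ, C_mul]
  ring

theorem pfrac (p : K[X]) : ∃ (n : ℕ) (q : O[X]),
    C (algebraMap O K (π ^ n)) * p = q.map (algebraMap O K) := by
  induction p using Polynomial.induction_on' with
  | add p q hp hq =>
    obtain ⟨n, a, ha⟩ := hp
    obtain ⟨m, b, hb⟩ := hq
    refine ⟨n + m, C (π ^ m) * a + C (π ^ n) * b, ?_⟩
    rw [Polynomial.map_add, Polynomial.map_mul, Polynomial.map_mul, ← ha, ← hb, map_C, map_C,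
      pow_add, map_mul, C_mul]
    ring
  | monomial i x =>
    obtain ⟨n, a, ha⟩ := h.frac x
    refine ⟨n, monomial i a, ?_⟩
    rw [C_mul_monomial, ha, map_monomial]

/-! ### The ring `Q f` -/

section Q

variable {f : O[X]}

theorem qdvd {z : Q f} : mp ρ f z = 0 ↔ ∃ w : Q f, z = cc f (C π) * w := by
  constructor
  · intro h1
    have h2 : C π ∣ z.re := h.pdvd.1 (congrArg QuadraticAlgebra.re h1)
    have h3 : C π ∣ z.im := h.pdvd.1 (congrArg QuadraticAlgebra.im h1)
    exact (cc_dvd (C π) z).2 ⟨h2, h3⟩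
  · rintro ⟨w, rfl⟩
    rw [map_mul, mp_cc, map_C, h.rho_pi, C_0, cc_zero, zero_mul]

theorem qsub {z w : Q f} (hzw : mp ρ f z = mp ρ f w) : ∃ t : Q f, z = w + cc f (C π) * t := by
  have h1 : mp ρ f (z - w) = 0 := by rw [map_sub, hzw, sub_self]
  obtain ⟨t, ht⟩ := h.qdvd.1 h1
  exact ⟨t, by rw [← ht]; ring⟩

theorem cpi_ne : cc f (C π) ≠ 0 := by
  intro h1
  have h2 := congrArg QuadraticAlgebra.re h1
  have h3 : (C π : O[X]) = 0 := h2
  exact h.ne (C_eq_zero.1 h3)

/-- `cc (C π ^ n)` is not a zero divisor -/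
theorem cpi_cancel {z w : Q f} (n : ℕ) (hzw : cc f (C (π ^ n)) * z = cc f (C (π ^ n)) * w) :
    z = w := by
  rw [cc_mul, cc_mul] at hzw
  have h1 := congrArg QuadraticAlgebra.re hzw
  have h2 := congrArg QuadraticAlgebra.im hzw
  have h0 : (C (π ^ n) : O[X]) ≠ 0 := by
    rw [Ne, C_eq_zero]
    exact pow_ne_zero n h.ne
  exact QuadraticAlgebra.ext (mul_left_cancel₀ h0 h1) (mul_left_cancel₀ h0 h2)

theorem cpi_cancel1 {z w : Q f} (hzw : cc f (C π) * z = cc f (C π) * w) :
    z = w := by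
  refine h.cpi_cancel (n := 1) ?_
  rw [pow_one]
  exact hzw

theorem qfac {z : Q f} (hz : z ≠ 0) :
    ∃ (n : ℕ) (w : Q f), z = cc f (C (π ^ n)) * w ∧ mp ρ f w ≠ 0 := by
  classical
  by_cases h1 : z.re = 0
  · have h2 : z.im ≠ 0 := fun h2 => hz (QuadraticAlgebra.ext h1 h2)
    obtain ⟨n, q, hq, hq1⟩ := h.pfac h2
    refine ⟨n, ⟨0, q⟩, ?_, ?_⟩
    · rw [cc_mul]
      exact QuadraticAlgebra.ext (by simp [h1]) hq
    · intro h3
      exact hq1 (congrArg QuadraticAlgebra.im h3)
  · obtain ⟨n, q, hq, hq1⟩ := h.pfac h1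
    by_cases h2 : z.im = 0
    · refine ⟨n, ⟨q, 0⟩, ?_, ?_⟩
      · rw [cc_mul]
        exact QuadraticAlgebra.ext hq (by simp [h2])
      · intro h3
        exact hq1 (congrArg QuadraticAlgebra.re h3)
    · obtain ⟨m, r, hr, hr1⟩ := h.pfac h2
      rcases le_total n m with hnm | hnm
      · refine ⟨n, ⟨q, C (π ^ (m - n)) * r⟩, ?_, ?_⟩
        · rw [cc_mul]
          refine QuadraticAlgebra.ext hq ?_
          show z.im = C (π ^ n) * (C (π ^ (m - n)) * r)
          rw [← mul_assoc, ← C_mul, ← pow_add, Nat.add_sub_cancel' hnm]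
          exact hr
        · intro h3
          exact hq1 (congrArg QuadraticAlgebra.re h3)
      · refine ⟨m, ⟨C (π ^ (n - m)) * q, r⟩, ?_, ?_⟩
        · rw [cc_mul]
          refine QuadraticAlgebra.ext ?_ hr
          show z.re = C (π ^ m) * (C (π ^ (n - m)) * q)
          rw [← mul_assoc, ← C_mul, ← pow_add, Nat.add_sub_cancel' hnm]
          exact hq
        · intro h3
          exact hr1 (congrArg QuadraticAlgebra.im h3)

/-- the embedding in the generic fibre -/
theorem j_inj : Function.Injective (mp (algebraMap O K) f) := mp_inj h.inj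

theorem qfrac (z : Q (f.map (algebraMap O K))) : ∃ (n : ℕ) (w : Q f),
    cc (f.map (algebraMap O K)) (C (algebraMap O K (π ^ n))) * z = mp (algebraMap O K) f w := by
  obtain ⟨n, a, ha⟩ := h.pfrac z.re
  obtain ⟨m, b, hb⟩ := h.pfrac z.im
  refine ⟨n + m, ⟨C (π ^ m) * a, C (π ^ n) * b⟩, ?_⟩
  rw [cc_mul]
  refine QuadraticAlgebra.ext ?_ ?_
  · show _ = (C (π ^ m) * a).map (algebraMap O K)
    rw [Polynomial.map_mul, ← ha, map_C, pow_add, map_mul, C_mul]
    ring
  · show _ = (C (π ^ n) * b).map (algebraMap O K)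
    rw [Polynomial.map_mul, ← hb, map_C, pow_add, map_mul, C_mul]
    ring

/-- Gauss's lemma. -/
theorem gauss [IsDomain (Q (f.map ρ))] {z δ : Q f} (hδ : mp ρ f δ ≠ 0)
    {w : Q (f.map (algebraMap O K))}
    (hzw : mp (algebraMap O K) f z = mp (algebraMap O K) f δ * w) :
    ∃ w' : Q f, mp (algebraMap O K) f w' = w ∧ z = δ * w' := by
  by_cases hw : w = 0
  · refine ⟨0, by rw [map_zero, hw], ?_⟩
    apply h.j_inj
    rw [hzw, hw, mul_zero, mul_zero, map_zero]
  obtain ⟨n, a, ha⟩ := h.qfrac w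
  have hcne : ∀ n : ℕ, (algebraMap O K (π ^ n)) ≠ 0 := fun n h0 =>
    pow_ne_zero n h.ne (h.inj (by rw [h0, map_zero]))
  have ha0 : a ≠ 0 := by
    rintro rfl
    rw [map_zero, cc_mul] at ha
    have h1 := congrArg QuadraticAlgebra.re ha
    have h2 := congrArg QuadraticAlgebra.im ha
    have h0 : (C (algebraMap O K (π ^ n)) : K[X]) ≠ 0 := by
      rw [Ne, C_eq_zero]
      exact hcne n
    exact hw (QuadraticAlgebra.ext ((mul_eq_zero.1 h1).resolve_left h0)
      ((mul_eq_zero.1 h2).resolve_left h0))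
  obtain ⟨m, b, hb, hb1⟩ := h.qfac ha0
  have h3 : cc f (C (π ^ n)) * z = cc f (C (π ^ m)) * (δ * b) := by
    apply h.j_inj
    rw [map_mul, map_mul, map_mul, hzw, mp_cc, map_C]
    calc cc _ (C (algebraMap O K (π ^ n))) * (mp (algebraMap O K) f δ * w)
        = mp (algebraMap O K) f δ * (cc _ (C (algebraMap O K (π ^ n))) * w) := by ring
      _ = mp (algebraMap O K) f δ * mp (algebraMap O K) f a := by rw [ha]
      _ = _ := by rw [hb, map_mul]; ring
  have hnm : n ≤ m := by
    by_contra hlt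
    push Not at hlt
    have h4 : cc f (C (π ^ (n - m))) * z = δ * b := by
      apply h.cpi_cancel m
      rw [← h3, ← mul_assoc, ← map_mul, ← C_mul, ← pow_add, Nat.add_sub_cancel' hlt.le]
    have h5 := congrArg (mp ρ f) h4
    rw [map_mul, map_mul, mp_cc, map_C, map_pow, h.rho_pi, zero_pow (by omega), C_0, cc_zero,
      zero_mul] at h5
    rcases mul_eq_zero.1 h5.symm with h6 | h6
    · exact hδ h6
    · exact hb1 h6
  refine ⟨cc f (C (π ^ (m - n))) * b, ?_, ?_⟩
  · have h4 : cc (f.map (algebraMap O K)) (C (algebraMap O K (π ^ n))) *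
        mp (algebraMap O K) f (cc f (C (π ^ (m - n))) * b) =
        cc (f.map (algebraMap O K)) (C (algebraMap O K (π ^ n))) * w := by
      rw [ha, hb, map_mul, map_mul, mp_cc, mp_cc, map_C, map_C, ← mul_assoc, ← map_mul, ← C_mul,
        ← map_mul, ← pow_add, Nat.add_sub_cancel' hnm]
    have h0 : (C (algebraMap O K (π ^ n)) : K[X]) ≠ 0 := by
      rw [Ne, C_eq_zero]
      exact hcne n
    exact cc_cancel h0 h4
  · apply h.cpi_cancel n
    rw [h3]
    calc cc f (C (π ^ m)) * (δ * b) = cc f (C (π ^ n)) * cc f (C (π ^ (m - n))) * (δ * b) := by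
          rw [← map_mul, ← C_mul, ← pow_add, Nat.add_sub_cancel' hnm]
      _ = _ := by ring

end Q

end DV

end Pool.Agent.H14P
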