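import Pool.Agent.H14P.LamH2

/-!
# The main theorem for all genera, with infinitely many fields

By helper14.
-/

set_option autoImplicit false
set_option linter.all false

open Polynomial IsDedekindDomain NumberField WithZero
open scoped Classical Pointwise

noncomputable section

namespace Pool.Agent.H14P

open Pool.Agent.N783.PF Pool.Agent.H14F
open Pool.Agent.N874.Jac (UniquelyTwoDivisible ShaTwoTrivialReal)
open Pool.Agent.N352.PF (rv)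
open Pool.Agent.N170.PF (LBad.mono)

/-- The properties of the curve. -/
structure GoodL (F M₀ : Type) [Field F] [NumberField F] [Field M₀] [NumberField M₀] [Algebra F M₀]
    (g : ℕ) (f : (𝓞 F)[X]) : Prop where
  good : GoodH F M₀ g f
  inf : (LamH F g f).Infinite

/-- The conditions on `W` and `f₁`. -/
structure EL (F M : Type) [Field F] [NumberField F] [Field M] [NumberField M] [Algebra F M] (W : ℕ)
    (f₁ : (𝓞 F)[X]) : Prop where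
  four : 4 ∣ W
  irr : ∀ v : HeightOneSpectrum (𝓞 F), (W : 𝓞 F) ∈ v.asIdeal → Irreducible (rv v f₁)
  unr : ∀ w : HeightOneSpectrum (𝓞 M), ¬ Unr F w → (W : 𝓞 M) ∈ w.asIdeal
  reg : ∀ v : HeightOneSpectrum (𝓞 F), (2 : 𝓞 F) ∈ v.asIdeal → RegAt v f₁
  spl : ∃ p, p ∣ W ∧ SplP F p

theorem twL (F M : Type) [Field F] [NumberField F] [Field M] [NumberField M] [Algebra F M]
    [IsGalois F M] (g : ℕ) (hg : 1 ≤ g) {n : ℕ} (hn : Module.finrank F M = 2 ^ n)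
    (h2 : ∀ w : HeightOneSpectrum (𝓞 M), (2 : 𝓞 M) ∈ w.asIdeal → Tot F w)
    (hr : ∀ σ : F →+* ℝ, ∃ ρ : M →+* ℝ, ρ.comp (algebraMap F M) = σ) :
    ∃ κ : ℕ, ∀ (B N W : ℕ) (f₁ : (𝓞 F)[X]) (S : Finset ℕ) (𝔮 : ℕ → Ideal (𝓞 F))
      (r P : ℕ → (𝓞 F)[X]) (f : (𝓞 F)[X]), κ ≤ W → GoodF g W f₁ → EL F M W f₁ →
      GoodS g W S 𝔮 r P →
      PS F M S → Fam g B W f₁ S P f → 2 ^ κ * B ≤ 4 ^ N → 1 ≤ B → ¬ LBad g N κ S 𝔮 P f →
      ∃ J ⊆ S, Irreducible (fF (f.scaleRoots ((Dp J : ℕ) : 𝓞 F))) ∧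
        GoodL F M g (f.scaleRoots ((Dp J : ℕ) : 𝓞 F)) ∧
        Min g (f.scaleRoots ((Dp J : ℕ) : 𝓞 F)) := by
  obtain ⟨κ₁, hκ₁⟩ := core g F hg
  obtain ⟨κ₂, hκ₂⟩ := sqf g F hg
  refine ⟨max κ₁ κ₂, fun B N W f₁ S 𝔮 r P f hW hf₁ hE hS hΦ hF hBN hB hnb => ?_⟩
  have hBN1 : 2 ^ κ₁ * B ≤ 4 ^ N :=
    (Nat.mul_le_mul_right _ (Nat.pow_le_pow_right (by norm_num) (le_max_left _ _))).trans hBN
  have hBN2 : 2 ^ κ₂ * B ≤ 4 ^ N :=
    (Nat.mul_le_mul_right _ (Nat.pow_le_pow_right (by norm_num) (le_max_right _ _))).trans hBN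
  have hnb1 : ¬ LBad g N κ₁ S 𝔮 P f := fun h => hnb (LBad.mono (le_max_left _ _) h)
  have hnb2 : ¬ LBad g N κ₂ S 𝔮 P f := fun h => hnb (LBad.mono (le_max_right _ _) h)
  have hm := hF.ht.mon
  have hd := hF.ht.deg
  have ht := hF.ht.tr
  have hirr : Irreducible (fF f) := Pool.Agent.N667.PF.irr F g W f₁ f hf₁ hF.one hm hd
  have hsq : SqF g f := hκ₂ B N W f₁ S 𝔮 r P f ((le_max_right _ _).trans hW) hf₁ hS hF hirr hBN2
    hB hnb2
  obtain ⟨L, _, _, _, θ, hc⟩ := Pool.Agent.N667.PF.gen F g f hm hd hirr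
  obtain ⟨J, hJ, hcore⟩ := hκ₁ L f f₁ θ B N W S 𝔮 r P ((le_max_left _ _).trans hW) hc hsq hf₁ hS
    hF hBN1 hB hnb1
  have D : Dat g W f f₁ θ S J 𝔮 r P := ⟨hg, hc, hsq, hf₁, hS, hF.one, hF.con, hJ⟩
  have hi : Irreducible (fF (f.scaleRoots ((Dp J : ℕ) : 𝓞 F))) := by
    rw [Pool.Agent.N170.PF.fF_scale hm]
    exact Pool.Agent.N170.PF.irr_scale (Nat.cast_ne_zero.2 D.dp_ne) hirr
  have hmD : (f.scaleRoots ((Dp J : ℕ) : 𝓞 F)).Monic := (monic_scaleRoots_iff _).2 hm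
  have hdD : (f.scaleRoots ((Dp J : ℕ) : 𝓞 F)).natDegree = 2 * g + 1 := by
    rw [natDegree_scaleRoots, hd]
  refine ⟨J, hJ, hi, ⟨⟨adm_baseH hn h2 hr D ht hΦ hE.unr hE.irr, ?_⟩, lamH_infinite D ht hE.irr hE.spl⟩,
    Pool.Agent.N547.PF.min g W F S J 𝔮 r P f hg hS hsq hm hd hF.con hJ⟩
  intro M' _ _ _ hadm
  obtain ⟨h5, h6⟩ := selH D hcore M' hadm
  exact allH_of hg hmD hdD hi (fun v hv => reg_scale D hE.four hv (hE.reg v hv)) hadm h5 h6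

/-- **The main theorem.** -/
theorem finalL (F M : Type) [Field F] [NumberField F] [Field M] [NumberField M] [Algebra F M]
    [IsGalois F M] (g : ℕ) (hg : 1 ≤ g) {n : ℕ} (hn : Module.finrank F M = 2 ^ n)
    (h2 : ∀ w : HeightOneSpectrum (𝓞 M), (2 : 𝓞 M) ∈ w.asIdeal → Tot F w)
    (hr : ∀ σ : F →+* ℝ, ∃ ρ : M →+* ℝ, ρ.comp (algebraMap F M) = σ) :
    ∃ c : ℝ, 0 < c ∧ ∃ B₀ : ℕ, ∀ B ≥ B₀,
      {f : (𝓞 F)[X] | Ht g B f}.Finite ∧ c * ({f : (𝓞 F)[X] | Ht g B f}.ncard : ℝ) ≤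
      ({f : (𝓞 F)[X] | Ht g B f ∧ Irreducible (fF f) ∧ GoodL F M g f ∧ Min g f}.ncard : ℝ) := by
  refine mainW Pool.Agent.N490.PF.pts bad F g hg (EL F M) (PS F M)
    (GoodL F M g) ?_ ?_ (twL F M g hg hn h2 hr)
  · intro K
    obtain ⟨K₀, hK₀⟩ := famT F g hg
    obtain ⟨R, hR0, hR⟩ := exists_R F M
    obtain ⟨p, hp1, hp⟩ := exists_splP F 1
    have hW0 : 0 < (K + K₀ + 4).factorial * (p * R) :=
      Nat.mul_pos (Nat.factorial_pos _) (Nat.mul_pos (by omega) hR0)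
    have hfW : (K + K₀ + 4).factorial ∣ (K + K₀ + 4).factorial * (p * R) := dvd_mul_right _ _
    have hKW : K ≤ (K + K₀ + 4).factorial * (p * R) := by
      have h1 : K + K₀ + 4 ≤ (K + K₀ + 4).factorial := Nat.self_le_factorial _
      have h2 := Nat.le_of_dvd hW0 hfW
      omega
    have h4W : 4 ∣ (K + K₀ + 4).factorial * (p * R) :=
      ((Nat.dvd_factorial (by norm_num) (by omega))).trans hfW
    have h2W : 2 ∣ (K + K₀ + 4).factorial * (p * R) := (by norm_num : 2 ∣ 4).trans h4W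
    obtain ⟨f₁, g1, g2, g3, g4, g5⟩ := exists_f1 F hg hW0 h2W
    have hgood := goodF_of hg hW0 h2W g1 g2 g3 g4
    refine ⟨(K + K₀ + 4).factorial * (p * R), f₁, hKW, hgood, ⟨h4W, g4, ?_, g5, p, ?_, hp⟩, ?_⟩
    · intro w hw
      rw [Nat.cast_mul, Nat.cast_mul]
      exact Ideal.mul_mem_left _ _ (Ideal.mul_mem_left _ _ (hR w hw))
    · exact Dvd.dvd.mul_left (dvd_mul_right _ _) _
    · refine hK₀ _ f₁ hgood fun q hq hqK => ?_
      exact (Nat.dvd_factorial hq.pos (by omega)).trans hfW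
  · intro W m
    exact exsM F M g W hg m

end Pool.Agent.H14P
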