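import Mathlib

/-!
# Irreducible polynomials with trace zero over finite fields

By helper14.
-/

set_option autoImplicit false
set_option linter.all false

open Polynomial IntermediateField

namespace Pool.Agent.H14P

theorem irr_tr_aux (F L : Type) [Field F] [Finite F] [Field L] [Algebra F L] (n : ℕ) (hn : 3 ≤ n)
    (hfin : Module.finrank F L = n) :
    ∃ r : F[X], r.Monic ∧ Irreducible r ∧ r.natDegree = n ∧ r.coeff (n - 1) = 0 := by
  classical
  haveI : FiniteDimensional F L := FiniteDimensional.of_finrank_pos (by rw [hfin]; omega)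
  haveI : Finite L := Module.finite_of_finite F
  haveI : Fintype F := Fintype.ofFinite F
  haveI : Fintype L := Fintype.ofFinite L
  set q := Fintype.card F with hq
  have hq2 : 2 ≤ q := Fintype.one_lt_card
  -- the kernel of the trace
  have hker : Nat.card (LinearMap.ker (Algebra.trace F L)) = q ^ (n - 1) := by
    have h1 := LinearMap.finrank_range_add_finrank_ker (Algebra.trace F L)
    have h2 : LinearMap.range (Algebra.trace F L) = ⊤ :=
      LinearMap.range_eq_top.2 (Algebra.trace_surjective F L)
    rw [h2, finrank_top, Module.finrank_self, hfin] at h1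
    have h3 : Module.finrank F (LinearMap.ker (Algebra.trace F L)) = n - 1 := by omega
    rw [Nat.card_eq_fintype_card, Module.card_eq_pow_finrank (K := F), h3]
  obtain ⟨α, hα, hα2⟩ : ∃ α ∈ LinearMap.ker (Algebra.trace F L), n / 2 < Module.finrank F F⟮α⟯ := by
    by_contra hc
    push Not at hc
    have hsub : ((LinearMap.ker (Algebra.trace F L) : Submodule F L) : Set L) ⊆
        ((Finset.Icc 1 (n / 2)).biUnion fun d =>
          ((X ^ (q ^ d) - X : L[X])).roots.toFinset : Finset L) := by
      intro α hα
      rw [Finset.mem_coe, Finset.mem_biUnion]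
      haveI : Fintype F⟮α⟯ := Fintype.ofFinite _
      refine ⟨Module.finrank F F⟮α⟯, Finset.mem_Icc.2 ⟨Module.finrank_pos, hc α hα⟩, ?_⟩
      rw [Multiset.mem_toFinset, mem_roots']
      refine ⟨FiniteField.X_pow_card_pow_sub_X_ne_zero L Module.finrank_pos.ne' Fintype.one_lt_card,
        ?_⟩
      have h1 := FiniteField.pow_card (AdjoinSimple.gen F α)
      rw [Module.card_eq_pow_finrank (K := F) (V := F⟮α⟯)] at h1
      have h2 := congrArg (algebraMap F⟮α⟯ L) h1
      rw [map_pow, AdjoinSimple.algebraMap_gen] at h2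
      rw [IsRoot.def, eval_sub, eval_pow, eval_X, h2, sub_self]
    have h1 : Nat.card (LinearMap.ker (Algebra.trace F L)) ≤
        ((Finset.Icc 1 (n / 2)).biUnion fun d =>
          ((X ^ (q ^ d) - X : L[X])).roots.toFinset : Finset L).card := by
      have h2 := Set.ncard_le_ncard hsub (Finset.finite_toSet _)
      rw [Set.ncard_coe_finset] at h2
      exact h2
    have h2 : ((Finset.Icc 1 (n / 2)).biUnion fun d =>
          ((X ^ (q ^ d) - X : L[X])).roots.toFinset : Finset L).card ≤
        ∑ d ∈ Finset.Icc 1 (n / 2), q ^ d := by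
      refine Finset.card_biUnion_le.trans (Finset.sum_le_sum fun d hd => ?_)
      rw [Finset.mem_Icc] at hd
      refine (Multiset.toFinset_card_le _).trans ((card_roots' _).trans ?_)
      rw [FiniteField.X_pow_card_pow_sub_X_natDegree_eq L (by omega) Fintype.one_lt_card]
    have h3 : ∑ d ∈ Finset.Icc 1 (n / 2), q ^ d < q ^ (n - 1) := by
      refine Nat.geomSum_lt hq2 fun k hk => ?_
      rw [Finset.mem_Icc] at hk
      omega
    omega
  have hint : IsIntegral F α := Algebra.IsIntegral.isIntegral α
  have hd : Module.finrank F F⟮α⟯ = n := by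
    have h1 : Module.finrank F F⟮α⟯ ∣ n :=
      Dvd.intro _ ((Module.finrank_mul_finrank F F⟮α⟯ L).trans hfin)
    obtain ⟨c, hc⟩ := h1
    rcases Nat.lt_or_ge c 2 with h2 | h2
    · interval_cases c
      · omega
      · omega
    · exfalso
      have : Module.finrank F F⟮α⟯ * 2 ≤ n := by
        calc Module.finrank F F⟮α⟯ * 2 ≤ Module.finrank F F⟮α⟯ * c := Nat.mul_le_mul_left _ h2
          _ = n := hc.symm
      omega
  have hdeg : (minpoly F α).natDegree = n := by
    rw [← IntermediateField.adjoin.finrank hint, hd]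
  refine ⟨minpoly F α, minpoly.monic hint, minpoly.irreducible hint, hdeg, ?_⟩
  have htr : Algebra.trace F L α = 0 := hα
  rw [trace_eq_trace_adjoin] at htr
  have h1 : Module.finrank F⟮α⟯ L = 1 := by
    have h2 := Module.finrank_mul_finrank F F⟮α⟯ L
    rw [hd, hfin] at h2
    exact Nat.eq_of_mul_eq_mul_left (show 0 < n by omega) (by rw [h2, mul_one])
  rw [h1, one_smul] at htr
  have h3 := PowerBasis.trace_gen_eq_nextCoeff_minpoly (adjoin.powerBasis hint)
  rw [adjoin.powerBasis_gen, htr, minpoly_gen] at h3
  rw [nextCoeff_of_natDegree_pos (by rw [hdeg]; omega), hdeg] at h3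
  exact neg_eq_zero.1 h3.symm

/-- Irreducible polynomials of degree `n ≥ 3` with trace zero, in every characteristic. -/
theorem exists_irr_tr (F : Type) [Field F] [Finite F] (n : ℕ) (hn : 3 ≤ n) :
    ∃ r : F[X], r.Monic ∧ Irreducible r ∧ r.natDegree = n ∧ r.coeff (n - 1) = 0 := by
  haveI : NeZero n := ⟨by omega⟩
  obtain ⟨p, hp⟩ := CharP.exists F
  have hpp : p.Prime := (CharP.char_is_prime_or_zero F p).resolve_right (by
    rintro rfl
    exact (CharP.char_ne_zero_of_finite F 0) rfl)
  haveI : Fact p.Prime := ⟨hpp⟩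
  exact irr_tr_aux F (FiniteField.Extension F p n) n hn (FiniteField.finrank_extension _ _ _)

end Pool.Agent.H14P
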