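import Pool.Agent.H14P.Cpl
import Pool.Agent.H14P.Irr
import Pool.Agent.H14F.FamW

/-!
# The polynomial `f₁`

By helper14.
-/

set_option autoImplicit false
set_option linter.all false

open Polynomial IsDedekindDomain NumberField WithZero
open scoped Classical

noncomputable section

namespace Pool.Agent.H14P

open Pool.Agent.N352.PJ (pol)
open Pool.Agent.N352.PF (rv)
open Pool.Agent.N951.PF

theorem lift_pol {O k : Type} [CommRing O] [Nontrivial O] [Field k] {ρ : O →+* k}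
    (hs : Function.Surjective ρ) {g : ℕ} {p : k[X]} (hm : p.Monic) (hd : p.natDegree = 2 * g + 1)
    (ht : p.coeff (2 * g) = 0) : ∃ P : O[X], P.Monic ∧ P.natDegree = 2 * g + 1 ∧
      P.coeff (2 * g) = 0 ∧ P.map ρ = p := by
  choose a ha using fun j : Fin (2 * g) => hs (p.coeff j)
  refine ⟨pol a, pol_monic a, pol_natDegree a, pol_coeff_tr a, ?_⟩
  ext n
  rw [coeff_map, pol_coeff]
  split_ifs with h1 h2
  · rw [map_one, h1, ← hd, hm.coeff_natDegree]
  · exact ha ⟨n, h2⟩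
  · rw [map_zero]
    rcases Nat.lt_or_ge n (2 * g + 1) with h3 | h3
    · have h4 : n = 2 * g := by omega
      rw [h4, ht]
    · rw [coeff_eq_zero_of_natDegree_lt]
      omega

variable {F : Type} [Field F] [NumberField F]

theorem exists_loc (v : HeightOneSpectrum (𝓞 F)) {g : ℕ} (hg : 1 ≤ g) :
    ∃ P : (v.adicCompletionIntegers F)[X], P.Monic ∧ P.natDegree = 2 * g + 1 ∧
      P.coeff (2 * g) = 0 ∧ Irreducible (P.map (IsLocalRing.residue _)) ∧
      ((2 : 𝓞 F) ∈ v.asIdeal → ∃ π : v.adicCompletionIntegers F,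
        Valued.v (π : v.adicCompletion F) = exp (-1 : ℤ) ∧ Reg π (IsLocalRing.residue _) P) := by
  obtain ⟨ϖ, hϖ⟩ := exists_unif v
  haveI : Finite (𝓞 F ⧸ v.asIdeal) := Ideal.finiteQuotientOfFreeOfNeBot v.asIdeal v.ne_bot
  haveI : Finite (IsLocalRing.ResidueField (v.adicCompletionIntegers F)) :=
    Finite.of_equiv _ (resE hϖ).toEquiv
  obtain ⟨p, h1, h2, h3, h4⟩ := exists_irr_tr
    (IsLocalRing.ResidueField (v.adicCompletionIntegers F)) (2 * g + 1) (by omega)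
  have h4' : p.coeff (2 * g) = 0 := by simpa using h4
  by_cases hv : (2 : 𝓞 F) ∈ v.asIdeal
  · have h2' : (2 : IsLocalRing.ResidueField (v.adicCompletionIntegers F)) = 0 := by
      have := (res_mem hϖ 2).2 hv
      rwa [map_ofNat, map_ofNat] at this
    have hF : Function.Surjective
        (fun x : IsLocalRing.ResidueField (v.adicCompletionIntegers F) => x ^ 2) := by
      apply Finite.injective_iff_surjective.1
      intro x y hxy
      have e : (x - y) ^ 2 = 0 := by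
        have hxy' : x ^ 2 = y ^ 2 := hxy
        linear_combination hxy' + (y ^ 2 - x * y) * h2'
      exact sub_eq_zero.1 ((pow_eq_zero_iff two_ne_zero).1 e)
    obtain ⟨P, q1, q2, q3, q4, q5⟩ := exists_reg (dv_unif hϖ) (two_unif hϖ hv) hF hg p h1 h3 h4'
    exact ⟨P, q1, q2, q3, by rw [q4]; exact h2, fun _ => ⟨_, hϖ, q5⟩⟩
  · obtain ⟨P, q1, q2, q3, q4⟩ := lift_pol (dv_unif hϖ).surj h1 h3 h4'
    exact ⟨P, q1, q2, q3, by rw [q4]; exact h2, fun h => absurd h hv⟩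

/-- The polynomial `f₁`. -/
theorem exists_f1 (F : Type) [Field F] [NumberField F] {g : ℕ} (hg : 1 ≤ g) {W : ℕ} (hW0 : 0 < W)
    (h2W : 2 ∣ W) :
    ∃ f₁ : (𝓞 F)[X], f₁.Monic ∧ f₁.natDegree = 2 * g + 1 ∧ f₁.coeff (2 * g) = 0 ∧
      (∀ v : HeightOneSpectrum (𝓞 F), (W : 𝓞 F) ∈ v.asIdeal → Irreducible (rv v f₁)) ∧
      ∀ v : HeightOneSpectrum (𝓞 F), (2 : 𝓞 F) ∈ v.asIdeal → RegAt v f₁ := by
  choose P hP1 hP2 hP3 hP4 hP5 using fun v : HeightOneSpectrum (𝓞 F) => exists_loc v hg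
  have hWne : Ideal.span {(W : 𝓞 F)} ≠ 0 := by
    rw [Ne, Ideal.zero_eq_bot, Ideal.span_singleton_eq_bot]
    exact_mod_cast hW0.ne'
  have hfinS := Ideal.finite_factors hWne
  set T : Finset (HeightOneSpectrum (𝓞 F)) := hfinS.toFinset with hT
  have hmem : ∀ v : HeightOneSpectrum (𝓞 F), (W : 𝓞 F) ∈ v.asIdeal → v ∈ T := by
    intro v hv
    rw [hT, Set.Finite.mem_toFinset, Set.mem_setOf_eq, Ideal.dvd_span_singleton]
    exact hv
  choose x hx using fun (v : HeightOneSpectrum (𝓞 F)) (j : ℕ) => dens_O v ((P v).coeff j) 2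
  have hcrt : ∀ j : Fin (2 * g), ∃ a : 𝓞 F, ∀ v ∈ T, a - x v j ∈ v.asIdeal ^ 2 := by
    intro j
    exact IsDedekindDomain.exists_forall_sub_mem_ideal (s := T)
      (fun v => v.asIdeal) (fun _ => 2) (fun v _ => v.prime)
      (fun v _ w _ hvw h => hvw (HeightOneSpectrum.ext h)) (fun v => x v j)
  choose a ha using hcrt
  have key : ∀ v ∈ T, ∀ π : v.adicCompletionIntegers F,
      Valued.v (π : v.adicCompletion F) = exp (-1 : ℤ) →
      C (π ^ 2) ∣ P v - (pol a).map (algebraMap (𝓞 F) (v.adicCompletionIntegers F)) := by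
    intro v hv π hπ
    rw [C_dvd_iff_dvd_coeff]
    intro n
    rw [coeff_sub, coeff_map, pol_coeff]
    split_ifs with h1 h2
    · rw [map_one, h1, ← hP2 v, (hP1 v).coeff_natDegree, sub_self]
      exact dvd_zero _
    · have e : (P v).coeff n - algebraMap (𝓞 F) (v.adicCompletionIntegers F) (a ⟨n, h2⟩) =
          ((P v).coeff n - algebraMap (𝓞 F) (v.adicCompletionIntegers F) (x v n)) -
          algebraMap (𝓞 F) (v.adicCompletionIntegers F) (a ⟨n, h2⟩ - x v n) := by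
        rw [map_sub]; ring
      rw [e]
      exact dvd_sub ((dvd_iff hπ _ 2).2 (hx v n)) (sq_dvd_of_mem hπ (ha ⟨n, h2⟩ v hv))
    · rw [map_zero, sub_zero]
      rcases Nat.lt_or_ge n (2 * g + 1) with h3 | h3
      · have h4 : n = 2 * g := by omega
        rw [h4, hP3]
        exact dvd_zero _
      · rw [coeff_eq_zero_of_natDegree_lt (by rw [hP2]; omega)]
        exact dvd_zero _
  refine ⟨pol a, pol_monic a, pol_natDegree a, pol_coeff_tr a, ?_, ?_⟩
  · intro v hv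
    obtain ⟨ϖ, hϖ⟩ := exists_unif v
    have h1 := key v (hmem v hv) _ hϖ
    show Irreducible ((pol a).map (Ideal.Quotient.mk v.asIdeal))
    rw [irr_res hϖ]
    have h2 : (P v - (pol a).map (algebraMap (𝓞 F) (v.adicCompletionIntegers F))).map
        (IsLocalRing.residue _) = 0 := by
      rw [(dv_unif hϖ).pdvd]
      refine Dvd.dvd.trans ?_ h1
      exact (C_dvd_iff_dvd_coeff _ _).2 fun i => by
        rw [coeff_C]
        split_ifs
        · exact dvd_pow_self _ two_ne_zero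
        · exact dvd_zero _
    rw [Polynomial.map_sub, sub_eq_zero] at h2
    rw [← h2]
    exact hP4 v
  · intro v hv
    obtain ⟨π, hπ, hr⟩ := hP5 v hv
    have hWv : (W : 𝓞 F) ∈ v.asIdeal := by
      obtain ⟨m, hm⟩ := h2W
      rw [hm, Nat.cast_mul, Nat.cast_ofNat]
      exact Ideal.mul_mem_right _ _ hv
    exact ⟨π, hπ, reg_congr hr (key v (hmem v hWv) _ hπ)⟩

/-- `f₁` is good. -/
theorem goodF_of {F : Type} [Field F] [NumberField F] {g W : ℕ} (hg : 1 ≤ g) (hW0 : 0 < W)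
    (h2 : 2 ∣ W) {f₁ : (𝓞 F)[X]} (hm : f₁.Monic) (hd : f₁.natDegree = 2 * g + 1)
    (ht : f₁.coeff (2 * g) = 0)
    (hirr : ∀ v : HeightOneSpectrum (𝓞 F), (W : 𝓞 F) ∈ v.asIdeal → Irreducible (rv v f₁)) :
    Pool.Agent.N783.PF.GoodF g W f₁ := by
  have hne : ∀ (𝔭 : Ideal (𝓞 F)) (n : ℕ), 0 < n → (n : 𝓞 F) ∈ 𝔭 → 𝔭 ≠ ⊥ := by
    intro 𝔭 n hn hm h0
    rw [h0, Ideal.mem_bot] at hm
    have : n = 0 := by exact_mod_cast hm
    omega
  refine ⟨hm, hd, ht, hW0, h2, fun 𝔭 hp h => ?_, fun 𝔭 hp h => ?_⟩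
  · have hb : 𝔭 ≠ ⊥ := hne 𝔭 2 two_pos (by exact_mod_cast h)
    refine hirr ⟨𝔭, hp, hb⟩ ?_
    obtain ⟨m, hm⟩ := h2
    rw [hm, Nat.cast_mul, Nat.cast_ofNat]
    exact Ideal.mul_mem_right _ _ h
  · have hb : 𝔭 ≠ ⊥ := hne 𝔭 W hW0 h
    haveI : Finite (𝓞 F ⧸ 𝔭) := Ideal.finiteQuotientOfFreeOfNeBot 𝔭 hb
    exact sep_of_irr (hirr ⟨𝔭, hp, hb⟩ h)

end Pool.Agent.H14P
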