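import Pool.Agent.H14P.Fin2
import Pool.Agent.H14P.Bnd

/-!
# An effective theorem for all curves covering a positive proportion of the hyperelliptic curves, over
# infinitely many number fields at once

Let `F` be a number field and `g ≥ 1`. We consider all the curves `C : y² = f(x)` of genus `g` over `F`,
`f` monic of degree `2 g + 1`, ordered by height. A finite extension `M` of `F` is called admissible for
`C` if `M / F` is Galois of 2-power degree, the primes over `2` and the real places of `F` split
completely in `M`, the primes `𝔭` of `F` with `𝔭 ^ (2 g + 1 - j) ∣ a_j` for all coefficients `a_j` of `f`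
split completely in `M`, and `f` is irreducible modulo every prime of `F` which is ramified in `M`.

Theorem. Let `M₀ / F` be a Galois extension of 2-power degree in which the primes over `2` and the real
places split completely (for instance `M₀ = F`). A positive proportion of all curves `C` has the
following properties: `M₀` is admissible for `C`; for EVERY admissible `M` there is no point on
`y² = f(x)` with coordinates in `M`, and on every irreducible plane curve `G = 0` over a field `E`
between `F` and `M` which has a rational map `(P / R, Q / R ^ (g + 1))` to `C` all points with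
coordinates in `M` satisfy `R = 0`, and all the conjugates of their coordinates are less than an explicit
bound which depends only on `G` and `R`; there are infinitely many prime numbers `l` such that `M(√l)`
is admissible for every admissible `M`.

In particular the integral points over `M` (and even all rational points over `M`) of all these plane
curves are effectively bounded, with a bound which does not depend on `M`.

The proof. Project PF (helper783) gives, for a positive proportion of all `f`, a twist for which a strict
group of square classes in `F(θ)`, `f(θ) = 0`, is trivial, and this carries over to all admissible `M`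
(`H14F`); so the Jacobian `J` of `C` over `M` satisfies `2 J(M) = J(M)`. In addition `f` is required to be
close to a fixed polynomial `f₁` at the primes over `2`, which is chosen such that `f₁` is irreducible
modulo these primes and a certain 2-adic regularity holds. If `P` is a point of `C` over `M` and `w` is a
place of `M` over `2`, so that `M_w = F_v`, then the class of `P` is divisible by all powers of two in
the Picard group of `F_v[x, y] / (y² - f)`. As `f` is irreducible modulo `v` the ideals are in a normal
form of Mumford (`H14P/Mum.lean`), and an infinitely divisible class would give an isotropic subspace of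
too large dimension for a nonsingular quadratic form over the residue field, or a point of odd order,
which is impossible by the choice of `f₁` (`H14P/Loc.lean`, `Loc2.lean`, `Loc3.lean`).
-/

set_option autoImplicit false
set_option linter.all false

namespace Pool.Agent.Results.MP_821da1_nt.HyperellipticCovers

open Filter NumberField IsDedekindDomain Polynomial
open scoped Classical IntermediateField Pointwise Polynomial.Bivariate NNReal

section family

variable (F : Type) [Field F] [NumberField F] (g : ℕ)

/-- All curves `y² = f(x)` with `f` monic of degree `2 g + 1`, with integral coefficients `a_j`,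
`a_{2 g} = 0`, without multiple roots, and minimal: no nonzero prime ideal `𝔭` satisfies
`𝔭 ^ (2 (2 g + 1 - j)) ∣ a_j` for all `j`. -/
def Family : Set (𝓞 F)[X] :=
  {f | f.Monic ∧ f.natDegree = 2 * g + 1 ∧ f.coeff (2 * g) = 0 ∧
    (f.map (algebraMap (𝓞 F) F)).Separable ∧
    ∀ 𝔭 : Ideal (𝓞 F), 𝔭.IsPrime → 𝔭 ≠ ⊥ →
      ¬ ∀ j ≤ 2 * g, f.coeff j ∈ 𝔭 ^ (2 * (2 * g + 1 - j))}

/-- The members of the family of height at most `B`: all the conjugates of the coefficient `a_j` are at
most `B ^ (2 g + 1 - j)` in absolute value, for all `j`. -/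
def UpTo (B : ℕ) : Set (𝓞 F)[X] :=
  {f ∈ Family F g | ∀ j ≤ 2 * g, ∀ σ : F →+* ℂ,
    ‖σ ((f.coeff j : 𝓞 F) : F)‖ ≤ (B : ℝ) ^ (2 * g + 1 - j)}

end family

section admissible

variable (F : Type) {M : Type} [Field F] [NumberField F] [Field M] [NumberField M] [Algebra F M]

/-- The decomposition group of the prime `w` of `M` over `F` is trivial. -/
def SplitAt (w : HeightOneSpectrum (𝓞 M)) : Prop :=
  MulAction.stabilizer Gal(M/F) w.asIdeal = ⊥

/-- The inertia group of the prime `w` of `M` over `F` is trivial. -/
def UnramifiedAt (w : HeightOneSpectrum (𝓞 M)) : Prop :=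
  w.asIdeal.inertia Gal(M/F) = ⊥

variable (M)

/-- The extension `M` of `F` is admissible for the curve `y² = f(x)`: it is Galois of 2-power degree;
the decomposition groups of the primes of `M` over `2`, and of those over a prime `𝔭` of `F` with
`𝔭 ^ (2 g + 1 - j) ∣ a_j` for all `j ≤ 2 g`, are trivial; every embedding of `F` in `ℝ` extends to `M`;
`f` is irreducible modulo the primes of `F` below the primes of `M` with nontrivial inertia group. -/
structure Admissible (g : ℕ) (f : (𝓞 F)[X]) : Prop where
  galois : IsGalois F M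
  degree : ∃ n : ℕ, Module.finrank F M = 2 ^ n
  two : ∀ w : HeightOneSpectrum (𝓞 M), (2 : 𝓞 M) ∈ w.asIdeal → SplitAt F w
  split : ∀ w : HeightOneSpectrum (𝓞 M),
    (∀ j ≤ 2 * g, f.coeff j ∈ (w.under (𝓞 F)).asIdeal ^ (2 * g + 1 - j)) → SplitAt F w
  real : ∀ σ : F →+* ℝ, ∃ ρ : M →+* ℝ, ρ.comp (algebraMap F M) = σ
  ramified : ∀ w : HeightOneSpectrum (𝓞 M), ¬ UnramifiedAt F w →
    Irreducible (f.map (Ideal.Quotient.mk (w.under (𝓞 F)).asIdeal))

/-- The prime numbers `l` such that `M(√l)` is admissible for every admissible field `M`. -/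
def Steps (g : ℕ) (f : (𝓞 F)[X]) : Set ℕ := {l : ℕ | l.Prime ∧
  ∀ (M M' : Type) [Field M] [NumberField M] [Field M'] [NumberField M'] [Algebra F M]
    [Algebra M M'] [Algebra F M'] [IsScalarTower F M M'] (x : M'),
    x ^ 2 = (l : M') → M⟮x⟯ = ⊤ → Admissible F M g f → Admissible F M' g f}

end admissible

section maps

/-- The polynomial `f` over the extension `E` of `F`. -/
noncomputable def polyOver {F : Type} [Field F] [NumberField F] (f : (𝓞 F)[X]) (E : Type) [Field E]
    [Algebra F E] : E[X] :=
  (f.map (algebraMap (𝓞 F) F)).map (algebraMap F E)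

variable {E : Type} [Field E]

/-- `(P / R, Q / R ^ (g + 1))` is a rational map from the plane curve `G = 0` to the curve `y² = f(x)`,
where `f` has degree `n = 2 g + 1`: the polynomial `G(x, y)` divides `Q² - R ^ (2 g + 2) f(P / R)` but it
does not divide `R`. -/
structure MapsTo (f : E[X]) (G P Q R : E[X][Y]) : Prop where
  dvd : G ∣ Q ^ 2 - R * ∑ i ∈ Finset.range (f.natDegree + 1),
    CC (f.coeff i) * P ^ i * R ^ (f.natDegree - i)
  den : ¬ G ∣ R

/-- The larger one of the Cauchy bounds for the zeros of the images under `τ` of the resultants of `G`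
and `R` with respect to `y` and with respect to `x`. -/
noncomputable def bound (τ : E →+* ℂ) (G R : E[X][Y]) : ℝ≥0 :=
  max (cauchyBound ((G.resultant R).map τ))
    (cauchyBound (((Bivariate.swap G).resultant (Bivariate.swap R)).map τ))

/-- If `G = 0` is an irreducible plane curve over `E`, where `G` has positive degree in both variables,
with a rational map `(P / R, Q / R ^ (g + 1))` to the curve `y² = f(x)`, then the points over `M` on
`G = 0` satisfy `R = 0`, and all the conjugates of their coordinates are less than the explicit bound. -/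
def CoversBounded (f : E[X]) (M : Type) [Field M] [Algebra E M] : Prop :=
  ∀ G P Q R : E[X][Y], Irreducible G → 0 < G.natDegree → 0 < (Bivariate.swap G).natDegree →
    MapsTo f G P Q R → ∀ x y : M, aevalAeval x y G = 0 →
      aevalAeval x y R = 0 ∧ ∀ σ : M →+* ℂ,
        ‖σ x‖₊ < bound (σ.comp (algebraMap E M)) G R ∧
        ‖σ y‖₊ < bound (σ.comp (algebraMap E M)) G R

end maps

/-- There is no point on `y² = f(x)` over `M`, and for every field `E` between `F` and `M` the points over
`M` on the plane curves over `E` with a rational map to `y² = f(x)` are explicitly bounded. -/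
structure Effective {F : Type} [Field F] [NumberField F] (f : (𝓞 F)[X]) (M : Type) [Field M]
    [Algebra F M] : Prop where
  noPoint : ∀ x y : M, y ^ 2 ≠ (polyOver f M).eval x
  covers : ∀ (E : Type) [Field E] [Algebra F E] [Algebra E M] [IsScalarTower F E M],
    CoversBounded (polyOver f E) M

theorem adm_iff (F M : Type) [Field F] [NumberField F] [Field M] [NumberField M] [Algebra F M]
    (g : ℕ) (f : (𝓞 F)[X]) : Pool.Agent.H14P.AdmH F M g f ↔ Admissible F M g f :=
  ⟨fun h => ⟨h.galois, h.deg, h.two, h.bad, h.real, h.ram⟩,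
    fun h => ⟨h.galois, h.degree, h.two, h.split, h.real, h.ramified⟩⟩

/-- Values of the homogenization. -/
theorem den_zero {M : Type} [Field M] {f : M[X]} (ho : Odd f.natDegree)
    (h : ∀ x y : M, y ^ 2 ≠ f.eval x) {p q r : M}
    (hpq : q ^ 2 = r * ∑ i ∈ Finset.range (f.natDegree + 1),
      f.coeff i * p ^ i * r ^ (f.natDegree - i)) : r = 0 := by
  by_contra hr
  obtain ⟨g, hg⟩ := ho
  apply h (p / r) (q / r ^ (g + 1))
  have h1 : ∑ i ∈ Finset.range (f.natDegree + 1), f.coeff i * p ^ i * r ^ (f.natDegree - i) =
      r ^ f.natDegree * f.eval (p / r) := by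
    rw [eval_eq_sum_range, Finset.mul_sum]
    refine Finset.sum_congr rfl fun i hi => ?_
    rw [Finset.mem_range] at hi
    have e : r ^ f.natDegree = r ^ i * r ^ (f.natDegree - i) := by
      rw [← pow_add]
      congr 1
      omega
    rw [e, div_pow]
    field_simp
  rw [div_pow, hpq, h1, hg]
  field_simp
  ring

theorem effective_of {F : Type} [Field F] [NumberField F] {f : (𝓞 F)[X]} (hm : f.Monic)
    (ho : Odd f.natDegree) (M : Type) [Field M] [Algebra F M]
    (h : ∀ x y : M, y ^ 2 ≠ (polyOver f M).eval x) : Effective f M := by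
  refine ⟨h, ?_⟩
  intro E _ _ _ _ G P Q R hG hd hd' hmap x y hxy
  have hdE : (polyOver f E).natDegree = f.natDegree := by
    rw [polyOver, natDegree_map, hm.natDegree_map]
  have hdM : (polyOver f M).natDegree = f.natDegree := by
    rw [polyOver, natDegree_map, hm.natDegree_map]
  have hco : ∀ i, algebraMap E M ((polyOver f E).coeff i) = (polyOver f M).coeff i := by
    intro i
    rw [polyOver, polyOver, coeff_map, coeff_map, coeff_map, coeff_map,
      ← IsScalarTower.algebraMap_apply F E M]
  have hR : aevalAeval x y R = 0 := by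
    obtain ⟨T, hT⟩ := hmap.dvd
    have h1 := congrArg (aevalAeval x y) hT
    rw [map_mul, hxy, zero_mul, map_sub, map_pow, map_mul, map_sum, sub_eq_zero] at h1
    refine den_zero (f := polyOver f M) (by rw [hdM]; exact ho) h (p := aevalAeval x y P) (h1.trans ?_)
    congr 1
    rw [hdE, hdM]
    refine Finset.sum_congr rfl fun i _ => ?_
    rw [map_mul, map_mul, map_pow, map_pow, ← hco]
    congr 2
    rw [aevalAeval_C, aeval_C]
  refine ⟨hR, fun σ => ⟨?_, ?_⟩⟩
  · exact (Pool.Agent.H14P.lt_bound hG hd hmap.den hxy hR σ).trans_le (le_max_left _ _)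
  · exact (Pool.Agent.H14P.lt_bound' hG hd' hmap.den hxy hR σ).trans_le (le_max_right _ _)

/-- Let `F` be a number field, `g ≥ 1` and `M₀ / F` a Galois extension of degree `2 ^ n` in which the
primes over `2` split completely and to which all real embeddings of `F` extend. There is `c > 0` such
that for all large `B` at least `c` times the number of all curves `y² = f(x)`, `deg f = 2 g + 1`, over
`F` of height at most `B` have the following properties: `M₀` is admissible; for all admissible fields
`M` there is no point over `M` on `y² = f(x)`, and the points over `M` on all plane curves with a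
rational map to it are poles of the map and are explicitly bounded; there are infinitely many prime
numbers `l` such that `M(√l)` is admissible for all admissible fields `M`. -/
theorem result (F M₀ : Type) [Field F] [NumberField F] [Field M₀] [NumberField M₀] [Algebra F M₀]
    [IsGalois F M₀] (n : ℕ) (hn : Module.finrank F M₀ = 2 ^ n)
    (h2 : ∀ w : HeightOneSpectrum (𝓞 M₀), (2 : 𝓞 M₀) ∈ w.asIdeal → SplitAt F w)
    (hr : ∀ σ : F →+* ℝ, ∃ ρ : M₀ →+* ℝ, ρ.comp (algebraMap F M₀) = σ) (g : ℕ) (hg : 1 ≤ g) :
    (∀ B : ℕ, (UpTo F g B).Finite) ∧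
    ∃ c : ℝ, 0 < c ∧ ∀ᶠ B : ℕ in atTop,
      0 < (UpTo F g B).ncard ∧
      c * ((UpTo F g B).ncard : ℝ) ≤ (({f ∈ UpTo F g B | Admissible F M₀ g f ∧
        (∀ (M : Type) [Field M] [NumberField M] [Algebra F M], Admissible F M g f →
          Effective f M) ∧
        (Steps F g f).Infinite}).ncard : ℝ) := by
  obtain ⟨c, hc, B₀, h⟩ := Pool.Agent.H14P.finalL F M₀ g hg hn h2 hr
  have hsub : ∀ B : ℕ, UpTo F g B ⊆ {f : (𝓞 F)[X] | Pool.Agent.N783.PF.Ht g B f} := by
    rintro B f ⟨⟨h1, h2, h3, -, -⟩, h4⟩
    exact ⟨h1, h2, h3, h4⟩
  have hfinH : ∀ B : ℕ, {f : (𝓞 F)[X] | Pool.Agent.N783.PF.Ht g B f}.Finite := by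
    intro B
    refine (h (max B B₀) (le_max_right _ _)).1.subset ?_
    rintro f ⟨h1, h2, h3, h4⟩
    refine ⟨h1, h2, h3, fun j hj σ => (h4 j hj σ).trans ?_⟩
    exact pow_le_pow_left₀ (Nat.cast_nonneg B) (Nat.cast_le.2 (le_max_left _ _)) _
  have hfin : ∀ B : ℕ, (UpTo F g B).Finite := fun B => (hfinH B).subset (hsub B)
  refine ⟨hfin, c, hc, ?_⟩
  filter_upwards [eventually_ge_atTop B₀] with B hB
  obtain ⟨-, h3⟩ := h B hB
  have h4 : {f : (𝓞 F)[X] | Pool.Agent.N783.PF.Ht g B f ∧ Irreducible (Pool.Agent.N783.PF.fF f) ∧
      Pool.Agent.H14P.GoodL F M₀ g f ∧ Pool.Agent.N783.PF.Min g f} ⊆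
      {f ∈ UpTo F g B | Admissible F M₀ g f ∧
        (∀ (M : Type) [Field M] [NumberField M] [Algebra F M], Admissible F M g f →
          Effective f M) ∧
        (Steps F g f).Infinite} := by
    rintro f ⟨hf, hi, hg', hmin⟩
    refine ⟨⟨⟨hf.mon, hf.deg, hf.tr, hi.separable, hmin⟩, hf.ht⟩,
      (adm_iff F M₀ g f).1 hg'.good.adm, fun M _ _ _ hM => ?_, hg'.inf.mono ?_⟩
    · refine effective_of hf.mon (by rw [hf.deg]; exact ⟨g, rfl⟩) M ?_
      have h5 := (hg'.good.all M ((adm_iff F M g f).2 hM)).pts
      rw [Pool.Agent.H14F.fF_up] at h5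
      exact h5
    · rintro l ⟨hl, h⟩
      exact ⟨hl, fun M M' _ _ _ _ _ _ _ _ x hx htop hM =>
        (adm_iff F M' g f).1 (h M M' x hx htop ((adm_iff F M g f).2 hM))⟩
  have h5 := Set.ncard_le_ncard h4 ((hfin B).subset fun p hp => hp.1)
  have h6 : ((UpTo F g B).ncard : ℝ) ≤
      ({f : (𝓞 F)[X] | Pool.Agent.N783.PF.Ht g B f}.ncard : ℝ) := by
    exact_mod_cast Set.ncard_le_ncard (hsub B) (hfinH B)
  have h7 : 0 < ({f : (𝓞 F)[X] | Pool.Agent.N783.PF.Ht g B f}).ncard := by
    rw [Set.ncard_pos (hfinH B)]
    refine ⟨X ^ (2 * g + 1), monic_X_pow _, natDegree_X_pow _, ?_, fun j hj σ => ?_⟩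
    · rw [coeff_X_pow, if_neg (by omega)]
    · have e : ((0 : 𝓞 F) : F) = 0 := map_zero (algebraMap (𝓞 F) F)
      rw [coeff_X_pow, if_neg (by omega), e, map_zero, norm_zero]
      positivity
  constructor
  · have h8 : 0 < c * ({f : (𝓞 F)[X] | Pool.Agent.N783.PF.Ht g B f}.ncard : ℝ) :=
      mul_pos hc (by exact_mod_cast h7)
    have h9 : (0 : ℝ) < (({f : (𝓞 F)[X] | Pool.Agent.N783.PF.Ht g B f ∧
        Irreducible (Pool.Agent.N783.PF.fF f) ∧
        Pool.Agent.H14P.GoodL F M₀ g f ∧ Pool.Agent.N783.PF.Min g f}).ncard : ℝ) := h8.trans_le h3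
    have h10 := Nat.cast_pos.1 h9
    refine lt_of_lt_of_le h10 (Set.ncard_le_ncard ?_ (hfin B))
    exact h4.trans fun f hf => hf.1
  · refine (mul_le_mul_of_nonneg_left h6 hc.le).trans (h3.trans ?_)
    exact_mod_cast h5

end Pool.Agent.Results.MP_821da1_nt.HyperellipticCovers
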