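import Pool.Agent.H14P.FinH

/-!
# Frobenius elements acting as full cycles

By helper14.
-/

set_option autoImplicit false
set_option linter.all false

open Polynomial IsDedekindDomain NumberField
open scoped Classical IntermediateField Pointwise

noncomputable section

namespace Pool.Agent.H14P

open Pool.Agent.N783.PF Pool.Agent.H14F
open Pool.Agent.W401.Cheb (HasFrob)

/-- The degree of an element over a finite field. -/
theorem per_of_irr {k Ω : Type} [Field k] [Finite k] [Field Ω] [Algebra k Ω] {h : k[X]}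
    (hi : Irreducible h) {α : Ω} (hα : aeval α h = 0) (m : ℕ) :
    α ^ (Nat.card k ^ m) = α ↔ h.natDegree ∣ m := by
  haveI : Fintype k := Fintype.ofFinite k
  have halg : IsAlgebraic k α := ⟨h, hi.ne_zero, hα⟩
  have hint : IsIntegral k α := halg.isIntegral
  haveI : FiniteDimensional k k⟮α⟯ := IntermediateField.adjoin.finiteDimensional hint
  haveI : Finite k⟮α⟯ := Module.finite_of_finite k
  have hd : Module.finrank k k⟮α⟯ = h.natDegree := by
    rw [IntermediateField.adjoin.finrank hint]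
    have h1 := minpoly.dvd k α hα
    have h2 := (minpoly.irreducible hint).associated_of_dvd hi h1
    exact natDegree_eq_of_degree_eq (degree_eq_degree_of_associated h2)
  rw [← hd, ← FiniteField.orderOf_frobeniusAlgHom k k⟮α⟯, orderOf_dvd_iff_pow_eq_one,
    Nat.card_eq_fintype_card]
  constructor
  · intro h1
    apply (IntermediateField.adjoin.powerBasis hint).algHom_ext
    rw [IntermediateField.adjoin.powerBasis_gen, AlgHom.coe_pow, FiniteField.coe_frobeniusAlgHom,
      pow_iterate, AlgHom.one_apply]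
    apply (algebraMap k⟮α⟯ Ω).injective
    simp only [map_pow, IntermediateField.AdjoinSimple.algebraMap_gen]
    exact h1
  · intro h1
    have h2 := congrArg (fun ψ : k⟮α⟯ →ₐ[k] k⟮α⟯ =>
      algebraMap k⟮α⟯ Ω (ψ (IntermediateField.AdjoinSimple.gen k α))) h1
    simp only [AlgHom.coe_pow, FiniteField.coe_frobeniusAlgHom, pow_iterate, AlgHom.one_apply,
      map_pow, IntermediateField.AdjoinSimple.algebraMap_gen] at h2
    exact h2

/-- A field with `x ^ p = x` has `p` elements. -/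
theorem card_of_frob {k : Type} [Field k] {p : ℕ} (hp : p.Prime) (h0 : ((p : ℕ) : k) = 0)
    (h : ∀ x : k, x ^ p = x) : Finite k ∧ Nat.card k = p := by
  have hsub : (Set.univ : Set k) ⊆ (((X ^ p - X : k[X]).roots.toFinset : Finset k) : Set k) := by
    intro x _
    rw [Finset.mem_coe, Multiset.mem_toFinset, mem_roots']
    refine ⟨FiniteField.X_pow_card_sub_X_ne_zero k hp.one_lt, ?_⟩
    rw [IsRoot.def, eval_sub, eval_pow, eval_X, h, sub_self]
  have hfin : Finite k := Set.finite_univ_iff.1 ((Finset.finite_toSet _).subset hsub)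
  refine ⟨hfin, ?_⟩
  haveI : Fintype k := Fintype.ofFinite k
  have hle : Nat.card k ≤ p := by
    have h1 := Set.ncard_le_ncard hsub (Finset.finite_toSet _)
    rw [Set.ncard_coe_finset, Set.ncard_univ] at h1
    refine h1.trans ((Multiset.toFinset_card_le _).trans ((card_roots' _).trans ?_))
    rw [FiniteField.X_pow_card_sub_X_natDegree_eq k hp.one_lt]
  have hge : p ≤ Nat.card k := by
    haveI : CharP k p := (CharP.charP_iff_prime_eq_zero hp).2 h0
    obtain ⟨n, hn, hc⟩ := FiniteField.card k p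
    rw [Nat.card_eq_fintype_card, hc]
    exact Nat.le_self_pow n.ne_zero p
  omega

section

variable {F N : Type} [Field F] [NumberField F] [Field N] [NumberField N] [IsGalois ℚ N]
  [Algebra F N]

/-- The roots. -/
def Rt (N : Type) [Field N] [Algebra F N] (f : (𝓞 F)[X]) : Set N := {u | aeval u (fF f) = 0}

/-- `g` fixes all conjugates of `F` and permutes the conjugates of the roots cyclically. -/
structure CycH (g : Gal(N/ℚ)) (f : (𝓞 F)[X]) : Prop where
  fix : ∀ (σ : Gal(N/ℚ)) (a : F), g (σ (algebraMap F N a)) = σ (algebraMap F N a)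
  per : ∀ (σ : Gal(N/ℚ)) (u : N), u ∈ Rt N f → Function.minimalPeriod g (σ u) = f.natDegree

omit [IsGalois ℚ N] in
theorem int_rootH {f : (𝓞 F)[X]} (hm : f.Monic) {u : N} (hu : u ∈ Rt N f) :
    ∃ υ : 𝓞 N, (υ : N) = u ∧ (f.map (algebraMap (𝓞 F) (𝓞 N))).eval υ = 0 := by
  have hu' : aeval u (fF f) = 0 := hu
  have h0 : eval₂ ((algebraMap F N).comp (algebraMap (𝓞 F) F)) u f = 0 := by
    rw [← eval₂_map]
    exact hu'
  have h1 : IsIntegral (𝓞 F) u := ⟨f, hm, h0⟩
  have h2 : IsIntegral ℤ u := isIntegral_trans (R := ℤ) (A := 𝓞 F) u h1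
  obtain ⟨υ, hυ⟩ : ∃ υ : 𝓞 N, (υ : N) = u := ⟨⟨u, h2⟩, rfl⟩
  refine ⟨υ, hυ, ?_⟩
  apply RingOfIntegers.ext
  rw [eval_map]
  have h3 := hom_eval₂ f (algebraMap (𝓞 F) (𝓞 N)) (algebraMap (𝓞 N) N) υ
  rw [← hυ] at h0
  exact h3.trans (h0.trans (map_zero (algebraMap (𝓞 N) N)).symm)

/-- the images of the roots under the Galois group -/
theorem mem_Rt_conj {g : Gal(N/ℚ)}
    (hfix : ∀ (σ : Gal(N/ℚ)) (a : F), g (σ (algebraMap F N a)) = σ (algebraMap F N a))
    {f : (𝓞 F)[X]} (σ : Gal(N/ℚ)) {u : N} (hu : u ∈ Rt N f) (m : ℕ) :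
    σ⁻¹ (g^[m] (σ u)) ∈ Rt N f := by
  have hs : ∀ (τ : Gal(N/ℚ)) (t : N), τ⁻¹ (τ t) = t := fun τ t => by
    rw [← AlgEquiv.mul_apply, inv_mul_cancel, AlgEquiv.one_apply]
  have hfix' : ∀ (m : ℕ) (a : F), g^[m] (σ (algebraMap F N a)) = σ (algebraMap F N a) := by
    intro m a
    induction m with
    | zero => rfl
    | succ m ih => rw [Function.iterate_succ_apply, hfix, ih]
  have hpow : ∀ t : N, g^[m] t = (g ^ m) t := fun t => by
    rw [AlgEquiv.coe_pow]
  have h1 : (σ⁻¹ * (g ^ m * σ) : Gal(N/ℚ)) u = σ⁻¹ (g^[m] (σ u)) := by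
    rw [AlgEquiv.mul_apply, AlgEquiv.mul_apply, hpow]
  have h2 : ∀ a : F, (σ⁻¹ * (g ^ m * σ) : Gal(N/ℚ)) (algebraMap F N a) = algebraMap F N a := by
    intro a
    rw [AlgEquiv.mul_apply, AlgEquiv.mul_apply, ← hpow, hfix', hs]
  rw [← h1]
  set τ : Gal(N/ℚ) := σ⁻¹ * (g ^ m * σ) with hτ
  have hu' : aeval u (fF f) = 0 := hu
  show aeval (τ u) (fF f) = 0
  rw [aeval_def, eval₂_eq_sum_range] at hu' ⊢
  have h3 := congrArg τ hu'
  rw [map_sum, map_zero] at h3
  rw [← h3]
  refine Finset.sum_congr rfl fun i _ => ?_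
  rw [map_mul, map_pow, h2]

/-- periods modulo a prime -/
theorem period_dvd {l : ℕ} [Fact l.Prime] {v : HeightOneSpectrum (𝓞 F)}
    {ψ : 𝓞 F →+* AlgebraicClosure (ZMod l)} (hψ : ∀ a, ψ a = 0 ↔ a ∈ v.asIdeal)
    (hfr : ∀ a, ψ a ^ l = ψ a) {h : (𝓞 F ⧸ v.asIdeal)[X]} (hi : Irreducible h)
    {α : AlgebraicClosure (ZMod l)}
    (hα : eval₂ (Ideal.Quotient.lift v.asIdeal ψ fun a ha => (hψ a).2 ha) α h = 0) (m : ℕ) :
    α ^ (l ^ m) = α ↔ h.natDegree ∣ m := by
  haveI : v.asIdeal.IsMaximal := v.isMaximal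
  letI : Field (𝓞 F ⧸ v.asIdeal) := Ideal.Quotient.field v.asIdeal
  letI : Algebra (𝓞 F ⧸ v.asIdeal) (AlgebraicClosure (ZMod l)) :=
    (Ideal.Quotient.lift v.asIdeal ψ fun a ha => (hψ a).2 ha).toAlgebra
  have hj : Function.Injective (algebraMap (𝓞 F ⧸ v.asIdeal) (AlgebraicClosure (ZMod l))) :=
    (algebraMap (𝓞 F ⧸ v.asIdeal) (AlgebraicClosure (ZMod l))).injective
  obtain ⟨h1, h2⟩ := card_of_frob (k := 𝓞 F ⧸ v.asIdeal) (Fact.out : l.Prime) (by
    apply hj
    rw [map_natCast, map_zero]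
    exact CharP.cast_eq_zero _ l) (by
    intro x
    obtain ⟨a, rfl⟩ := Ideal.Quotient.mk_surjective x
    apply hj
    rw [map_pow]
    exact hfr a)
  have h3 := per_of_irr (k := 𝓞 F ⧸ v.asIdeal) (Ω := AlgebraicClosure (ZMod l)) hi
    (α := α) hα m
  rwa [h2] at h3

theorem frob_iter {l : ℕ} [Fact l.Prime] {φ : 𝓞 N →+* AlgebraicClosure (ZMod l)} {g : Gal(N/ℚ)}
    (hφ : HasFrob l φ g) (m : ℕ) (x : 𝓞 N) : φ (g ^ m • x) = φ x ^ (l ^ m) := by
  induction m with
  | zero => simp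
  | succ m ih => rw [pow_succ', mul_smul, hφ, ih, ← pow_mul, pow_succ]

omit [IsGalois ℚ N] in
theorem Rt_card {f : (𝓞 F)[X]} (hm : f.Monic) :
    Rt N f ⊆ ((((fF f).map (algebraMap F N)).roots.toFinset : Finset N) : Set N) ∧
      (((fF f).map (algebraMap F N)).roots.toFinset).card ≤ f.natDegree := by
  constructor
  · intro u hu
    have hu' : aeval u (fF f) = 0 := hu
    rw [Finset.mem_coe, Multiset.mem_toFinset, mem_roots', IsRoot.def, eval_map]
    exact ⟨((hm.map _).map _).ne_zero, hu'⟩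
  · refine (Multiset.toFinset_card_le _).trans ((card_roots' _).trans ?_)
    rw [natDegree_map, hm.natDegree_map]

/-- The automorphism. -/
theorem exists_cycH {p : ℕ} [Fact p.Prime] {N₀ : Type} [Field N₀] [NumberField N₀] [IsGalois ℚ N₀]
    [Algebra N₀ N] [Algebra F N₀] [IsScalarTower F N₀ N] (hs : Spl N₀ p) {f : (𝓞 F)[X]}
    (hm : f.Monic) (hodd : Odd f.natDegree)
    (hirr : ∀ v : HeightOneSpectrum (𝓞 F), (p : 𝓞 F) ∈ v.asIdeal →
      Irreducible (rd v.asIdeal f)) :
    ∃ g : Gal(N/ℚ), CycH g f ∧ ∀ (r : N) (n : ℤ), r ^ 2 = (n : N) → g r = r := by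
  obtain ⟨φ⟩ := exists_hom_p N p
  obtain ⟨g, hg⟩ := exists_frob φ
  have hfix : ∀ (σ : Gal(N/ℚ)) (a : F), g (σ (algebraMap F N a)) = σ (algebraMap F N a) := by
    intro σ a
    have h1 : σ (algebraMap F N a) = algebraMap N₀ N (σ.restrictNormal N₀ (algebraMap F N₀ a)) := by
      rw [σ.restrictNormal_commutes, ← IsScalarTower.algebraMap_apply F N₀ N]
    rw [h1]
    exact hs.fix hg _
  have hper : ∀ (σ : Gal(N/ℚ)) (u : N), u ∈ Rt N f →
      Function.minimalPeriod g (σ u) = f.natDegree := by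
    intro σ u hu
    have hfin : 0 < Function.minimalPeriod g (σ u) := by
      apply Function.minimalPeriod_pos_of_mem_periodicPts
      refine Function.mk_mem_periodicPts (orderOf_pos g) ?_
      show g^[orderOf g] (σ u) = σ u
      rw [← AlgEquiv.coe_pow, pow_orderOf_eq_one, AlgEquiv.one_apply]
    -- divisibility
    have hdvd : f.natDegree ∣ Function.minimalPeriod g (σ u) := by
      obtain ⟨υ, hυ, hυ0⟩ := int_rootH hm hu
      let φσ : 𝓞 N →+* AlgebraicClosure (ZMod p) :=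
        φ.comp (MulSemiringAction.toRingHom Gal(N/ℚ) (𝓞 N) σ)
      have hφσ : ∀ t, φσ t = φ (σ • t) := fun t => rfl
      let ψ : 𝓞 F →+* AlgebraicClosure (ZMod p) := φσ.comp (algebraMap (𝓞 F) (𝓞 N))
      have hk : (p : 𝓞 F) ∈ RingHom.ker ψ := by
        rw [RingHom.mem_ker, map_natCast]
        exact CharP.cast_eq_zero _ p
      have hne : RingHom.ker ψ ≠ ⊥ := by
        intro h1
        rw [h1, Ideal.mem_bot, Nat.cast_eq_zero] at hk
        exact (Fact.out : p.Prime).ne_zero hk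
      let v : HeightOneSpectrum (𝓞 F) := ⟨RingHom.ker ψ, RingHom.ker_isPrime ψ, hne⟩
      have hψ : ∀ a, ψ a = 0 ↔ a ∈ v.asIdeal := fun a => (RingHom.mem_ker).symm
      have hfr : ∀ a, ψ a ^ p = ψ a := by
        intro a
        have h1 := hs.frob (φσ.comp (algebraMap (𝓞 N₀) (𝓞 N))) (algebraMap (𝓞 F) (𝓞 N₀) a)
        have h2 : (φσ.comp (algebraMap (𝓞 N₀) (𝓞 N))) (algebraMap (𝓞 F) (𝓞 N₀) a) = ψ a := by
          show φσ _ = φσ _
          congr 1
          apply RingOfIntegers.ext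
          show algebraMap N₀ N (algebraMap F N₀ (a : F)) = algebraMap F N (a : F)
          rw [← IsScalarTower.algebraMap_apply F N₀ N]
        rwa [h2] at h1
      have hroot : eval₂ ψ (φσ υ) f = 0 := by
        rw [eval_map] at hυ0
        have h1 := congrArg φσ hυ0
        rw [hom_eval₂, map_zero] at h1
        exact h1
      have h3 := (period_dvd hψ hfr (hirr v hk) (α := φσ υ) (by
        rw [rd, eval₂_map]
        exact hroot) (Function.minimalPeriod g (σ u))).1 (by
          rw [hφσ, ← frob_iter hg]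
          congr 1
          apply RingOfIntegers.ext
          rw [smulc, smulc, hυ, AlgEquiv.coe_pow]
          exact Function.isPeriodicPt_minimalPeriod g (σ u))
      haveI : Nontrivial (𝓞 F ⧸ v.asIdeal) := Ideal.Quotient.nontrivial_iff.2 v.isPrime.ne_top
      rwa [rd, hm.natDegree_map] at h3
    have hle : Function.minimalPeriod g (σ u) ≤ f.natDegree := by
      obtain ⟨h1, h2⟩ := Rt_card (N := N) hm
      refine le_trans ?_ h2
      rw [← Finset.card_range (Function.minimalPeriod g (σ u))]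
      refine Finset.card_le_card_of_injOn (fun m => σ⁻¹ (g^[m] (σ u))) ?_ ?_
      · intro m _
        exact h1 (mem_Rt_conj hfix σ hu m)
      · intro m hm' m' hm'' he
        have he' : g^[m] (σ u) = g^[m'] (σ u) := (σ⁻¹).injective he
        exact Function.iterate_injOn_Iio_minimalPeriod (by simpa using hm') (by simpa using hm'') he'
    exact le_antisymm hle (Nat.le_of_dvd hfin hdvd)
  refine ⟨g * g, ⟨?_, ?_⟩, ?_⟩
  · intro σ a
    rw [AlgEquiv.mul_apply, hfix, hfix]
  · intro σ u hu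
    have e : ⇑(g * g) = (⇑g)^[2] := by
      funext t
      rfl
    rw [e, Function.minimalPeriod_iterate_eq_div_gcd two_ne_zero, hper σ u hu]
    have : Nat.gcd f.natDegree 2 = 1 := Nat.coprime_two_right.2 hodd
    rw [this, Nat.div_one]
  · intro r n hr
    have h1 : (g r - r) * (g r + r) = 0 := by
      have h2 : g r ^ 2 = r ^ 2 := by
        rw [← map_pow, hr, map_intCast]
      linear_combination h2
    rw [AlgEquiv.mul_apply]
    rcases mul_eq_zero.1 h1 with h | h
    · rw [sub_eq_zero.1 h, sub_eq_zero.1 h]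
    · rw [eq_neg_of_add_eq_zero_left h, map_neg, eq_neg_of_add_eq_zero_left h, neg_neg]

/-- The primes with Frobenius element `g`. -/
theorem frob_irrH {f : (𝓞 F)[X]} (hm : f.Monic) (hd0 : 0 < f.natDegree)
    (hspl : ((fF f).map (algebraMap F N)).Splits) {g : Gal(N/ℚ)} (hg : CycH g f) {l : ℕ}
    [Fact l.Prime] {φ : 𝓞 N →+* AlgebraicClosure (ZMod l)} (hφ : HasFrob l φ g)
    (v : HeightOneSpectrum (𝓞 F)) (hv : (l : 𝓞 F) ∈ v.asIdeal)
    (hsep : (rd v.asIdeal f).Separable) : Irreducible (rd v.asIdeal f) := by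
  haveI : v.asIdeal.IsMaximal := v.isMaximal
  letI : Field (𝓞 F ⧸ v.asIdeal) := Ideal.Quotient.field v.asIdeal
  obtain ⟨Q, hQ⟩ := exists_above (Ω := N) v
  have hQl : (l : 𝓞 N) ∈ Q.asIdeal := by
    rw [← nat_mem_under (L := F), hQ]
    exact hv
  obtain ⟨ψ, hψ⟩ := hom_above Q hQl
  obtain ⟨σ, hσ⟩ := hom_trans φ ψ
  have hψF : ∀ a, (ψ.comp (algebraMap (𝓞 F) (𝓞 N))) a = 0 ↔ a ∈ v.asIdeal := by
    intro a
    rw [RingHom.comp_apply, hψ, ← mem_under, hQ]
  have hfr : ∀ a, (ψ.comp (algebraMap (𝓞 F) (𝓞 N))) a ^ l = (ψ.comp (algebraMap (𝓞 F) (𝓞 N))) a := by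
    intro a
    rw [RingHom.comp_apply, hσ, ← hφ]
    congr 1
    apply RingOfIntegers.ext
    rw [smulc, smulc]
    exact hg.fix σ (a : F)
  -- the factorization
  have hlift : ∀ u : N, ∃ υ : 𝓞 N, u ∈ Rt N f → (υ : N) = u := by
    intro u
    by_cases hu : u ∈ Rt N f
    · obtain ⟨υ, hυ, -⟩ := int_rootH hm hu
      exact ⟨υ, fun _ => hυ⟩
    · exact ⟨0, fun h => absurd h hu⟩
  choose L hL using hlift
  set P : (𝓞 N)[X] := f.map (algebraMap (𝓞 F) (𝓞 N)) with hP
  have hPm : P.Monic := hm.map _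
  have hPN : P.map (algebraMap (𝓞 N) N) = (fF f).map (algebraMap F N) := by
    rw [hP, fF, Polynomial.map_map, Polynomial.map_map]
    rfl
  have hfac : P = (((fF f).map (algebraMap F N)).roots.map fun u => X - C (L u)).prod := by
    apply Polynomial.map_injective (algebraMap (𝓞 N) N) RingOfIntegers.coe_injective
    rw [hPN, Polynomial.map_multiset_prod, Multiset.map_map]
    conv_lhs => rw [hspl.eq_prod_roots_of_monic ((hm.map _).map _)]
    congr 1
    refine Multiset.map_congr rfl fun u hu => ?_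
    rw [Function.comp_apply, Polynomial.map_sub, map_X, map_C]
    have hu' : u ∈ Rt N f := by
      rw [mem_roots', IsRoot.def, eval_map] at hu
      exact hu.2
    have := hL u hu'
    show X - C u = X - C ((L u : 𝓞 N) : N)
    rw [this]
  have hmk : ∀ a, Ideal.Quotient.lift v.asIdeal (ψ.comp (algebraMap (𝓞 F) (𝓞 N)))
      (fun a ha => (hψF a).2 ha) (Ideal.Quotient.mk v.asIdeal a) =
      ψ (algebraMap (𝓞 F) (𝓞 N) a) := fun a => rfl
  have hPψ : (rd v.asIdeal f).map (Ideal.Quotient.lift v.asIdeal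
      (ψ.comp (algebraMap (𝓞 F) (𝓞 N))) fun a ha => (hψF a).2 ha) = P.map ψ := by
    rw [hP, rd, Polynomial.map_map, Polynomial.map_map]
    congr 1
  have hsepψ : (P.map ψ).Separable := by
    rw [← hPψ]
    exact hsep.map
  -- injectivity on the roots
  have hinj : ∀ υ υ' : 𝓞 N, P.eval υ = 0 → P.eval υ' = 0 → ψ υ = ψ υ' → υ = υ' := by
    intro υ υ' h1 h2 h3
    by_contra hne
    obtain ⟨P₁, hP₁⟩ := dvd_iff_isRoot.2 h1
    rw [hP₁, eval_mul, eval_sub, eval_X, eval_C] at h2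
    have h4 : P₁.eval υ' = 0 := (mul_eq_zero.1 h2).resolve_left (sub_ne_zero.2 (Ne.symm hne))
    obtain ⟨P₂, hP₂⟩ := dvd_iff_isRoot.2 h4
    have h5 : (X - C (ψ υ)) * (X - C (ψ υ)) ∣ P.map ψ := by
      rw [hP₁, hP₂]
      simp only [Polynomial.map_mul, Polynomial.map_sub, map_X, map_C, ← h3]
      exact ⟨P₂.map ψ, by ring⟩
    exact not_isUnit_X_sub_C _ (hsepψ.squarefree _ h5)
  have hroot : ∀ u ∈ Rt N f, P.eval (L u) = 0 := by
    intro u hu
    obtain ⟨υ, hυ, hυ0⟩ := int_rootH hm hu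
    have : L u = υ := by
      apply RingOfIntegers.ext
      rw [hL u hu, hυ]
    rw [this]
    exact hυ0
  -- an irreducible factor
  have hnu : ¬ IsUnit (rd v.asIdeal f) := by
    intro h
    have h1 := natDegree_eq_zero_of_isUnit h
    rw [rd, hm.natDegree_map] at h1
    omega
  obtain ⟨h, hi, q, hq⟩ := WfDvdMonoid.exists_irreducible_factor hnu (hm.map _).ne_zero
  obtain ⟨α, hα⟩ := IsAlgClosed.exists_eval₂_eq_zero (Ideal.Quotient.lift v.asIdeal
      (ψ.comp (algebraMap (𝓞 F) (𝓞 N))) fun a ha => (hψF a).2 ha) h hi.degree_pos.ne'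
  have hdeg := (period_dvd hψF hfr hi hα h.natDegree).2 dvd_rfl
  -- `α` is the reduction of a root
  obtain ⟨u, hu, hαu⟩ : ∃ u ∈ Rt N f, α = ψ (L u) := by
    have h1 : (P.map ψ).eval α = 0 := by
      rw [← hPψ, eval_map]
      have hq' : rd v.asIdeal f = h * q := hq
      rw [hq', eval₂_mul, hα, zero_mul]
    rw [hfac, Polynomial.map_multiset_prod, Multiset.map_map, eval_multiset_prod,
      Multiset.map_map, Multiset.prod_eq_zero_iff] at h1
    rw [Multiset.mem_map] at h1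
    obtain ⟨u, hu, h2⟩ := h1
    refine ⟨u, ?_, ?_⟩
    · rw [mem_roots', IsRoot.def, eval_map] at hu
      exact hu.2
    · simp only [Function.comp_apply, Polynomial.map_sub, map_X, map_C, eval_sub, eval_X,
        eval_C] at h2
      exact sub_eq_zero.1 h2
  -- the conjugate
  have hu' := mem_Rt_conj hg.fix σ hu h.natDegree
  have e1 : σ • L (σ⁻¹ (g^[h.natDegree] (σ u))) = g ^ h.natDegree • (σ • L u) := by
    apply RingOfIntegers.ext
    rw [smulc, smulc, smulc, hL _ hu', hL _ hu, AlgEquiv.coe_pow]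
    rw [← AlgEquiv.mul_apply, mul_inv_cancel, AlgEquiv.one_apply]
  have e2 : ψ (L (σ⁻¹ (g^[h.natDegree] (σ u)))) = ψ (L u) := by
    rw [hσ, e1, frob_iter hφ, ← hσ, ← hαu, hdeg]
  have e3 := hinj _ _ (hroot _ hu') (hroot _ hu) e2
  have e4 : σ⁻¹ (g^[h.natDegree] (σ u)) = u := by
    rw [← hL _ hu', e3, hL _ hu]
  have e5 : g^[h.natDegree] (σ u) = σ u := by
    have := congrArg σ e4
    rwa [← AlgEquiv.mul_apply, mul_inv_cancel, AlgEquiv.one_apply] at this
  have e6 : f.natDegree ∣ h.natDegree := by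
    rw [← hg.per σ u hu]
    exact Function.IsPeriodicPt.minimalPeriod_dvd e5
  have e7 : f.natDegree ≤ h.natDegree := Nat.le_of_dvd hi.natDegree_pos e6
  have hq0 : q ≠ 0 := by
    rintro rfl
    rw [mul_zero] at hq
    exact (hm.map (Ideal.Quotient.mk v.asIdeal)).ne_zero hq
  have e8 : q.natDegree = 0 := by
    have h1 := congrArg natDegree hq
    rw [natDegree_mul hi.ne_zero hq0, hm.natDegree_map] at h1
    omega
  have hqu : IsUnit q := by
    rw [eq_C_of_natDegree_eq_zero e8] at hq0 ⊢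
    rw [isUnit_C]
    exact isUnit_iff_ne_zero.2 (fun h0 => hq0 (by rw [h0, C_0]))
  have e9 : Associated h (rd v.asIdeal f) := ⟨hqu.unit, hq.symm⟩
  exact e9.irreducible hi

end

end Pool.Agent.H14P
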