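import Pool.Agent.H14P.LamH

/-!
# Infinitely many primes `l` such that adjoining `√l` preserves admissibility

By helper14.
-/

set_option autoImplicit false
set_option linter.all false

open Polynomial IsDedekindDomain NumberField
open scoped Classical IntermediateField Pointwise

noncomputable section

namespace Pool.Agent.H14P

open Pool.Agent.N783.PF Pool.Agent.H14F
open Pool.Agent.W401.Cheb (HasFrob)

section

variable {F : Type} [Field F] [NumberField F]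

/-- Separability modulo almost all primes. -/
theorem sep_large {f : (𝓞 F)[X]} (hs : (fF f).Separable) : ∃ c : 𝓞 F, c ≠ 0 ∧
    ∀ v : HeightOneSpectrum (𝓞 F), c ∉ v.asIdeal → (rd v.asIdeal f).Separable := by
  obtain ⟨a, b, hab⟩ := hs
  obtain ⟨d₁, hd₁, h₁⟩ := IsLocalization.integerNormalization_spec (nonZeroDivisors (𝓞 F)) a
  obtain ⟨d₂, hd₂, h₂⟩ := IsLocalization.integerNormalization_spec (nonZeroDivisors (𝓞 F)) b
  set a' := IsLocalization.integerNormalization (nonZeroDivisors (𝓞 F)) a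
  set b' := IsLocalization.integerNormalization (nonZeroDivisors (𝓞 F)) b
  replace h₁ : a'.map (algebraMap (𝓞 F) F) = C (algebraMap (𝓞 F) F d₁) * a :=
    h₁.trans (Algebra.smul_def d₁ a)
  replace h₂ : b'.map (algebraMap (𝓞 F) F) = C (algebraMap (𝓞 F) F d₂) * b :=
    h₂.trans (Algebra.smul_def d₂ b)
  have key : C (d₂ : 𝓞 F) * a' * f + C (d₁ : 𝓞 F) * b' * derivative f =
      C ((d₁ : 𝓞 F) * (d₂ : 𝓞 F)) := by
    apply Polynomial.map_injective (algebraMap (𝓞 F) F) RingOfIntegers.coe_injective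
    simp only [Polynomial.map_add, Polynomial.map_mul, map_C, ← derivative_map, h₁, h₂, map_mul]
    have h3 : a * f.map (algebraMap (𝓞 F) F) + b * derivative (f.map (algebraMap (𝓞 F) F)) = 1 :=
      hab
    linear_combination C (algebraMap (𝓞 F) F (d₁ : 𝓞 F)) * C (algebraMap (𝓞 F) F (d₂ : 𝓞 F)) * h3
  refine ⟨(d₁ : 𝓞 F) * (d₂ : 𝓞 F), mul_ne_zero (nonZeroDivisors.ne_zero hd₁)
    (nonZeroDivisors.ne_zero hd₂), fun v hv => ?_⟩
  haveI : v.asIdeal.IsMaximal := v.isMaximal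
  letI : Field (𝓞 F ⧸ v.asIdeal) := Ideal.Quotient.field v.asIdeal
  have h0 : Ideal.Quotient.mk v.asIdeal ((d₁ : 𝓞 F) * (d₂ : 𝓞 F)) ≠ 0 := by
    rw [ne_eq, Ideal.Quotient.eq_zero_iff_mem]
    exact hv
  have h4 := congrArg (Polynomial.map (Ideal.Quotient.mk v.asIdeal)) key
  rw [Polynomial.map_add, Polynomial.map_mul (q := f), Polynomial.map_mul (q := derivative f),
    map_C] at h4
  set c := Ideal.Quotient.mk v.asIdeal ((d₁ : 𝓞 F) * (d₂ : 𝓞 F)) with hc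
  refine ⟨C c⁻¹ * (C (d₂ : 𝓞 F) * a').map (Ideal.Quotient.mk v.asIdeal),
    C c⁻¹ * (C (d₁ : 𝓞 F) * b').map (Ideal.Quotient.mk v.asIdeal), ?_⟩
  have h5 : (C (c⁻¹) * C c : (𝓞 F ⧸ v.asIdeal)[X]) = 1 := by
    rw [← C_mul, inv_mul_cancel₀ h0, C_1]
  rw [rd, derivative_map, ← h5, ← h4]
  ring

/-- Infinitely many primes. -/
theorem infinite_lH {p : ℕ} (hp : SplP F p) {f : (𝓞 F)[X]} (hm : f.Monic)
    (hodd : Odd f.natDegree)
    (hnr : ∀ v : HeightOneSpectrum (𝓞 F), (p : 𝓞 F) ∈ v.asIdeal → Irreducible (rd v.asIdeal f))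
    (hs : (fF f).Separable) (T : Finset ℕ) (hT : ∀ q ∈ T, q.Prime ∧ q ≠ 2) :
    {l : ℕ | l.Prime ∧ l % 8 = 1 ∧ (∀ v : HeightOneSpectrum (𝓞 F), (l : 𝓞 F) ∈ v.asIdeal →
      Irreducible (rd v.asIdeal f)) ∧
      ∀ q ∈ T, ∃ m : ℤ, (q : ℤ) ∣ m ^ 2 - (l : ℤ)}.Infinite := by
  obtain ⟨c, hc0, hc⟩ := sep_large hs
  obtain ⟨ip, N₀, _, _, _, _, hsp0⟩ := hp
  -- the big field
  let P : N₀[X] := ((fF f).map (algebraMap F N₀)) *
    ((X ^ 2 - C (-1)) * ((X ^ 2 - C 2) * ∏ q ∈ T, (X ^ 2 - C (q : N₀))))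
  have m2 : ∀ c : N₀, (X ^ 2 - C c : N₀[X]).Monic := fun c => by monicity!
  have d2 : ∀ c : N₀, (X ^ 2 - C c : N₀[X]).degree = 2 := fun c => by compute_degree!
  have m3 : ((fF f).map (algebraMap F N₀)).Monic := (hm.map _).map _
  have hP : P ≠ 0 := mul_ne_zero m3.ne_zero (mul_ne_zero (m2 _).ne_zero
    (mul_ne_zero (m2 _).ne_zero (Finset.prod_ne_zero_iff.2 fun q _ => (m2 _).ne_zero)))
  obtain ⟨N, _, _, _, _, hsp⟩ := exists_gal_split N₀ P
  letI : Algebra F N := ((algebraMap N₀ N).comp (algebraMap F N₀)).toAlgebra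
  haveI : IsScalarTower F N₀ N := IsScalarTower.of_algebraMap_eq fun _ => rfl
  have sq : ∀ c : N₀, (X ^ 2 - C c : N₀[X]) ∣ P → ∃ r : N, r ^ 2 = algebraMap N₀ N c := by
    intro c hc
    obtain ⟨r, hr⟩ := splits_root hP hsp hc (by rw [d2]; decide)
    refine ⟨r, ?_⟩
    rw [map_sub, map_pow, aeval_X, aeval_C] at hr
    exact sub_eq_zero.1 hr
  obtain ⟨i, hi⟩ := sq (-1) (dvd_mul_of_dvd_right (dvd_mul_right _ _) _)
  obtain ⟨s, hs2⟩ := sq 2 (dvd_mul_of_dvd_right (dvd_mul_of_dvd_right (dvd_mul_right _ _) _) _)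
  have hr : ∀ q ∈ T, ∃ r : N, r ^ 2 = ((q : ℤ) : N) := by
    intro q hq
    obtain ⟨r, hr⟩ := sq (q : N₀) (dvd_mul_of_dvd_right (dvd_mul_of_dvd_right
      (dvd_mul_of_dvd_right (Finset.dvd_prod_of_mem (fun q : ℕ => (X ^ 2 - C (q : N₀) : N₀[X])) hq)
        _) _) _)
    exact ⟨r, by rw [hr, map_natCast]; simp⟩
  -- the roots
  have hcub : ((fF f).map (algebraMap F N)).Splits := by
    have h1 := splits_of_dvd hP hsp (dvd_mul_right ((fF f).map (algebraMap F N₀)) _)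
    rw [Polynomial.map_map, ← IsScalarTower.algebraMap_eq F N₀ N] at h1
    exact h1
  obtain ⟨g, hg, hgr⟩ := exists_cycH (N := N) hsp0 hm hodd hnr
  rw [Set.infinite_iff_exists_gt]
  intro B₁
  obtain ⟨l, hl, hlB, ⟨φ, hφ⟩, -⟩ := inf_frob N g
    (max (max B₁ 2) (Ideal.absNorm (Ideal.span {c})))
  have h1 : max B₁ 2 < l := (le_max_left _ _).trans_lt hlB
  have h2 : B₁ < l := (le_max_left _ _).trans_lt h1
  have h3 : 2 < l := (le_max_right _ _).trans_lt h1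
  have h4 : Ideal.absNorm (Ideal.span {c}) < l := (le_max_right _ _).trans_lt hlB
  have h0 : 0 < Ideal.absNorm (Ideal.span {c}) := by
    rw [Nat.pos_iff_ne_zero, ne_eq, Ideal.absNorm_eq_zero_iff, Ideal.span_singleton_eq_bot]
    exact hc0
  have hcop : Nat.Coprime (Ideal.absNorm (Ideal.span {c})) l :=
    (Nat.coprime_comm.1 ((Nat.Prime.coprime_iff_not_dvd hl.out).2
      fun h5 => absurd (Nat.le_of_dvd h0 h5) (not_le.2 h4)))
  have hcv : ∀ v : HeightOneSpectrum (𝓞 F), (l : 𝓞 F) ∈ v.asIdeal → c ∉ v.asIdeal := by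
    intro v hv hcv
    have h5 : ((Ideal.absNorm (Ideal.span {c}) : ℕ) : 𝓞 F) ∈ v.asIdeal :=
      (Ideal.span_singleton_le_iff_mem _).2 hcv (Ideal.absNorm_mem (Ideal.span {c}))
    obtain ⟨a, b, hab⟩ := Nat.isCoprime_iff_coprime.2 hcop
    apply v.isPrime.ne_top
    rw [Ideal.eq_top_iff_one]
    have h6 : ((a : 𝓞 F) * ((Ideal.absNorm (Ideal.span {c}) : ℕ) : 𝓞 F) +
        (b : 𝓞 F) * (l : 𝓞 F)) = 1 := by
      exact_mod_cast congrArg (Int.cast : ℤ → 𝓞 F) hab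
    rw [← h6]
    exact Ideal.add_mem _ (Ideal.mul_mem_left _ _ h5) (Ideal.mul_mem_left _ _ hv)
  have hi' : i ^ 2 = ((-1 : ℤ) : N) := by
    rw [hi, map_neg, map_one]
    push_cast
    ring
  have hs2' : s ^ 2 = ((2 : ℤ) : N) := by
    rw [hs2, map_ofNat]
    push_cast
    ring
  refine ⟨l, ⟨hl.out, mod_eight (by omega) (sq_of_frob hφ hs2' (hgr _ _ hs2'))
    (sq_of_frob hφ hi' (hgr _ _ hi')), fun v hv => frob_irrH hm hodd.pos hcub hg hφ v hv
      (hc v (hcv v hv)), ?_⟩, h2⟩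
  intro q hq
  obtain ⟨r, hr⟩ := hr q hq
  have h5 := sq_of_frob hφ hr (hgr _ _ hr)
  have hl4 : l % 4 = 1 := by
    have := mod_eight (by omega) (sq_of_frob hφ hs2' (hgr _ _ hs2'))
      (sq_of_frob hφ hi' (hgr _ _ hi'))
    omega
  haveI : Fact q.Prime := ⟨(hT q hq).1⟩
  have h6 : IsSquare ((q : ℕ) : ZMod l) := by exact_mod_cast h5
  rw [ZMod.exists_sq_eq_prime_iff_of_mod_four_eq_one hl4 (hT q hq).2] at h6
  obtain ⟨n, hn⟩ := h6
  obtain ⟨n, rfl⟩ := ZMod.intCast_surjective n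
  refine ⟨n, (ZMod.intCast_zmod_eq_zero_iff_dvd _ q).1 ?_⟩
  push_cast
  rw [hn]
  ring

/-- A fully reducible reduction. -/
theorem not_irr_of_bad {g : ℕ} (hg : 1 ≤ g) {f : (𝓞 F)[X]} (hm : f.Monic)
    (hd : f.natDegree = 2 * g + 1) {v : HeightOneSpectrum (𝓞 F)}
    (h : ∀ j ≤ 2 * g, f.coeff j ∈ v.asIdeal ^ (2 * g + 1 - j)) :
    ¬ Irreducible (rd v.asIdeal f) := by
  haveI : v.asIdeal.IsMaximal := v.isMaximal
  letI : Field (𝓞 F ⧸ v.asIdeal) := Ideal.Quotient.field v.asIdeal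
  have e : rd v.asIdeal f = X ^ (2 * g + 1) := by
    unfold rd
    refine Pool.Agent.N547.PF.map_eq_X_pow _ f _ hm hd fun j hj => ?_
    rw [Ideal.Quotient.eq_zero_iff_mem]
    exact Ideal.pow_le_self (by omega) (h j (by omega))
  rw [e]
  exact not_irreducible_pow (by omega)

variable {M M' : Type} [Field M] [NumberField M] [Field M']
  [NumberField M'] [Algebra F M] [Algebra M M'] [Algebra F M'] [IsScalarTower F M M']

/-- Quadratic extensions of admissible fields. -/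
theorem adm_quadH {g : ℕ} (hg : 1 ≤ g) {f : (𝓞 F)[X]} (hm : f.Monic)
    (hd : f.natDegree = 2 * g + 1) {l : ℕ} (hl8 : l % 8 = 1)
    (hnr : ∀ v : HeightOneSpectrum (𝓞 F), (l : 𝓞 F) ∈ v.asIdeal → Irreducible (rd v.asIdeal f))
    (hq : ∀ v : HeightOneSpectrum (𝓞 F), (∀ j ≤ 2 * g, f.coeff j ∈ v.asIdeal ^ (2 * g + 1 - j)) →
      (2 : 𝓞 F) ∉ v.asIdeal ∧ ∃ m : ℤ, ((m : 𝓞 F) ^ 2 - (l : 𝓞 F)) ∈ v.asIdeal)
    {x : M'} (hx : x ^ 2 = (l : M')) (htop : M⟮x⟯ = ⊤) (h : AdmH F M g f) : AdmH F M' g f := by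
  haveI := h.galois
  obtain ⟨n, hn⟩ := h.deg
  have uu : ∀ w' : HeightOneSpectrum (𝓞 M'),
      (w'.under (𝓞 M)).under (𝓞 F) = w'.under (𝓞 F) := by
    intro w'
    ext a
    rw [mem_under, mem_under, mem_under]
    have e : algebraMap (𝓞 M) (𝓞 M') (algebraMap (𝓞 F) (𝓞 M) a) = algebraMap (𝓞 F) (𝓞 M') a := by
      apply RingOfIntegers.ext
      show algebraMap M M' (algebraMap F M (a : F)) = algebraMap F M' (a : F)
      rw [← IsScalarTower.algebraMap_apply F M M']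
    rw [e]
  have htwo : ∀ w' : HeightOneSpectrum (𝓞 M'), (2 : 𝓞 M') ∈ w'.asIdeal → Tot F w' := by
    intro w' hw'
    refine tot_quad2 hl8 hx htop (h.two _ ?_) hw'
    have e2 := nat_mem_under (L := M) w' 2
    rw [Nat.cast_ofNat, Nat.cast_ofNat] at e2
    rw [e2]
    exact hw'
  refine ⟨normal_quad hx htop, deg_quad hx htop hn, htwo, ?_, ?_, ?_⟩
  · intro w' h1
    have h3 : Tot F (w'.under (𝓞 M)) := by
      refine h.bad _ ?_
      rw [uu]
      exact h1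
    obtain ⟨h4, m, hmm⟩ := hq _ h1
    refine tot_quad hx htop h3 ?_ ?_ ⟨m, ?_⟩
    · have e2 := nat_mem_under (L := F) w' 2
      rw [Nat.cast_ofNat, Nat.cast_ofNat] at e2
      rw [← e2]
      exact h4
    · intro h5
      rw [← nat_mem_under (L := F)] at h5
      exact not_irr_of_bad hg hm hd h1 (hnr _ h5)
    · rw [mem_under, map_sub, map_pow, map_intCast, map_natCast] at hmm
      exact hmm
  · intro σ
    obtain ⟨ρ, rfl⟩ := h.real σ
    obtain ⟨ρ', hρ'⟩ := real_quad hx htop ρ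
    refine ⟨ρ', ?_⟩
    rw [← hρ', RingHom.comp_assoc, ← IsScalarTower.algebraMap_eq F M M']
  · intro w' hw'
    by_cases hl : (l : 𝓞 M') ∈ w'.asIdeal
    · rw [← nat_mem_under (L := F)] at hl
      exact hnr _ hl
    have h2 : (2 : 𝓞 M') ∉ w'.asIdeal := fun h2 => hw' (htwo w' h2).unr
    have h3 : ¬ Unr F (w'.under (𝓞 M)) := by
      intro h3
      apply hw'
      unfold Unr
      rw [eq_bot_iff]
      intro σ hσ
      rw [Subgroup.mem_bot]
      have hfix := fix_of_inertia h3 hσ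
      rcases pm hx σ with h4 | h4
      · exact eq_one_of htop hfix h4
      · exfalso
        have hxi : IsIntegral ℤ x := by
          have h1 : IsIntegral ℤ (x ^ 2) := by
            rw [hx]
            exact isIntegral_natCast _
          exact h1.of_pow (by norm_num)
        obtain ⟨ξ, hξ⟩ : ∃ ξ : 𝓞 M', (ξ : M') = x := ⟨⟨x, hxi⟩, rfl⟩
        have hξ2 : ξ ^ 2 = (l : 𝓞 M') := by
          apply RingOfIntegers.ext
          exact (map_pow (algebraMap (𝓞 M') M') ξ 2).trans ((congrArg (· ^ 2) hξ).trans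
            (hx.trans (map_natCast (algebraMap (𝓞 M') M') l).symm))
        have hσξ : σ • ξ = -ξ := by
          apply RingOfIntegers.ext
          rw [Pool.Agent.H14U.smul_coe, hξ, h4, ← hξ]
          simp
        have h5 : σ • ξ - ξ ∈ w'.asIdeal := hσ ξ
        rw [hσξ] at h5
        have h6 : (2 : 𝓞 M') * ξ ∈ w'.asIdeal := by
          have e : (2 : 𝓞 M') * ξ = -(-ξ - ξ) := by ring
          rw [e]
          exact Ideal.neg_mem_iff _ |>.2 h5
        apply hl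
        rw [← hξ2, pow_two]
        exact Ideal.mul_mem_left _ _ ((w'.isPrime.mem_or_mem h6).resolve_left h2)
    have h4 := h.ram _ h3
    rw [uu] at h4
    exact h4

/-- The prime numbers `l` such that adjoining `√l` preserves admissibility. -/
def LamH (F : Type) [Field F] [NumberField F] (g : ℕ) (f : (𝓞 F)[X]) : Set ℕ :=
  {l : ℕ | l.Prime ∧
    ∀ (M M' : Type) [Field M] [NumberField M] [Field M'] [NumberField M'] [Algebra F M]
      [Algebra M M'] [Algebra F M'] [IsScalarTower F M M'] (x : M'),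
      x ^ 2 = (l : M') → M⟮x⟯ = ⊤ → AdmH F M g f → AdmH F M' g f}

theorem lamH_infinite {L : Type} [Field L] [NumberField L] [Algebra F L] {g W : ℕ}
    {f f₁ : (𝓞 F)[X]} {θ : L} {S J : Finset ℕ} {𝔮 : ℕ → Ideal (𝓞 F)}
    {r P : ℕ → (𝓞 F)[X]} (D : Dat g W f f₁ θ S J 𝔮 r P) (ht : f.coeff (2 * g) = 0)
    (hirr : ∀ v : HeightOneSpectrum (𝓞 F), (W : 𝓞 F) ∈ v.asIdeal →
      Irreducible (Pool.Agent.N352.PF.rv v f₁))
    (hp : ∃ p, p ∣ W ∧ SplP F p) :
    (LamH F g (f.scaleRoots ((Dp J : ℕ) : 𝓞 F))).Infinite := by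
  have hm := D.gen.mon
  have hd := D.gen.deg
  have hg := D.hg
  obtain ⟨p, ⟨k, hk⟩, hp⟩ := hp
  have hirrF : Irreducible (fF f) := Pool.Agent.N667.PF.irr F g W f₁ f D.gf D.one hm hd
  have hnr : ∀ v : HeightOneSpectrum (𝓞 F), (W : 𝓞 F) ∈ v.asIdeal →
      Irreducible (rd v.asIdeal f) := by
    intro v hv
    have e1 := Pool.Agent.N78.PF.rd_eq (Pool.Agent.N78.PF.sp_le hv) D.one
    rw [e1]
    exact hirr _ hv
  have hinf := infinite_lH hp hm (by rw [hd]; exact ⟨g, rfl⟩) (fun v hv => hnr v (by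
      rw [hk, Nat.cast_mul]
      exact Ideal.mul_mem_right _ _ hv)) hirrF.separable J (fun q hq => by
    obtain ⟨a1, a2, a3, a4, -⟩ := D.gs q (D.sub hq)
    exact ⟨a1, by omega⟩)
  have hfin : {l : ℕ | l ∈ J}.Finite := J.finite_toSet
  refine (hinf.diff hfin).mono ?_
  rintro l ⟨⟨hl, hl8, hlnr, hlJ⟩, hlJ'⟩
  have hlJ'' : l ∉ J := hlJ'
  -- `l` and the elements of `J`
  have hcop : ∀ q ∈ J, ∀ v : HeightOneSpectrum (𝓞 F), (q : 𝓞 F) ∈ v.asIdeal →
      (l : 𝓞 F) ∉ v.asIdeal := by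
    intro q hq v h1 h2
    obtain ⟨a1, -⟩ := D.gs q (D.sub hq)
    have hne : l ≠ q := fun h => hlJ'' (h ▸ hq)
    obtain ⟨a, b, hab⟩ := Nat.isCoprime_iff_coprime.2 ((Nat.coprime_primes hl a1).2 hne)
    apply v.isPrime.ne_top
    rw [Ideal.eq_top_iff_one]
    have h3 : ((a : 𝓞 F) * (l : 𝓞 F) + (b : 𝓞 F) * (q : 𝓞 F)) = 1 := by
      exact_mod_cast congrArg (Int.cast : ℤ → 𝓞 F) hab
    rw [← h3]
    exact Ideal.add_mem _ (Ideal.mul_mem_left _ _ h2) (Ideal.mul_mem_left _ _ h1)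
  have hmD : (f.scaleRoots ((Dp J : ℕ) : 𝓞 F)).Monic := (monic_scaleRoots_iff _).2 hm
  have hdD : (f.scaleRoots ((Dp J : ℕ) : 𝓞 F)).natDegree = 2 * g + 1 := by
    rw [natDegree_scaleRoots, hd]
  refine ⟨hl, ?_⟩
  intro M M' _ _ _ _ _ _ _ _ x hx htop hadm
  refine adm_quadH hg hmD hdD hl8 ?_ ?_ hx htop hadm
  · intro v hv
    rw [rd_scale hm]
    haveI : v.asIdeal.IsMaximal := v.isMaximal
    letI : Field (𝓞 F ⧸ v.asIdeal) := Ideal.Quotient.field v.asIdeal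
    refine Pool.Agent.N170.PF.irr_scale ?_ (hlnr v hv)
    intro h0
    rw [Ideal.Quotient.eq_zero_iff_mem] at h0
    obtain ⟨q, hq, hqv⟩ := D.exists_q h0
    exact hcop q hq v hqv hv
  · intro v h1
    have h1' : ∀ j ≤ 2 * g, f.coeff j * ((Dp J : ℕ) : 𝓞 F) ^ (2 * g + 1 - j) ∈
        v.asIdeal ^ (2 * g + 1 - j) := by
      intro j hj
      have := h1 j hj
      rwa [coeff_scaleRoots, hd] at this
    obtain ⟨q, hq, hqv⟩ := D.exists_q (dp_mem_ofH hg hm hd ht D.sqf h1')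
    obtain ⟨a1, a2, -⟩ := D.gs q (D.sub hq)
    constructor
    · intro h3
      refine not_both a1 D.gf.pos a2 ?_ hqv
      obtain ⟨k', hk'⟩ := D.gf.two
      rw [hk']
      push_cast
      exact Ideal.mul_mem_right _ _ h3
    · obtain ⟨m, n, hn⟩ := hlJ q hq
      refine ⟨m, ?_⟩
      have e : (m : 𝓞 F) ^ 2 - (l : 𝓞 F) = (q : 𝓞 F) * (n : 𝓞 F) := by
        exact_mod_cast congrArg (Int.cast : ℤ → 𝓞 F) hn
      rw [e]
      exact Ideal.mul_mem_right _ _ hqv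

end

end Pool.Agent.H14P
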