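import Pool.Agent.H14P.Dv

/-!
# Lattices in subspaces

By helper14.
-/

set_option autoImplicit false
set_option linter.all false

open Polynomial

noncomputable section

namespace Pool.Agent.H14P

/-- The coefficient functionals. -/
def co {E : Type} [CommRing E] (f : E[X]) (s : Bool) (i : ℕ) : Q f →ₗ[E] E where
  toFun z := if s then z.re.coeff i else z.im.coeff i
  map_add' z w := by
    cases s <;> simp
  map_smul' c z := by
    cases s <;> simp

theorem co_mp {E E' : Type} [CommRing E] [CommRing E'] {f : E[X]} (φ : E →+* E') (s : Bool) (i : ℕ)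
    (z : Q f) : co (f.map φ) s i (mp φ f z) = φ (co f s i z) := by
  cases s <;> simp [co, mp_re, mp_im]

theorem exists_co {E : Type} [CommRing E] {f : E[X]} {z : Q f} (hz : z ≠ 0) :
    ∃ s i, co f s i z ≠ 0 := by
  by_contra hc
  push Not at hc
  apply hz
  refine QuadraticAlgebra.ext ?_ ?_
  · ext i
    exact hc true i
  · ext i
    exact hc false i

theorem cc_C_smul {E : Type} [CommRing E] {f : E[X]} (c : E) (z : Q f) : cc f (C c) * z = c • z := by
  rw [cc_mul]
  refine QuadraticAlgebra.ext ?_ ?_
  · simp [smul_eq_C_mul]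
  · simp [smul_eq_C_mul]

variable {O K k : Type} [CommRing O] [IsDomain O] [Field K] [Field k] [Algebra O K]

variable {π : O} {ρ : O →+* k} (h : DV K π ρ) {f : O[X]}

include h

/-- Elements with independent reductions. -/
theorem lat (n : ℕ) : ∀ (V : Type) [AddCommGroup V] [Module K V] [FiniteDimensional K V]
    (T : V →ₗ[K] Q (f.map (algebraMap O K))), Function.Injective T → n ≤ Module.finrank K V →
    ∃ a : Fin n → Q f, (∀ i, ∃ x, mp (algebraMap O K) f (a i) = T x) ∧
      LinearIndependent k (fun i => mp ρ f (a i)) := by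
  induction n with
  | zero =>
    intro V _ _ _ T _ _
    exact ⟨Fin.elim0, fun i => i.elim0, linearIndependent_empty_type⟩
  | succ n ih =>
    intro V _ _ _ T hT hn
    have hpos : 0 < Module.finrank K V := by omega
    haveI : Nontrivial V := Module.finrank_pos_iff.1 hpos
    obtain ⟨x, hx⟩ := exists_ne (0 : V)
    have hTx : T x ≠ 0 := fun h0 => hx (hT (by rw [h0, map_zero]))
    obtain ⟨N, w, hw⟩ := h.qfrac (T x)
    have hpn : ∀ N : ℕ, algebraMap O K (π ^ N) ≠ 0 := fun N h0 =>
      pow_ne_zero N h.ne (h.inj (by rw [h0, map_zero]))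
    have hw0 : w ≠ 0 := by
      rintro rfl
      rw [map_zero, cc_C_smul] at hw
      exact hTx ((smul_eq_zero.1 hw).resolve_left (hpn N))
    obtain ⟨M, b, hb, hb0⟩ := h.qfac hw0
    have hbT : mp (algebraMap O K) f b = T ((algebraMap O K (π ^ M))⁻¹ • algebraMap O K (π ^ N) • x) := by
      rw [map_smul, map_smul, ← cc_C_smul (algebraMap O K (π ^ N)), hw, hb, map_mul, mp_cc, map_C,
        cc_C_smul, smul_smul, inv_mul_cancel₀ (hpn M), one_smul]
    obtain ⟨s, i, hsi⟩ := exists_co hb0
    let L : V →ₗ[K] K := (co (f.map (algebraMap O K)) s i).comp T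
    have hfr : n ≤ Module.finrank K (LinearMap.ker L) := by
      have h1 := LinearMap.finrank_range_add_finrank_ker L
      have h2 : Module.finrank K (LinearMap.range L) ≤ 1 := by
        refine (Submodule.finrank_le _).trans ?_
        rw [Module.finrank_self]
      omega
    obtain ⟨a, ha, hli⟩ := ih (LinearMap.ker L) (T.comp (LinearMap.ker L).subtype)
      (hT.comp Subtype.val_injective) hfr
    refine ⟨Fin.cons b a, ?_, ?_⟩
    · intro j
      refine Fin.cases ?_ (fun j => ?_) j
      · exact ⟨_, hbT⟩
      · obtain ⟨y, hy⟩ := ha j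
        exact ⟨y.1, hy⟩
    · have e1 : (fun j => mp ρ f ((Fin.cons b a : Fin (n + 1) → Q f) j)) =
          Fin.cons (mp ρ f b) (fun j => mp ρ f (a j)) := by
        funext j
        refine Fin.cases ?_ (fun j => ?_) j
        · rfl
        · rfl
      rw [e1, linearIndependent_finCons]
      refine ⟨hli, fun hmem => hsi ?_⟩
      have h1 : Submodule.span k (Set.range fun j => mp ρ f (a j)) ≤
          LinearMap.ker (co (f.map ρ) s i) := by
        rw [Submodule.span_le]
        rintro _ ⟨j, rfl⟩
        obtain ⟨y, hy⟩ := ha j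
        have h2 : co (f.map (algebraMap O K)) s i (mp (algebraMap O K) f (a j)) = 0 := by
          rw [hy]
          exact y.2
        rw [co_mp] at h2
        have h3 : co f s i (a j) = 0 := h.inj (by rw [h2, map_zero])
        show co (f.map ρ) s i (mp ρ f (a j)) = 0
        rw [co_mp, h3, map_zero]
      exact h1 hmem

end Pool.Agent.H14P
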