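import Pool.Agent.H14P.Mum

/-!
# Elements of small degree in the square of an ideal

By helper14.
-/

set_option autoImplicit false
set_option linter.all false

open Polynomial

noncomputable section

namespace Pool.Agent.H14P

variable {K : Type} [Field K]

theorem finrank_degreeLT (n : ℕ) : Module.finrank K (degreeLT K n) = n := by
  rw [(degreeLTEquiv K n).finrank_eq, Module.finrank_fin_fun]

instance (n : ℕ) : Module.Finite K (degreeLT K n) :=
  Module.Finite.equiv (degreeLTEquiv K n).symm

/-- division with remainder is linear -/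
def dvL (u : K[X]) (hu : u.Monic) : K[X] →ₗ[K] K[X] where
  toFun p := p /ₘ u
  map_add' p q := by
    have h1 := modByMonic_add_div p u
    have h2 := modByMonic_add_div q u
    refine (div_modByMonic_unique (p /ₘ u + q /ₘ u) (p %ₘ u + q %ₘ u) hu ⟨?_, ?_⟩).1
    · rw [mul_add]
      linear_combination h1 + h2
    · exact (degree_add_le _ _).trans_lt (max_lt (degree_modByMonic_lt _ hu)
        (degree_modByMonic_lt _ hu))
  map_smul' c p := by
    have h1 := modByMonic_add_div p u
    refine (div_modByMonic_unique (c • (p /ₘ u)) (c • (p %ₘ u)) hu ⟨?_, ?_⟩).1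
    · rw [mul_smul_comm, ← smul_add, h1]
    · exact (degree_smul_le _ _).trans_lt (degree_modByMonic_lt _ hu)

variable {f : K[X]} {u v w : K[X]} (hu : u.Monic) (g d : ℕ)

/-- The parametrization. -/
def TTL (f : K[X]) {u : K[X]} (hu : u.Monic) (v : K[X]) : K[X] × K[X] →ₗ[K] Q f where
  toFun x := ⟨u * x.1 - (x.2 * v) %ₘ u, x.2⟩
  map_add' x y := by
    refine QuadraticAlgebra.ext ?_ ?_
    · simp only [Prod.fst_add, Prod.snd_add, QuadraticAlgebra.re_add, add_mul,
        add_modByMonic]
      ring
    · simp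
  map_smul' c x := by
    refine QuadraticAlgebra.ext ?_ ?_
    · simp only [Prod.smul_fst, Prod.smul_snd, smul_mul_assoc, smul_modByMonic, RingHom.id_apply,
        QuadraticAlgebra.re_smul, smul_sub, mul_smul_comm]
    · simp

/-- The obstruction. -/
def PsL {u : K[X]} (hu : u.Monic) (v w : K[X]) : K[X] × K[X] →ₗ[K] K[X] where
  toFun x := (2 * v * (x.1 + (x.2 * v) /ₘ u) + w * x.2) %ₘ u
  map_add' x y := by
    have h1 : ((x.2 + y.2) * v) /ₘ u = (x.2 * v) /ₘ u + (y.2 * v) /ₘ u := by
      rw [add_mul]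
      exact (dvL u hu).map_add _ _
    rw [← add_modByMonic]
    congr 1
    simp only [Prod.fst_add, Prod.snd_add, h1]
    ring
  map_smul' c x := by
    have h1 : ((c • x.2) * v) /ₘ u = c • ((x.2 * v) /ₘ u) := by
      rw [smul_mul_assoc]
      exact (dvL u hu).map_smul c _
    rw [RingHom.id_apply, ← smul_modByMonic]
    congr 1
    simp only [Prod.smul_fst, Prod.smul_snd, h1]
    simp only [smul_eq_C_mul]
    ring

/-- The parameter space. -/
def Vsp {u : K[X]} (hu : u.Monic) (v w : K[X]) (g : ℕ) :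
    Submodule K (degreeLT K (g + 1) × degreeLT K u.natDegree) :=
  LinearMap.ker ((PsL hu v w).comp
    (LinearMap.prodMap (degreeLT K (g + 1)).subtype (degreeLT K u.natDegree).subtype))

theorem le_finrank_Vsp : g + 1 ≤ Module.finrank K (Vsp hu v w g) := by
  have h1 := LinearMap.finrank_range_add_finrank_ker ((PsL hu v w).comp
    (LinearMap.prodMap (degreeLT K (g + 1)).subtype (degreeLT K u.natDegree).subtype))
  rw [Module.finrank_prod, finrank_degreeLT, finrank_degreeLT] at h1
  have h2 : Module.finrank K (LinearMap.range ((PsL hu v w).comp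
      (LinearMap.prodMap (degreeLT K (g + 1)).subtype (degreeLT K u.natDegree).subtype))) ≤
      u.natDegree := by
    have h3 : LinearMap.range ((PsL hu v w).comp
      (LinearMap.prodMap (degreeLT K (g + 1)).subtype (degreeLT K u.natDegree).subtype)) ≤
        degreeLT K u.natDegree := by
      rintro _ ⟨x, rfl⟩
      rw [mem_degreeLT, ← degree_eq_natDegree hu.ne_zero]
      exact degree_modByMonic_lt _ hu
    have h4 := Submodule.finrank_mono h3
    rwa [finrank_degreeLT] at h4
  unfold Vsp
  omega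

/-- The parametrization of the space. -/
def TW (f : K[X]) {u : K[X]} (hu : u.Monic) (v w : K[X]) (g : ℕ) : Vsp hu v w g →ₗ[K] Q f :=
  ((TTL f hu v).comp (LinearMap.prodMap (degreeLT K (g + 1)).subtype
    (degreeLT K u.natDegree).subtype)).comp (Vsp hu v w g).subtype

theorem TW_inj : Function.Injective (TW f hu v w g) := by
  intro x y hxy
  rw [← sub_eq_zero]
  have h00 : TW f hu v w g (x - y) = TW f hu v w g x - TW f hu v w g y :=
    map_sub (TW f hu v w g) x y
  have h0 : TW f hu v w g (x - y) = 0 := by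
    rw [h00, hxy, sub_self]
  revert h0
  generalize x - y = x'
  revert x'
  rintro ⟨⟨⟨p, hp⟩, ⟨q, hq⟩⟩, hx⟩ h
  have h1 : q = 0 := congrArg QuadraticAlgebra.im h
  subst h1
  have h2 : u * p - ((0 : K[X]) * v) %ₘ u = 0 := congrArg QuadraticAlgebra.re h
  rw [zero_mul, zero_modByMonic, sub_zero] at h2
  have h3 : p = 0 := (mul_eq_zero.1 h2).resolve_left hu.ne_zero
  subst h3
  rfl

theorem TW_mem (hsq : Squarefree f) (h2 : (2 : K) ≠ 0) (hw : f - v ^ 2 = u * w)
    (x : Vsp hu v w g) : TW f hu v w g x ∈ Mu f u v ^ 2 := by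
  obtain ⟨⟨⟨p, hp⟩, ⟨q, hq⟩⟩, hx⟩ := x
  have h1 : (2 * v * (p + (q * v) /ₘ u) + w * q) %ₘ u = 0 := hx
  refine mem_sq hsq h2 hw (p := p + (q * v) /ₘ u) ?_ ?_
  · show (u * p - (q * v) %ₘ u) + q * v = _
    have h3 := modByMonic_add_div (q * v) u
    linear_combination -h3
  · exact (modByMonic_eq_zero_iff_dvd hu).1 h1

theorem TW_deg (hm : f.Monic) (hd : f.natDegree = 2 * g + 1) (x : Vsp hu v w g) :
    (nm (TW f hu v w g x)).natDegree ≤ 2 * g + 2 * u.natDegree := by
  obtain ⟨⟨⟨p, hp⟩, ⟨q, hq⟩⟩, hx⟩ := x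
  rw [mem_degreeLT] at hp hq
  have h1 : (u * p - (q * v) %ₘ u).natDegree ≤ g + u.natDegree := by
    refine (natDegree_sub_le _ _).trans (max_le ?_ ?_)
    · refine natDegree_mul_le.trans ?_
      have : p.natDegree ≤ g := by
        by_cases h0 : p = 0
        · rw [h0]; simp
        · rw [degree_eq_natDegree h0] at hp
          have := Nat.cast_lt.1 hp
          omega
      omega
    · have := natDegree_modByMonic_le (q * v) hu
      omega
  have h2 : (nm (TW f hu v w g ⟨⟨⟨p, mem_degreeLT.2 hp⟩, ⟨q, mem_degreeLT.2 hq⟩⟩, hx⟩)) =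
      (u * p - (q * v) %ₘ u) * (u * p - (q * v) %ₘ u) - f * q * q := rfl
  rw [h2]
  refine (natDegree_sub_le _ _).trans (max_le ?_ ?_)
  · refine natDegree_mul_le.trans ?_
    omega
  · by_cases h0 : q = 0
    · rw [h0]; simp
    · rw [degree_eq_natDegree h0] at hq
      have hq' := Nat.cast_lt.1 hq
      have h3 : (f * q * q).natDegree ≤ 2 * g + 1 + q.natDegree + q.natDegree := by
        refine natDegree_mul_le.trans ?_
        have := natDegree_mul_le (p := f) (q := q)
        omega
      omega

end Pool.Agent.H14P
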