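import Pool.Agent.H14P.Sat
import Pool.Agent.H14P.Lat
import Pool.Agent.H14P.Wsp

/-!
# The local argument

By helper14.
-/

set_option autoImplicit false
set_option linter.all false

open Polynomial

noncomputable section

namespace Pool.Agent.H14P

/-- in characteristic 2 conjugation is trivial -/
theorem cj_two {k : Type} [Field k] {f : k[X]} (h2 : (2 : k) = 0) (z : Q f) : cj f z = z := by
  refine QuadraticAlgebra.ext rfl ?_
  show -z.im = z.im
  have h3 : (2 : k[X]) = 0 := by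
    have : (2 : k[X]) = C 2 := (map_ofNat C 2).symm
    rw [this, h2, C_0]
  linear_combination (-z.im) * h3

section K

variable {K : Type} [Field K] {f : K[X]} (hsq : Squarefree f) (h2 : (2 : K) ≠ 0)

include hsq h2

/-- the norm of an element of a power -/
theorem nm_pow_dvd {u v : K[X]} (huv : u ∣ f - v ^ 2) {z : Q f} {n : ℕ}
    (hz : z ∈ Mu f u v ^ n) : u ^ n ∣ nm z := by
  have h1 : z * cj f z ∈ Mu f u v ^ n * Mu f u (-v) ^ n :=
    Ideal.mul_mem_mul hz (cj_mem_pow huv hz)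
  rw [← mul_pow, Mu_mul hsq h2 huv, Ideal.span_singleton_pow, Ideal.mem_span_singleton, ← map_pow,
    ← cc_nm, cc_dvd] at h1
  exact h1.1

end K

variable {O K k : Type} [CommRing O] [IsDomain O] [Field K] [Field k] [Algebra O K]

variable {π : O} {ρ : O →+* k} (h : DV K π ρ) {f : O[X]} {g : ℕ} (hm : f.Monic)
  (hd : f.natDegree = 2 * g + 1)

include h hm hd in
/-- Gauss's lemma for polynomials -/
theorem gaussP {z δ : O[X]} (hδ : δ.map ρ ≠ 0)
    (hzw : δ.map (algebraMap O K) ∣ z.map (algebraMap O K)) : ∃ w : O[X], z = δ * w := by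
  haveI := isDomain_Q (hm.map ρ) (g := g) (by rw [hm.natDegree_map, hd])
  obtain ⟨w, hw⟩ := hzw
  obtain ⟨w', -, hw'⟩ := h.gauss (f := f) (z := cc f z) (δ := cc f δ)
    (w := cc _ w) (by rw [mp_cc]; exact cc_ne hδ) (by rw [mp_cc, mp_cc, hw, map_mul])
  refine ⟨w'.re, ?_⟩
  rw [cc_mul] at hw'
  exact congrArg QuadraticAlgebra.re hw'

variable (hreg : Reg π ρ f) (h2 : π ∣ 2)
  (hsq : Squarefree (f.map (algebraMap O K))) (h2K : (2 : K) ≠ 0)

include h hm hd hreg h2 hsq h2K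

theorem redG {u v : K[X]} (huv : u ∣ f.map (algebraMap O K) - v ^ 2) {ut : O[X]} {l : K}
    (hl : l ≠ 0) (hu : ut.map (algebraMap O K) = C l * u) (hu0 : ut.map ρ ≠ 0) (m : ℕ) {w : Q f}
    (hw : mp (algebraMap O K) f w ∈ Mu (f.map (algebraMap O K)) u v ^ (2 * m)) :
    ∃ w', mp ρ f w = cc _ ((ut.map ρ) ^ m) * w' := by
  haveI := isDomain_Q (hm.map ρ) (g := g) (by rw [hm.natDegree_map, hd])
  have hπ : algebraMap O K π ≠ 0 := fun h0 => h.ne (h.inj (by rw [h0, map_zero]))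
  have hρ2 : (2 : k) = 0 := by
    have := (h.ker 2).2 h2
    rwa [map_ofNat] at this
  set I : Ideal (Q f) := (Mu (f.map (algebraMap O K)) u v ^ m).comap (mp (algebraMap O K) f)
    with hI
  have hsat : Sat π I := by
    intro b hb
    rw [hI, Ideal.mem_comap, map_mul, mp_cc, map_C] at hb
    rw [hI, Ideal.mem_comap]
    have e : mp (algebraMap O K) f b = cc _ (C (algebraMap O K π)⁻¹) *
        (cc _ (C (algebraMap O K π)) * mp (algebraMap O K) f b) := by
      rw [← mul_assoc, ← map_mul, ← C_mul, inv_mul_cancel₀ hπ, C_1, cc_one, one_mul]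
    rw [e]
    exact Ideal.mul_mem_left _ _ hb
  have hprim : ∃ b ∈ I, mp ρ f b ≠ 0 := by
    refine ⟨cc f (ut ^ m), ?_, ?_⟩
    · rw [hI, Ideal.mem_comap, mp_cc, Polynomial.map_pow, hu, map_pow]
      refine Ideal.pow_mem_pow ?_ m
      rw [map_mul]
      exact Ideal.mul_mem_left _ _ (Ideal.subset_span (by simp))
    · rw [mp_cc, Polynomial.map_pow]
      exact cc_ne (pow_ne_zero m hu0)
  refine mult h hm hd hsat hprim hreg h2 ((ut.map ρ) ^ m) (pow_ne_zero m hu0) (mp ρ f w) ?_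
  intro b hb
  have h3 : mp (algebraMap O K) f w * cj _ (mp (algebraMap O K) f b) ∈
      Mu (f.map (algebraMap O K)) u v ^ m * Ideal.span {cc _ u ^ m} := by
    have e : Mu (f.map (algebraMap O K)) u v ^ m * Ideal.span {cc _ u ^ m} =
        Mu (f.map (algebraMap O K)) u v ^ (2 * m) * Mu (f.map (algebraMap O K)) u (-v) ^ m := by
      rw [two_mul, pow_add, mul_assoc, ← mul_pow, Mu_mul hsq h2K huv, Ideal.span_singleton_pow]
    rw [e]
    exact Ideal.mul_mem_mul hw (cj_mem_pow huv hb)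
  rw [Ideal.mem_mul_span_singleton] at h3
  obtain ⟨b', hb', e⟩ := h3
  have hlm : l ^ m ≠ 0 := pow_ne_zero m hl
  obtain ⟨w', hw', ew⟩ := h.gauss (z := w * cj f b) (δ := cc f (ut ^ m))
    (w := cc _ (C (l ^ m)⁻¹) * b')
    (by rw [mp_cc, Polynomial.map_pow]; exact cc_ne (pow_ne_zero m hu0))
    (by
      rw [map_mul, mp_cj, ← e, mp_cc, Polynomial.map_pow, hu, mul_pow, ← C_pow]
      have e2 : cc (f.map (algebraMap O K)) (C (l ^ m) * u ^ m) * (cc _ (C (l ^ m)⁻¹) * b') =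
          cc _ (C (l ^ m) * C (l ^ m)⁻¹) * cc _ u ^ m * b' := by
        rw [map_mul, map_mul, map_pow (cc (f.map (algebraMap O K))) u m]; ring
      rw [e2, ← C_mul, mul_inv_cancel₀ hlm, C_1, cc_one, one_mul, mul_comm])
  refine ⟨w', ?_, ?_⟩
  · rw [hI, Ideal.mem_comap, hw']
    exact Ideal.mul_mem_left _ _ hb'
  · have e3 := congrArg (mp ρ f) ew
    rw [map_mul, mp_cj, cj_two hρ2, map_mul, mp_cc, Polynomial.map_pow] at e3
    exact e3

/-- reductions of elements of small degree -/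
theorem redN {u v : K[X]} (huv : u ∣ f.map (algebraMap O K) - v ^ 2) (hu1 : u ≠ 0) {ut : O[X]}
    {l : K} (hl : l ≠ 0) (hu : ut.map (algebraMap O K) = C l * u) (hu0 : ut.map ρ ≠ 0) {b : Q f}
    (hb : mp (algebraMap O K) f b ∈ Mu (f.map (algebraMap O K)) u v ^ 2)
    (hdeg : (nm b).natDegree ≤ 2 * g + 2 * u.natDegree) :
    ∃ r : k[X], r.natDegree ≤ g ∧ mp ρ f b = cc _ (ut.map ρ * r) := by
  have hm' : (f.map ρ).Monic := hm.map ρ
  have hd' : (f.map ρ).natDegree = 2 * g + 1 := by rw [hm.natDegree_map, hd]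
  obtain ⟨w, hw⟩ := redG h hm hd hreg h2 hsq h2K huv hl hu hu0 1 (w := b) (by rwa [mul_one])
  rw [pow_one] at hw
  have h1 : (ut ^ 2).map (algebraMap O K) ∣ (nm b).map (algebraMap O K) := by
    have h3 := nm_pow_dvd hsq h2K huv hb
    rw [← nm_mp, Polynomial.map_pow, hu, mul_pow, ← C_pow]
    obtain ⟨q, hq⟩ := h3
    refine ⟨C (l ^ 2)⁻¹ * q, ?_⟩
    have e : (C (l ^ 2) : K[X]) * C (l ^ 2)⁻¹ = 1 := by
      rw [← C_mul, mul_inv_cancel₀ (pow_ne_zero 2 hl), C_1]
    rw [hq]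
    linear_combination (-(u ^ 2 * q)) * e
  obtain ⟨U, hU⟩ := gaussP h hm hd (by rw [Polynomial.map_pow]; exact pow_ne_zero 2 hu0) h1
  have hutd : ut.natDegree = u.natDegree := by
    rw [← natDegree_map_eq_of_injective h.inj, hu, natDegree_C_mul hl]
  have hut0 : ut ≠ 0 := by
    rintro rfl
    rw [Polynomial.map_zero] at hu0
    exact hu0 rfl
  have hUd : U.natDegree ≤ 2 * g := by
    by_cases hU0 : U = 0
    · rw [hU0]; simp
    · rw [hU, natDegree_mul (pow_ne_zero 2 hut0) hU0, natDegree_pow, hutd] at hdeg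
      omega
  have e1 : nm w = U.map ρ := by
    have e2 : nm (mp ρ f b) = (nm b).map ρ := nm_mp ρ b
    rw [hw, nm_mul, nm_cc, hU, Polynomial.map_mul, Polynomial.map_pow, pow_two] at e2
    exact mul_left_cancel₀ (mul_ne_zero hu0 hu0) e2
  have h4 : (nm w).natDegree ≤ 2 * g := by
    rw [e1]
    exact natDegree_map_le.trans hUd
  obtain ⟨h5, h6⟩ := small hm' hd' h4
  refine ⟨w.re, h6, ?_⟩
  rw [hw, map_mul]
  congr 1
  exact QuadraticAlgebra.ext rfl h5

/-- existence of elements -/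
theorem exists_el {u v : K[X]} (huv : u ∣ f.map (algebraMap O K) - v ^ 2) (hu1 : u.Monic)
    {ut : O[X]} {l : K} (hl : l ≠ 0) (hu : ut.map (algebraMap O K) = C l * u)
    (hu0 : ut.map ρ ≠ 0) (p : k[X]) (hp : p.natDegree ≤ g) : ∃ b : Q f,
    mp (algebraMap O K) f b ∈ Mu (f.map (algebraMap O K)) u v ^ 2 ∧
    (nm b).natDegree ≤ 2 * g + 2 * u.natDegree ∧ mp ρ f b = cc _ (ut.map ρ * p) := by
  have hmK : (f.map (algebraMap O K)).Monic := hm.map _
  have hdK : (f.map (algebraMap O K)).natDegree = 2 * g + 1 := by rw [hm.natDegree_map, hd]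
  have huv' := huv
  obtain ⟨w, hw⟩ := huv
  obtain ⟨a, ha, hli⟩ := lat h (f := f) (g + 1) (Vsp hu1 v w g)
    (TW (f.map (algebraMap O K)) hu1 v w g) (TW_inj hu1 g) (le_finrank_Vsp hu1 g)
  choose x hx using ha
  have hnd : ∀ (b : Q f) (y : Vsp hu1 v w g),
      mp (algebraMap O K) f b = TW (f.map (algebraMap O K)) hu1 v w g y →
      mp (algebraMap O K) f b ∈ Mu (f.map (algebraMap O K)) u v ^ 2 ∧
      (nm b).natDegree ≤ 2 * g + 2 * u.natDegree := by
    intro b y hy
    constructor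
    · rw [hy]
      exact TW_mem hu1 g hsq h2K hw y
    · rw [← natDegree_map_eq_of_injective h.inj (nm b), ← nm_mp, hy]
      exact TW_deg hu1 g hmK hdK y
  have hr : ∀ i, ∃ r : k[X], r.natDegree ≤ g ∧ mp ρ f (a i) = cc _ (ut.map ρ * r) := by
    intro i
    obtain ⟨h3, h4⟩ := hnd (a i) (x i) (hx i)
    exact redN h hm hd hreg h2 hsq h2K huv' hu1.ne_zero hl hu hu0 h3 h4
  choose r hr1 hr2 using hr
  have hlt : ∀ q : k[X], q.natDegree ≤ g → q ∈ degreeLT k (g + 1) := by
    intro q hq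
    rw [mem_degreeLT]
    refine degree_le_natDegree.trans_lt ?_
    exact_mod_cast Nat.lt_succ_of_le hq
  let R : Fin (g + 1) → degreeLT k (g + 1) := fun i => ⟨r i, hlt _ (hr1 i)⟩
  have hRli : LinearIndependent k R := by
    rw [Fintype.linearIndependent_iff] at hli ⊢
    intro c hc
    apply hli
    have h3 : ∑ i, c i • r i = 0 := by
      have := congrArg Subtype.val hc
      simpa [R] using this
    calc ∑ i, c i • mp ρ f (a i) = ∑ i, cc _ (ut.map ρ) * (cc _ (c i • r i)) := by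
          refine Finset.sum_congr rfl fun i _ => ?_
          rw [hr2, ← cc_C_smul, ← map_mul, ← map_mul, smul_eq_C_mul]
          congr 1
          ring
      _ = cc _ (ut.map ρ) * cc _ (∑ i, c i • r i) := by rw [map_sum, Finset.mul_sum]
      _ = 0 := by rw [h3, cc_zero, mul_zero]
  have hspan : Submodule.span k (Set.range R) = ⊤ := by
    apply hRli.span_eq_top_of_card_eq_finrank
    rw [Fintype.card_fin, finrank_degreeLT]
  have hpm : (⟨p, hlt p hp⟩ : degreeLT k (g + 1)) ∈ Submodule.span k (Set.range R) := by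
    rw [hspan]
    trivial
  rw [Submodule.mem_span_range_iff_exists_fun] at hpm
  obtain ⟨c, hc⟩ := hpm
  choose c' hc' using fun i => h.surj (c i)
  have hy : mp (algebraMap O K) f (∑ i, cc f (C (c' i)) * a i) =
      TW (f.map (algebraMap O K)) hu1 v w g (∑ i, algebraMap O K (c' i) • x i) := by
    rw [map_sum]
    have e1 : TW (f.map (algebraMap O K)) hu1 v w g (∑ i, algebraMap O K (c' i) • x i) =
        ∑ i, TW (f.map (algebraMap O K)) hu1 v w g (algebraMap O K (c' i) • x i) :=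
      map_sum (TW (f.map (algebraMap O K)) hu1 v w g) _ _
    rw [e1]
    refine Finset.sum_congr rfl fun i _ => ?_
    have e2 : TW (f.map (algebraMap O K)) hu1 v w g (algebraMap O K (c' i) • x i) =
        algebraMap O K (c' i) • TW (f.map (algebraMap O K)) hu1 v w g (x i) :=
      map_smul (TW (f.map (algebraMap O K)) hu1 v w g) _ _
    rw [e2, map_mul, mp_cc, map_C, cc_C_smul, hx i]
  obtain ⟨h3, h4⟩ := hnd _ _ hy
  refine ⟨_, h3, h4, ?_⟩
  have h5 : ∑ i, c i • r i = p := by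
    have := congrArg Subtype.val hc
    simpa [R] using this
  rw [map_sum]
  calc ∑ i, mp ρ f (cc f (C (c' i)) * a i) = ∑ i, cc _ (ut.map ρ) * (cc _ (c i • r i)) := by
        refine Finset.sum_congr rfl fun i _ => ?_
        rw [map_mul, mp_cc, map_C, hc', hr2, ← map_mul, ← map_mul, smul_eq_C_mul]
        congr 1
        ring
    _ = cc _ (ut.map ρ) * cc _ (∑ i, c i • r i) := by rw [map_sum, Finset.mul_sum]
    _ = _ := by rw [h5, map_mul]

omit [IsDomain O] [Field K] [Field k] [Algebra O K] h hm hd hreg h2 hsq h2K in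
theorem pow_two_pow {A : Type} [CommRing A] {p s t : A} (hp : p ∣ 2) (n : ℕ) :
    ∃ t', (s + p * t) ^ (2 ^ n) = s ^ (2 ^ n) + p ^ (n + 1) * t' := by
  obtain ⟨e, he⟩ := hp
  induction n with
  | zero => exact ⟨t, by ring⟩
  | succ n ih =>
    obtain ⟨t', ht'⟩ := ih
    refine ⟨e * s ^ 2 ^ n * t' + p ^ n * t' ^ 2, ?_⟩
    rw [pow_succ 2 n, pow_mul, ht', pow_mul]
    have e1 : (s ^ 2 ^ n + p ^ (n + 1) * t') ^ 2 = (s ^ 2 ^ n) ^ 2 + 2 * (p ^ (n + 1) * s ^ 2 ^ n * t') +
        p ^ (n + 1) * p ^ (n + 1) * t' ^ 2 := by ring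
    rw [e1, he]
    ring

end Pool.Agent.H14P
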