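import Pool.Agent.H14P.Loc

/-!
# The local argument, second part

By helper14.
-/

set_option autoImplicit false
set_option linter.all false

open Polynomial

noncomputable section

namespace Pool.Agent.H14P

section K

variable {K : Type} [Field K] {f : K[X]}

theorem map_cj_Mu {u v : K[X]} (huv : u ∣ f - v ^ 2) : (Mu f u v).map (cj f) = Mu f u (-v) := by
  apply le_antisymm
  · rw [Ideal.map_le_iff_le_comap]
    intro w hw
    exact cj_mem_Mu huv hw
  · intro z hz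
    have h1 := cj_mem_Mu (by rwa [neg_sq]) hz
    rw [neg_neg] at h1
    rw [← cj_cj z]
    exact Ideal.mem_map_of_mem _ h1

/-- the norm of a generator -/
theorem nm_gen (hsq : Squarefree f) (h2 : (2 : K) ≠ 0) {u v p q : K[X]}
    (huv : u ∣ f - v ^ 2) (hpq : p ∣ f - q ^ 2) {φ : Q f} {n : ℕ}
    (hφ : Mu f u v ^ n * Mu f p q = Ideal.span {φ}) : ∃ e : K, e ≠ 0 ∧ nm φ = C e * (u ^ n * p) := by
  have h1 : Ideal.span {cc f (nm φ)} = Ideal.span {cc f (u ^ n * p)} := by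
    have h3 : Ideal.span {cj f φ} = Mu f u (-v) ^ n * Mu f p (-q) := by
      rw [← map_cj_Mu huv, ← map_cj_Mu hpq, ← Ideal.map_pow, ← Ideal.map_mul, hφ, Ideal.map_span,
        Set.image_singleton]
    rw [cc_nm, ← Ideal.span_singleton_mul_span_singleton, ← hφ, h3, mul_mul_mul_comm, ← mul_pow,
      Mu_mul hsq h2 huv, Mu_mul hsq h2 hpq, Ideal.span_singleton_pow,
      Ideal.span_singleton_mul_span_singleton, map_mul, map_pow]
  have h3 : u ^ n * p ∣ nm φ := by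
    have h4 : cc f (nm φ) ∈ Ideal.span {cc f (u ^ n * p)} := by
      rw [← h1]
      exact Ideal.mem_span_singleton_self _
    rw [Ideal.mem_span_singleton, cc_dvd] at h4
    exact h4.1
  have h4 : nm φ ∣ u ^ n * p := by
    have h5 : cc f (u ^ n * p) ∈ Ideal.span {cc f (nm φ)} := by
      rw [h1]
      exact Ideal.mem_span_singleton_self _
    rw [Ideal.mem_span_singleton, cc_dvd] at h5
    exact h5.1
  obtain ⟨e, he⟩ := associated_of_dvd_dvd h3 h4
  obtain ⟨e', he', he2⟩ := Polynomial.isUnit_iff.1 e.isUnit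
  refine ⟨e', he'.ne_zero, ?_⟩
  rw [← he, ← he2, mul_comm]

end K

variable {O K k : Type} [CommRing O] [IsDomain O] [Field K] [Field k] [Algebra O K]

variable {π : O} {ρ : O →+* k} (h : DV K π ρ) {f : O[X]} {g : ℕ} (hm : f.Monic)
  (hd : f.natDegree = 2 * g + 1)

section scale

include h

theorem pi_ne (N : ℕ) : algebraMap O K (π ^ N) ≠ 0 := fun h0 =>
  pow_ne_zero N h.ne (h.inj (by rw [h0, map_zero]))

theorem scale {p : K[X]} (hp : p ≠ 0) : ∃ (l : K) (q : O[X]), l ≠ 0 ∧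
    q.map (algebraMap O K) = C l * p ∧ q.map ρ ≠ 0 := by
  obtain ⟨N, q, hq⟩ := h.pfrac p
  have hq0 : q ≠ 0 := by
    rintro rfl
    rw [Polynomial.map_zero] at hq
    exact mul_ne_zero (C_ne_zero.2 (pi_ne h N)) hp hq
  obtain ⟨M, q', hq', hq1⟩ := h.pfac hq0
  refine ⟨(algebraMap O K (π ^ M))⁻¹ * algebraMap O K (π ^ N), q',
    mul_ne_zero (inv_ne_zero (pi_ne h M)) (pi_ne h N), ?_, hq1⟩
  rw [C_mul, mul_assoc, hq, hq', Polynomial.map_mul, map_C, ← mul_assoc, ← C_mul,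
    inv_mul_cancel₀ (pi_ne h M), C_1, one_mul]

theorem qscale {z : Q (f.map (algebraMap O K))} (hz : z ≠ 0) : ∃ (l : K) (w : Q f), l ≠ 0 ∧
    mp (algebraMap O K) f w = cc _ (C l) * z ∧ mp ρ f w ≠ 0 := by
  obtain ⟨N, q, hq⟩ := h.qfrac z
  have hq0 : q ≠ 0 := by
    rintro rfl
    rw [map_zero] at hq
    refine hz (cc_cancel (C_ne_zero.2 (pi_ne h N)) ?_)
    rw [hq, mul_zero]
  obtain ⟨M, q', hq', hq1⟩ := h.qfac hq0
  refine ⟨(algebraMap O K (π ^ M))⁻¹ * algebraMap O K (π ^ N), q',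
    mul_ne_zero (inv_ne_zero (pi_ne h M)) (pi_ne h N), ?_, hq1⟩
  rw [C_mul, map_mul, mul_assoc, hq, hq', map_mul, mp_cc, map_C, ← mul_assoc, ← map_mul, ← C_mul,
    inv_mul_cancel₀ (pi_ne h M), C_1, cc_one, one_mul]

end scale

/-- The elements `b` with `u ^ (2 m) b = Z ^ m w`, `w` in the power of the ideal. -/
def TP {K : Type} [Field K] {f : K[X]} (u v : K[X]) (Z : Q f) (m : ℕ) (b : Q f) : Prop :=
  ∃ w ∈ Mu f u v ^ (2 * m), cc f u ^ (2 * m) * b = Z ^ m * w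

theorem TP_sub {K : Type} [Field K] {f : K[X]} {u v : K[X]} {Z : Q f} {m : ℕ} {b b' : Q f}
    (hb : TP u v Z m b) (hb' : TP u v Z m b') : TP u v Z m (b - b') := by
  obtain ⟨w, hw, e⟩ := hb
  obtain ⟨w', hw', e'⟩ := hb'
  exact ⟨w - w', Ideal.sub_mem _ hw hw', by rw [mul_sub, mul_sub, e, e']⟩

theorem TP_mul {K : Type} [Field K] {f : K[X]} {u v : K[X]} {Z : Q f} {m : ℕ} {b : Q f}
    (r : Q f) (hb : TP u v Z m b) : TP u v Z m (r * b) := by
  obtain ⟨w, hw, e⟩ := hb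
  exact ⟨r * w, Ideal.mul_mem_left _ _ hw, by
    calc cc f u ^ (2 * m) * (r * b) = r * (cc f u ^ (2 * m) * b) := by ring
      _ = _ := by rw [e]; ring⟩

variable (hreg : Reg π ρ f) (h2 : π ∣ 2)
  (hsq : Squarefree (f.map (algebraMap O K))) (h2K : (2 : K) ≠ 0)

include h hm hd hreg h2 hsq h2K

theorem Tred {u v : K[X]} (huv : u ∣ f.map (algebraMap O K) - v ^ 2)
    {ut : O[X]} {l : K} (hl : l ≠ 0) (hu : ut.map (algebraMap O K) = C l * u)
    (hu0 : ut.map ρ ≠ 0) {z₁ : Q f} (hz₁ : mp ρ f z₁ = cc _ (ut.map ρ * X ^ g)) {m : ℕ} {b : Q f}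
    (hb : TP u v (cj _ (mp (algebraMap O K) f z₁)) m (mp (algebraMap O K) f b)) :
    ∃ w', mp ρ f b = cc _ (X ^ (g * m)) * w' := by
  haveI := isDomain_Q (hm.map ρ) (g := g) (by rw [hm.natDegree_map, hd])
  have hρ2 : (2 : k) = 0 := by
    have := (h.ker 2).2 h2
    rwa [map_ofNat] at this
  obtain ⟨w, hw, e⟩ := hb
  have hz0 : mp ρ f (cj f z₁ ^ m) = cc _ ((ut.map ρ * X ^ g) ^ m) := by
    rw [map_pow, mp_cj, cj_two hρ2, hz₁, ← map_pow]
  have hne : ut.map ρ * X ^ g ≠ 0 := mul_ne_zero hu0 (pow_ne_zero g X_ne_zero)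
  obtain ⟨w', hw', ew⟩ := h.gauss (z := cc f (ut ^ (2 * m)) * b) (δ := cj f z₁ ^ m)
    (w := cc _ (C (l ^ (2 * m))) * w)
    (by rw [hz0]; exact cc_ne (pow_ne_zero m hne))
    (by
      rw [map_mul, mp_cc, Polynomial.map_pow, hu, map_pow (mp (algebraMap O K) f), mp_cj, mul_pow,
        ← C_pow, map_mul, map_pow (cc (f.map (algebraMap O K))) u (2 * m)]
      calc cc (f.map (algebraMap O K)) (C (l ^ (2 * m))) * cc _ u ^ (2 * m) *
            mp (algebraMap O K) f b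
          = cc _ (C (l ^ (2 * m))) * (cc _ u ^ (2 * m) * mp (algebraMap O K) f b) := by ring
        _ = _ := by rw [e]; ring)
  obtain ⟨w'', hw''⟩ := redG h hm hd hreg h2 hsq h2K huv hl hu hu0 m (w := w')
    (by rw [hw']; exact Ideal.mul_mem_left _ _ hw)
  refine ⟨w'', ?_⟩
  have e3 := congrArg (mp ρ f) ew
  rw [map_mul, mp_cc, Polynomial.map_pow, map_mul, hz0, hw'', ← mul_assoc, ← map_mul] at e3
  apply cc_cancel (pow_ne_zero (2 * m) hu0)
  rw [e3, ← mul_assoc, ← map_mul]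
  congr 2
  ring

theorem Tind {u v : K[X]} (huv : u ∣ f.map (algebraMap O K) - v ^ 2)
    {ut : O[X]} {l : K} (hl : l ≠ 0) (hu : ut.map (algebraMap O K) = C l * u)
    (hu0 : ut.map ρ ≠ 0) {z₁ : Q f} (hz₁ : mp ρ f z₁ = cc _ (ut.map ρ * X ^ g)) {m : ℕ} {σ : Q f}
    (hσ : TP u v (cj _ (mp (algebraMap O K) f z₁)) m (mp (algebraMap O K) f (σ ^ m)))
    (hσ' : mp ρ f σ = cc _ (X ^ g)) (N : ℕ) : ∀ {b : Q f}
    (hb : TP u v (cj _ (mp (algebraMap O K) f z₁)) m (mp (algebraMap O K) f b)),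
    ∃ r t, b = σ ^ m * r + cc f (C π) ^ N * t := by
  induction N with
  | zero => exact fun {b} _ => ⟨0, b, by ring⟩
  | succ N ih =>
    intro b hb
    obtain ⟨w', hw'⟩ := Tred h hm hd hreg h2 hsq h2K huv hl hu hu0 hz₁ hb
    obtain ⟨r, rfl⟩ := mp_surj (f := f) h.surj w'
    have e1 : mp ρ f b = mp ρ f (σ ^ m * r) := by
      rw [hw', map_mul, map_pow (mp ρ f), hσ', ← map_pow (cc (f.map ρ)), ← pow_mul]
    obtain ⟨t, ht⟩ := h.qsub e1
    have hπ : algebraMap O K π ≠ 0 := by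
      have := pi_ne h 1
      rwa [pow_one] at this
    have hTt : TP u v (cj _ (mp (algebraMap O K) f z₁)) m (mp (algebraMap O K) f t) := by
      have h3 := TP_sub hb (TP_mul (mp (algebraMap O K) f r) hσ)
      have e2 : mp (algebraMap O K) f t = cc _ (C (algebraMap O K π)⁻¹) *
          (mp (algebraMap O K) f b - mp (algebraMap O K) f r * mp (algebraMap O K) f (σ ^ m)) := by
        rw [ht, map_add, map_mul, map_mul, mp_cc, map_C]
        have e3 : mp (algebraMap O K) f (σ ^ m) * mp (algebraMap O K) f r +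
            cc (f.map (algebraMap O K)) (C (algebraMap O K π)) * mp (algebraMap O K) f t -
            mp (algebraMap O K) f r * mp (algebraMap O K) f (σ ^ m) =
            cc (f.map (algebraMap O K)) (C (algebraMap O K π)) * mp (algebraMap O K) f t := by ring
        rw [e3, ← mul_assoc, ← map_mul, ← C_mul, inv_mul_cancel₀ hπ, C_1, cc_one, one_mul]
      rw [e2]
      exact TP_mul _ h3
    obtain ⟨r', t', e4⟩ := ih hTt
    refine ⟨r + cc f (C π) * r', t', ?_⟩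
    rw [ht, e4]
    ring

end Pool.Agent.H14P
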