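import Pool.Agent.H14P.Loc2

/-!
# The local theorem

By helper14.
-/

set_option autoImplicit false
set_option linter.all false

open Polynomial

noncomputable section

namespace Pool.Agent.H14P

variable {O K k : Type} [CommRing O] [IsDomain O] [Field K] [Field k] [Algebra O K]

variable {π : O} {ρ : O →+* k} (h : DV K π ρ) {f : O[X]} {g : ℕ} (hm : f.Monic)
  (hd : f.natDegree = 2 * g + 1)

variable (hreg : Reg π ρ f) (h2 : π ∣ 2)
  (hsq : Squarefree (f.map (algebraMap O K))) (h2K : (2 : K) ≠ 0)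

include h hm hd hreg h2 hsq h2K

/-- The degree argument. -/
theorem deg_arg (hg : 1 ≤ g) {x₀ c : K} (hc : c ≠ 0) {n : ℕ} {U : O[X]} (hU1 : U.natDegree ≤ 2 * g)
    (hU2 : U.map ρ = X ^ (2 * g)) {ψ r t : Q f} (hψ : mp ρ f ψ ≠ 0)
    (hψ1 : ψ = cc f (X ^ (g * 2 ^ n)) * r + cc f (C (π ^ (n + 1))) * t)
    (hN : (nm ψ).map (algebraMap O K) = C c * (X - C x₀) * (U.map (algebraMap O K)) ^ (2 ^ n)) :
    ∃ c₀ e₀ : O, π ^ (2 * n + 2) ∣ c₀ ∧ ρ e₀ ≠ 0 ∧ algebraMap O K c₀ * x₀ = algebraMap O K e₀ := by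
  set m := 2 ^ n with hm2
  have hm1 : 1 ≤ m := Nat.one_le_two_pow
  have hUd : U.natDegree = 2 * g := by
    apply le_antisymm hU1
    have h3 : (U.map ρ).natDegree ≤ U.natDegree := natDegree_map_le
    rwa [hU2, natDegree_X_pow] at h3
  have hUl : ρ U.leadingCoeff = 1 := by
    have h3 := congrArg (fun p => p.coeff (2 * g)) hU2
    simp only [coeff_map, coeff_X_pow, if_true] at h3
    rw [leadingCoeff, hUd]
    exact h3
  have hU0 : U ≠ 0 := by
    rintro rfl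
    rw [leadingCoeff_zero, map_zero] at hUl
    exact zero_ne_one hUl
  obtain ⟨L, hL⟩ := gaussP h hm hd (z := nm ψ) (δ := U ^ m)
    (by rw [Polynomial.map_pow, hU2]; exact pow_ne_zero _ (pow_ne_zero _ X_ne_zero))
    (by rw [hN, Polynomial.map_pow]; exact dvd_mul_left _ _)
  have hUK : (U.map (algebraMap O K)) ^ m ≠ 0 := by
    apply pow_ne_zero
    exact (Polynomial.map_ne_zero_iff h.inj).2 hU0
  have hLK : L.map (algebraMap O K) = C c * (X - C x₀) := by
    apply mul_left_cancel₀ hUK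
    rw [← Polynomial.map_pow, ← Polynomial.map_mul, ← hL, hN, Polynomial.map_pow]
    ring
  have hLd : L.natDegree = 1 := by
    rw [← natDegree_map_eq_of_injective h.inj, hLK, natDegree_C_mul hc, natDegree_X_sub_C]
  have hL0 : L ≠ 0 := by
    rintro rfl
    simp at hLd
  have c1 : algebraMap O K (L.coeff 1) = c := by
    have := congrArg (fun p => p.coeff 1) hLK
    simpa [coeff_C] using this
  have c0 : algebraMap O K (L.coeff 0) = -(c * x₀) := by
    have := congrArg (fun p => p.coeff 0) hLK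
    simpa [coeff_C] using this
  have hdeg : (nm ψ).natDegree = 2 * (g * m) + 1 := by
    rw [hL, natDegree_mul (pow_ne_zero m hU0) hL0, natDegree_pow, hUd, hLd]
    ring
  obtain ⟨h3, h4⟩ := odd_deg hm hd hdeg
  have h5 : ψ.im.natDegree < g * m := by
    have : 1 ≤ g * m := Nat.one_le_iff_ne_zero.2 (by positivity)
    omega
  have h6 : ψ.im.leadingCoeff = π ^ (n + 1) * t.im.coeff ψ.im.natDegree := by
    have e1 : ψ.im = X ^ (g * m) * r.im + C (π ^ (n + 1)) * t.im := by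
      conv_lhs => rw [hψ1]
      rw [cc_mul, cc_mul]
      rfl
    have e2 : ψ.im.coeff ψ.im.natDegree =
        (X ^ (g * m) * r.im + C (π ^ (n + 1)) * t.im).coeff ψ.im.natDegree := by rw [← e1]
    rw [leadingCoeff, e2, coeff_add, coeff_X_pow_mul', if_neg (by omega), zero_add, coeff_C_mul]
  have h7 : U.leadingCoeff ^ m * L.coeff 1 =
      π ^ (2 * n + 2) * -(t.im.coeff ψ.im.natDegree) ^ 2 := by
    have e1 : (nm ψ).leadingCoeff = U.leadingCoeff ^ m * L.coeff 1 := by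
      rw [hL, leadingCoeff_mul, leadingCoeff_pow]
      congr 1
      rw [leadingCoeff, hLd]
    rw [← e1, h4, h6]
    ring
  have h8 : ¬ π ∣ U.leadingCoeff ^ m := by
    rw [← h.ker, map_pow, hUl, one_pow]
    exact one_ne_zero
  have h9 : π ^ (2 * n + 2) ∣ L.coeff 1 :=
    h.prime.pow_dvd_of_dvd_mul_left _ h8 ⟨_, h7⟩
  refine ⟨L.coeff 1, -L.coeff 0, h9, ?_, ?_⟩
  · intro h10
    rw [map_neg, neg_eq_zero] at h10
    have h11 : ρ (L.coeff 1) = 0 := (h.ker _).2 ((dvd_pow_self π (by omega)).trans h9)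
    have h12 : L.map ρ = 0 := by
      rw [eq_X_add_C_of_natDegree_le_one hLd.le, Polynomial.map_add, Polynomial.map_mul, map_C,
        map_C, h10, h11]
      simp
    have h13 : (nm ψ).map ρ = 0 := by rw [hL, Polynomial.map_mul, h12, mul_zero]
    rw [← nm_mp] at h13
    exact hψ ((nm_eq_zero (hm.map ρ) (g := g) (by rw [hm.natDegree_map, hd])).1 h13)
  · rw [map_neg, c0, c1, neg_neg]

/-- the main local argument -/
theorem loc_main (hg : 1 ≤ g) {x₀ y₀ : K} (hP : (f.map (algebraMap O K)).eval x₀ = y₀ ^ 2)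
    (n : ℕ) {I : Ideal (Q (f.map (algebraMap O K)))} (hI : I ≠ ⊥)
    {φ : Q (f.map (algebraMap O K))}
    (hφ : I ^ (2 ^ (n + 1)) * Mu (f.map (algebraMap O K)) (X - C x₀) (C y₀) = Ideal.span {φ}) :
    ∃ c₀ e₀ : O, π ^ (2 * n + 2) ∣ c₀ ∧ ρ e₀ ≠ 0 ∧ algebraMap O K c₀ * x₀ = algebraMap O K e₀ := by
  have hmK : (f.map (algebraMap O K)).Monic := hm.map _
  have hdK : (f.map (algebraMap O K)).natDegree = 2 * g + 1 := by rw [hm.natDegree_map, hd]
  haveI := isDomain_Q (hm.map ρ) (g := g) (by rw [hm.natDegree_map, hd])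
  haveI := isDomain_Q hmK hdK
  haveI := isDomain_Q hm hd
  have hρ2 : (2 : k) = 0 := by
    have := (h.ker 2).2 h2
    rwa [map_ofNat] at this
  have hP' : X - C x₀ ∣ f.map (algebraMap O K) - C y₀ ^ 2 := by
    rw [dvd_iff_isRoot, IsRoot, eval_sub, hP]
    simp
  obtain ⟨c, u, v, hc, hu1, huv, hIu⟩ := ideal_form hdK I hI
  set m := 2 ^ n with hm2
  have h2m : 2 ^ (n + 1) = 2 * m := by rw [pow_succ, mul_comm]
  -- removing `c`
  obtain ⟨ψ, hψ⟩ : ∃ ψ, Mu (f.map (algebraMap O K)) u v ^ (2 * m) *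
      Mu (f.map (algebraMap O K)) (X - C x₀) (C y₀) = Ideal.span {ψ} := by
    rw [hIu, mul_pow, Ideal.span_singleton_pow, mul_assoc, h2m] at hφ
    have h3 : φ ∈ Ideal.span {cc (f.map (algebraMap O K)) c ^ (2 * m)} := by
      have h4 : φ ∈ Ideal.span {φ} := Ideal.mem_span_singleton_self φ
      rw [← hφ] at h4
      exact (Ideal.mul_le_left (I := Ideal.span {cc (f.map (algebraMap O K)) c ^ (2 * m)})
        (J := Mu (f.map (algebraMap O K)) u v ^ (2 * m) *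
          Mu (f.map (algebraMap O K)) (X - C x₀) (C y₀))) h4
    obtain ⟨ψ, rfl⟩ := Ideal.mem_span_singleton.1 h3
    refine ⟨ψ, ?_⟩
    rw [← Ideal.span_singleton_mul_span_singleton] at hφ
    exact (Ideal.span_singleton_mul_right_inj (pow_ne_zero _ (cc_ne hc))).1 hφ
  clear hφ hIu
  obtain ⟨e, he0, he⟩ := nm_gen hsq h2K huv hP' hψ
  have hψ0 : ψ ≠ 0 := by
    rintro rfl
    rw [(nm_eq_zero hmK hdK).2 rfl] at he
    exact mul_ne_zero (C_ne_zero.2 he0) (mul_ne_zero (pow_ne_zero _ hu1.ne_zero)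
      (X_sub_C_ne_zero x₀)) he.symm
  have hψm : ψ ∈ Mu (f.map (algebraMap O K)) u v ^ (2 * m) := by
    have h4 : ψ ∈ Ideal.span {ψ} := Ideal.mem_span_singleton_self ψ
    rw [← hψ] at h4
    exact (Ideal.mul_le_left (I := Mu (f.map (algebraMap O K)) u v ^ (2 * m))
        (J := Mu (f.map (algebraMap O K)) (X - C x₀) (C y₀))) h4
  obtain ⟨l, ut, hl, hu, hu0⟩ := scale h hu1.ne_zero
  obtain ⟨s₁, hs1, -, hs2⟩ := exists_el h hm hd hreg h2 hsq h2K huv hu1 hl hu hu0 1 (by simp)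
  obtain ⟨z₁, hz1, hz2, hz3⟩ := exists_el h hm hd hreg h2 hsq h2K huv hu1 hl hu hu0 (X ^ g)
    (by rw [natDegree_X_pow])
  rw [mul_one] at hs2
  have hutd : ut.natDegree = u.natDegree := by
    rw [← natDegree_map_eq_of_injective h.inj, hu, natDegree_C_mul hl]
  have hut0 : ut ≠ 0 := by
    rintro rfl
    rw [Polynomial.map_zero] at hu0
    exact hu0 rfl
  -- the element `σ`
  have hzc : cj _ (mp (algebraMap O K) f z₁) ∈ Mu (f.map (algebraMap O K)) u (-v) ^ 2 :=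
    cj_mem_pow huv hz1
  obtain ⟨σ, hσ, hσ'⟩ : ∃ σ, cj f z₁ * s₁ = cc f (ut ^ 2) * σ ∧ mp ρ f σ = cc _ (X ^ g) := by
    have h3 : cj _ (mp (algebraMap O K) f z₁) * mp (algebraMap O K) f s₁ ∈
        Ideal.span {cc (f.map (algebraMap O K)) u ^ 2} := by
      have h4 := Ideal.mul_mem_mul hzc hs1
      rw [← mul_pow, mul_comm (Mu _ u (-v)), Mu_mul hsq h2K huv, Ideal.span_singleton_pow] at h4
      exact h4
    obtain ⟨b', hb'⟩ := Ideal.mem_span_singleton.1 h3
    obtain ⟨σ, -, e2⟩ := h.gauss (z := cj f z₁ * s₁) (δ := cc f (ut ^ 2))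
      (w := cc _ (C (l ^ 2)⁻¹) * b')
      (by rw [mp_cc, Polynomial.map_pow]; exact cc_ne (pow_ne_zero 2 hu0))
      (by
        rw [map_mul, mp_cj, hb', mp_cc, Polynomial.map_pow, hu, mul_pow, ← C_pow]
        have e2 : cc (f.map (algebraMap O K)) (C (l ^ 2) * u ^ 2) * (cc _ (C (l ^ 2)⁻¹) * b') =
            cc _ (C (l ^ 2) * C (l ^ 2)⁻¹) * cc _ u ^ 2 * b' := by
          rw [map_mul, map_mul, map_pow (cc (f.map (algebraMap O K))) u 2]; ring
        rw [e2, ← C_mul, mul_inv_cancel₀ (pow_ne_zero 2 hl), C_1, cc_one, one_mul])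
    refine ⟨σ, e2, ?_⟩
    have e3 := congrArg (mp ρ f) e2
    rw [map_mul (mp ρ f), mp_cj, cj_two hρ2, hz3, hs2, map_mul (mp ρ f), mp_cc,
      Polynomial.map_pow, ← map_mul] at e3
    apply cc_cancel (pow_ne_zero 2 hu0)
    rw [← e3, ← map_mul]
    congr 1
    ring
  -- the norm of `z₁`
  obtain ⟨U, hU⟩ : ∃ U, nm z₁ = ut ^ 2 * U := by
    refine gaussP h hm hd (by rw [Polynomial.map_pow]; exact pow_ne_zero 2 hu0) ?_
    have h3 := nm_pow_dvd hsq h2K huv hz1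
    rw [← nm_mp, Polynomial.map_pow, hu, mul_pow, ← C_pow]
    obtain ⟨q, hq⟩ := h3
    refine ⟨C (l ^ 2)⁻¹ * q, ?_⟩
    have e : (C (l ^ 2) : K[X]) * C (l ^ 2)⁻¹ = 1 := by
      rw [← C_mul, mul_inv_cancel₀ (pow_ne_zero 2 hl), C_1]
    rw [hq]
    linear_combination (-(u ^ 2 * q)) * e
  have hU2 : U.map ρ = X ^ (2 * g) := by
    have e2 : nm (mp ρ f z₁) = (nm z₁).map ρ := nm_mp ρ z₁
    rw [hz3, nm_cc, hU, Polynomial.map_mul, Polynomial.map_pow] at e2
    apply mul_left_cancel₀ (pow_ne_zero 2 hu0)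
    rw [← e2]
    ring
  have hU1 : U.natDegree ≤ 2 * g := by
    by_cases hU0 : U = 0
    · rw [hU0]; simp
    · rw [hU, natDegree_mul (pow_ne_zero 2 hut0) hU0, natDegree_pow, hutd] at hz2
      omega
  -- the element `ψ₀`
  obtain ⟨ψ₀, hψ₀⟩ : ∃ ψ₀, cc (f.map (algebraMap O K)) u ^ (2 * m) * ψ₀ =
      cj _ (mp (algebraMap O K) f z₁) ^ m * ψ := by
    have h4 := Ideal.mul_mem_mul (Ideal.pow_mem_pow hzc m) hψm
    rw [← pow_mul, ← mul_pow, mul_comm (Mu _ u (-v)), Mu_mul hsq h2K huv,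
      Ideal.span_singleton_pow, Ideal.mem_span_singleton] at h4
    obtain ⟨b, hb⟩ := h4
    exact ⟨b, hb.symm⟩
  have hz10 : mp (algebraMap O K) f z₁ ≠ 0 := by
    intro h0
    have h3 : z₁ = 0 := h.j_inj (by rw [h0, map_zero])
    rw [h3, map_zero] at hz3
    exact cc_ne (mul_ne_zero hu0 (pow_ne_zero g X_ne_zero)) hz3.symm
  have hψ00 : ψ₀ ≠ 0 := by
    rintro rfl
    rw [mul_zero] at hψ₀
    rcases mul_eq_zero.1 hψ₀.symm with h3 | h3
    · have hm0 : m ≠ 0 := by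
        rw [hm2]
        positivity
      have h4 := (pow_eq_zero_iff hm0).1 h3
      apply hz10
      rw [← cj_cj (mp (algebraMap O K) f z₁), h4, map_zero]
    · exact hψ0 h3
  obtain ⟨l', ψ', hl', hψ', hψ'0⟩ := qscale h hψ00
  -- the norm
  have hnm : (nm ψ').map (algebraMap O K) =
      C (l' ^ 2 * (l ^ (2 * m) * e)) * (X - C x₀) * (U.map (algebraMap O K)) ^ m := by
    have e1 := congrArg nm hψ₀
    rw [nm_mul, nm_mul, nm_pow, nm_cc, nm_pow, nm_cj, nm_mp, hU, he, Polynomial.map_mul,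
      Polynomial.map_pow, hu] at e1
    have e2 : nm ψ₀ = C (l ^ (2 * m) * e) * (X - C x₀) * (U.map (algebraMap O K)) ^ m := by
      apply mul_left_cancel₀ (pow_ne_zero (2 * m) (mul_ne_zero hu1.ne_zero hu1.ne_zero))
      rw [e1, C_mul, C_pow]
      ring
    rw [← nm_mp, hψ', nm_mul, nm_cc, e2]
    simp only [C_mul, C_pow]
    ring
  have hTψ : TP u v (cj _ (mp (algebraMap O K) f z₁)) m (mp (algebraMap O K) f ψ') := by
    rw [hψ']
    exact TP_mul _ ⟨ψ, hψm, hψ₀⟩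
  have hTσ : TP u v (cj _ (mp (algebraMap O K) f z₁)) m (mp (algebraMap O K) f (σ ^ m)) := by
    refine ⟨cc _ (C (l ^ (2 * m))⁻¹) * mp (algebraMap O K) f s₁ ^ m,
      Ideal.mul_mem_left _ _ ?_, ?_⟩
    · rw [pow_mul]
      exact Ideal.pow_mem_pow hs1 m
    · have e1 := congrArg (fun z => mp (algebraMap O K) f z ^ m) hσ
      simp only [map_mul, mp_cj, mp_cc, Polynomial.map_pow, hu] at e1
      rw [map_pow (mp (algebraMap O K) f)]
      have e2 : (cc (f.map (algebraMap O K)) ((C l * u) ^ 2) * mp (algebraMap O K) f σ) ^ m =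
          cc _ (C (l ^ (2 * m))) * (cc _ u ^ (2 * m) * mp (algebraMap O K) f σ ^ m) := by
        rw [mul_pow, ← map_pow (cc (f.map (algebraMap O K))), ← pow_mul, mul_pow (C l) u,
          map_mul, ← C_pow, map_pow (cc (f.map (algebraMap O K))) u]
        ring
      have hll : cc (f.map (algebraMap O K)) (C (l ^ (2 * m))⁻¹) *
          cc (f.map (algebraMap O K)) (C (l ^ (2 * m))) = 1 := by
        rw [← map_mul, ← C_mul, inv_mul_cancel₀ (pow_ne_zero _ hl), C_1, cc_one]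
      calc cc (f.map (algebraMap O K)) u ^ (2 * m) * mp (algebraMap O K) f σ ^ m
          = (cc (f.map (algebraMap O K)) (C (l ^ (2 * m))⁻¹) *
            cc (f.map (algebraMap O K)) (C (l ^ (2 * m)))) *
            (cc _ u ^ (2 * m) * mp (algebraMap O K) f σ ^ m) := by rw [hll, one_mul]
        _ = cc (f.map (algebraMap O K)) (C (l ^ (2 * m))⁻¹) *
            (cc (f.map (algebraMap O K)) ((C l * u) ^ 2) * mp (algebraMap O K) f σ) ^ m := by
            rw [e2]; ring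
        _ = _ := by rw [← e1]; ring
  obtain ⟨r, t, hrt⟩ := Tind h hm hd hreg h2 hsq h2K huv hl hu hu0 hz3 hTσ hσ' (n + 1) hTψ
  obtain ⟨τ, hτ⟩ := h.qsub (z := σ) (w := cc f (X ^ g))
    (by rw [hσ', mp_cc, Polynomial.map_pow, map_X])
  have hcc2 : cc f (C π) ∣ (2 : Q f) := by
    obtain ⟨ε, hε⟩ := h2
    refine ⟨cc f (C ε), ?_⟩
    rw [← map_mul, ← C_mul, ← hε]
    exact ((map_ofNat (cc f) 2).symm.trans (congrArg (cc f) (map_ofNat C 2).symm))
  obtain ⟨t', ht'⟩ := pow_two_pow (s := cc f (X ^ g)) (t := τ) hcc2 n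
  refine deg_arg h hm hd hreg h2 hsq h2K hg (x₀ := x₀) (c := l' ^ 2 * (l ^ (2 * m) * e))
    (mul_ne_zero (pow_ne_zero 2 hl') (mul_ne_zero (pow_ne_zero _ hl) he0)) hU1 hU2 hψ'0
    (r := r) (t := t' * r + t) ?_ hnm
  rw [hrt, hτ, ht', ← map_pow (cc f) (X ^ g), ← pow_mul, C_pow, map_pow (cc f) (C π)]
  ring

/-- The point is not infinitely 2-divisible. -/
theorem no_point (hg : 1 ≤ g) {x₀ y₀ : K} (hP : (f.map (algebraMap O K)).eval x₀ = y₀ ^ 2)
    (hI : ∀ n : ℕ, ∃ I : Ideal (Q (f.map (algebraMap O K))), I ≠ ⊥ ∧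
      ∃ φ, I ^ (2 ^ (n + 1)) * Mu (f.map (algebraMap O K)) (X - C x₀) (C y₀) = Ideal.span {φ}) :
    False := by
  obtain ⟨N, b, hb⟩ := h.frac x₀
  obtain ⟨I, hI0, φ, hφ⟩ := hI N
  obtain ⟨c₀, e₀, ⟨d, hd'⟩, h4, h5⟩ := loc_main h hm hd hreg h2 hsq h2K hg hP N hI0 hφ
  have h6 : c₀ * b = π ^ N * e₀ := by
    apply h.inj
    rw [map_mul, map_mul, ← hb, ← h5]
    ring
  have h7 : e₀ = π ^ (N + 2) * d * b := by
    apply mul_left_cancel₀ (pow_ne_zero N h.ne)
    rw [← h6, hd']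
    ring
  apply h4
  rw [h.ker, h7]
  exact Dvd.intro _ (by ring : π * (π ^ (N + 1) * d * b) = _)

end Pool.Agent.H14P
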