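import Pool.Agent.H14P.Quad

/-!
# Mumford's representation of ideals

By helper14. `K` is a field of characteristic different from 2.
-/

set_option autoImplicit false
set_option linter.all false

open Polynomial

noncomputable section

namespace Pool.Agent.H14P

variable {K : Type} [Field K] {f : K[X]}

/-- The ideal `(u, y - v)`, `u ∣ f - v ^ 2`. -/
def Mu (f u v : K[X]) : Ideal (Q f) := Ideal.span {cc f u, yy f - cc f v}

theorem mem_Mu {u v : K[X]} (huv : u ∣ f - v ^ 2) {z : Q f} : z ∈ Mu f u v ↔ u ∣ z.re + z.im * v := by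
  constructor
  · intro h
    unfold Mu at h
    rw [Ideal.mem_span_pair] at h
    obtain ⟨a, b, rfl⟩ := h
    have h1 : (a * cc f u + b * (yy f - cc f v)).re + (a * cc f u + b * (yy f - cc f v)).im * v =
        u * (a.re + a.im * v) + (f - v ^ 2) * b.im := by
      simp [cc_re, cc_im, yy]
      ring
    rw [h1]
    exact dvd_add (dvd_mul_right _ _) (huv.mul_right _)
  · rintro ⟨p, hp⟩
    unfold Mu
    rw [Ideal.mem_span_pair]
    refine ⟨cc f p, cc f z.im, ?_⟩
    rw [← map_mul, mul_comm p u, ← hp, map_add]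
    conv_rhs => rw [eq_cc z]
    rw [map_mul]
    ring

theorem cj_mem_Mu {u v : K[X]} (huv : u ∣ f - v ^ 2) {z : Q f} (hz : z ∈ Mu f u v) :
    cj f z ∈ Mu f u (-v) := by
  have huv' : u ∣ f - (-v) ^ 2 := by rwa [neg_sq]
  rw [mem_Mu huv'] 
  rw [mem_Mu huv] at hz
  rw [cj_re, cj_im]
  have e : z.re + -z.im * -v = z.re + z.im * v := by ring
  rwa [e]

theorem cj_mem_pow {u v : K[X]} (huv : u ∣ f - v ^ 2) {z : Q f} {n : ℕ} (hz : z ∈ Mu f u v ^ n) :
    cj f z ∈ Mu f u (-v) ^ n := by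
  have h1 : (Mu f u v).map (cj f) ≤ Mu f u (-v) := by
    rw [Ideal.map_le_iff_le_comap]
    intro w hw
    exact cj_mem_Mu huv hw
  have h2 : cj f z ∈ (Mu f u v ^ n).map (cj f) := Ideal.mem_map_of_mem _ hz
  rw [Ideal.map_pow] at h2
  exact Ideal.pow_right_mono h1 n h2

/-- the ideal only depends on `u` up to constants -/
theorem Mu_C {u v : K[X]} {c : K} (hc : c ≠ 0) : Mu f (C c * u) v = Mu f u v := by
  unfold Mu
  apply le_antisymm
  · rw [Ideal.span_le]
    rintro z (rfl | rfl)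
    · rw [map_mul]
      exact Ideal.mul_mem_left _ _ (Ideal.subset_span (by simp))
    · exact Ideal.subset_span (by simp)
  · rw [Ideal.span_le]
    rintro z (rfl | rfl)
    · have h1 : cc f u = cc f (C c⁻¹) * cc f (C c * u) := by
        rw [← map_mul, ← mul_assoc, ← C_mul, inv_mul_cancel₀ hc, C_1, one_mul]
      rw [h1]
      exact Ideal.mul_mem_left _ _ (Ideal.subset_span (by simp))
    · exact Ideal.subset_span (by simp)

/-- unimodularity -/
theorem unimod (hsq : Squarefree f) (h2 : (2 : K) ≠ 0) {u v w : K[X]} (hw : f = v ^ 2 + u * w) :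
    ∃ a b c : K[X], a * u + b * (2 * v) + c * w = 1 := by
  have h1 : Ideal.span {u, v, w} = ⊤ := by
    obtain ⟨d, hd⟩ := (IsPrincipalIdealRing.principal (Ideal.span {u, v, w})).principal
    have hmem : ∀ p ∈ ({u, v, w} : Set K[X]), d ∣ p := by
      intro p hp
      have h2 : p ∈ Ideal.span {u, v, w} := Ideal.subset_span hp
      rw [hd] at h2
      exact Ideal.mem_span_singleton.1 h2
    have hu := hmem u (by simp)
    have hv := hmem v (by simp)
    have hw' := hmem w (by simp)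
    have hdd : d * d ∣ f := by
      rw [hw, pow_two]
      exact dvd_add (mul_dvd_mul hv hv) (mul_dvd_mul hu hw')
    have hunit := hsq d hdd
    rw [hd]
    exact Ideal.span_singleton_eq_top.2 hunit
  have h3 : (1 : K[X]) ∈ Ideal.span {u, v, w} := by rw [h1]; trivial
  rw [Ideal.mem_span_insert] at h3
  obtain ⟨a, z, hz, e1⟩ := h3
  rw [Ideal.mem_span_pair] at hz
  obtain ⟨b, c, rfl⟩ := hz
  refine ⟨a, b * C (2⁻¹), c, ?_⟩
  have e2 : (C (2⁻¹ : K) : K[X]) * 2 = 1 := by
    have : (2 : K[X]) = C 2 := (map_ofNat C 2).symm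
    rw [this, ← C_mul, inv_mul_cancel₀ h2, C_1]
  linear_combination (b * v) * e2 - e1

/-- the norm of the ideal -/
theorem Mu_mul (hsq : Squarefree f) (h2 : (2 : K) ≠ 0) {u v : K[X]} (huv : u ∣ f - v ^ 2) :
    Mu f u v * Mu f u (-v) = Ideal.span {cc f u} := by
  have huv' : u ∣ f - (-v) ^ 2 := by rwa [neg_sq]
  obtain ⟨w, hw⟩ := huv
  have hf : f = v ^ 2 + u * w := by rw [← hw]; ring
  apply le_antisymm
  · rw [Ideal.mul_le]
    intro z hz z' hz'
    rw [mem_Mu ⟨w, hw⟩] at hz
    rw [mem_Mu huv'] at hz'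
    rw [Ideal.mem_span_singleton, cc_dvd]
    obtain ⟨p, hp⟩ := hz
    obtain ⟨q, hq⟩ := hz'
    have e1 : z.re = u * p - z.im * v := by rw [← hp]; ring
    have e2 : z'.re = u * q + z'.im * v := by rw [← hq]; ring
    constructor
    · refine ⟨p * z'.re - z.im * v * q + z.im * z'.im * w, ?_⟩
      simp only [QuadraticAlgebra.re_mul]
      linear_combination z'.re * e1 - z.im * v * e2 + (z.im * z'.im) * hf
    · refine ⟨p * z'.im + z.im * q, ?_⟩
      simp only [QuadraticAlgebra.im_mul]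
      linear_combination z'.im * e1 + z.im * e2
  · rw [Ideal.span_singleton_le_iff_mem]
    obtain ⟨a, b, c, habc⟩ := unimod hsq h2 hf
    have m1 : cc f u ∈ Mu f u v := Ideal.subset_span (by simp)
    have m2 : yy f - cc f v ∈ Mu f u v := Ideal.subset_span (by simp)
    have m3 : cc f u ∈ Mu f u (-v) := Ideal.subset_span (by simp)
    have m4 : yy f - cc f (-v) ∈ Mu f u (-v) := Ideal.subset_span (by simp)
    have h3 : cc f u = cc f a * (cc f u * cc f u) + cc f b * (cc f u * (yy f - cc f (-v)) -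
        (yy f - cc f v) * cc f u) + cc f c * ((yy f - cc f v) * (yy f - cc f (-v))) := by
      have e1 : (yy f - cc f v) * (yy f - cc f (-v)) = cc f (u * w) := by
        rw [← hw, map_sub, map_neg, map_pow, ← yy_sq]; ring
      rw [e1]
      have e2 : cc f u * (yy f - cc f (-v)) - (yy f - cc f v) * cc f u = cc f (u * (2 * v)) := by
        rw [map_neg, map_mul, map_mul, map_ofNat]; ring
      rw [e2, ← map_mul, ← map_mul, ← map_mul, ← map_mul, ← map_add, ← map_add]
      congr 1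
      linear_combination (-u) * habc
    rw [h3]
    refine Ideal.add_mem _ (Ideal.add_mem _ ?_ ?_) ?_
    · exact Ideal.mul_mem_left _ _ (Ideal.mul_mem_mul m1 m3)
    · exact Ideal.mul_mem_left _ _ (Ideal.sub_mem _ (Ideal.mul_mem_mul m1 m4)
        (Ideal.mul_mem_mul m2 m3))
    · exact Ideal.mul_mem_left _ _ (Ideal.mul_mem_mul m2 m4)

/-- a criterion for elements of the square -/
theorem mem_sq (hsq : Squarefree f) (h2 : (2 : K) ≠ 0) {u v w : K[X]} (hw : f - v ^ 2 = u * w)
    {z : Q f} {p : K[X]} (hz : z.re + z.im * v = u * p) (hu : u ∣ 2 * v * p + w * z.im) :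
    z ∈ Mu f u v ^ 2 := by
  have hf : f = v ^ 2 + u * w := by rw [← hw]; ring
  obtain ⟨a, b, c, habc⟩ := unimod hsq h2 hf
  obtain ⟨s, hs⟩ := hu
  have m1 : cc f u ∈ Mu f u v := Ideal.subset_span (by simp)
  have m2 : yy f - cc f v ∈ Mu f u v := Ideal.subset_span (by simp)
  -- a u + b (2 v) + c w = 1
  have hsqr : (yy f - cc f v) * (yy f - cc f v) = cc f (u * w) -
      cc f (2 * v) * (yy f - cc f v) := by
    rw [← hw, map_sub, map_pow, map_mul, map_ofNat, ← yy_sq]; ring
  have key : z = cc f (c * p - b * z.im) * ((yy f - cc f v) * (yy f - cc f v)) +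
      cc f (a * p + b * s) * (cc f u * cc f u) +
      cc f (a * z.im + c * s) * (cc f u * (yy f - cc f v)) := by
    rw [hsqr]
    have e1 : z = cc f (u * p) + cc f z.im * (yy f - cc f v) := by
      rw [← hz, map_add, map_mul]
      conv_lhs => rw [eq_cc z]
      ring
    have e2 : cc f (c * p - b * z.im) * (cc f (u * w) - cc f (2 * v) * (yy f - cc f v)) +
      cc f (a * p + b * s) * (cc f u * cc f u) +
      cc f (a * z.im + c * s) * (cc f u * (yy f - cc f v)) =
      cc f ((c * p - b * z.im) * (u * w) + (a * p + b * s) * (u * u)) +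
      cc f (-(c * p - b * z.im) * (2 * v) + (a * z.im + c * s) * u) * (yy f - cc f v) := by
      simp only [map_add, map_mul, map_neg, map_sub, map_ofNat]
      ring
    rw [e2]
    conv_lhs => rw [e1]
    congr 2
    · congr 1
      linear_combination (-(u * p)) * habc + b * u * hs
    · congr 1
      linear_combination (-z.im) * habc + c * hs
  rw [key, pow_two]
  refine Ideal.add_mem _ (Ideal.add_mem _ ?_ ?_) ?_
  · exact Ideal.mul_mem_left _ _ (Ideal.mul_mem_mul m2 m2)
  · exact Ideal.mul_mem_left _ _ (Ideal.mul_mem_mul m1 m1)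
  · exact Ideal.mul_mem_left _ _ (Ideal.mul_mem_mul m1 m2)

/-- the ideal of the coefficients of `y` -/
def imI (I : Ideal (Q f)) : Ideal K[X] where
  carrier := {p | ∃ z ∈ I, z.im = p}
  add_mem' := by
    rintro _ _ ⟨z, hz, rfl⟩ ⟨w, hw, rfl⟩
    exact ⟨z + w, I.add_mem hz hw, rfl⟩
  zero_mem' := ⟨0, I.zero_mem, rfl⟩
  smul_mem' := by
    rintro c _ ⟨z, hz, rfl⟩
    exact ⟨cc f c * z, I.mul_mem_left _ hz, by rw [cc_mul]; rfl⟩

/-- the ideal of the `p` with `c p ∈ I` -/
def reI (I : Ideal (Q f)) (c : K[X]) : Ideal K[X] where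
  carrier := {p | cc f (c * p) ∈ I}
  add_mem' := by
    intro p q hp hq
    show cc f (c * (p + q)) ∈ I
    rw [mul_add, map_add]
    exact I.add_mem hp hq
  zero_mem' := by
    show cc f (c * 0) ∈ I
    rw [mul_zero, cc_zero]
    exact I.zero_mem
  smul_mem' := by
    intro p q hq
    show cc f (c * (p * q)) ∈ I
    rw [mul_left_comm, map_mul]
    exact I.mul_mem_left _ hq

/-- `f` is not a square -/
theorem sub_sq_ne {g : ℕ} (hd : f.natDegree = 2 * g + 1) (v : K[X]) : f - v ^ 2 ≠ 0 := by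
  intro h
  have h1 : f = v ^ 2 := sub_eq_zero.1 h
  have h2 := congrArg natDegree h1
  rw [natDegree_pow, hd] at h2
  omega

/-- Mumford's representation of an ideal -/
theorem ideal_form {g : ℕ} (hd : f.natDegree = 2 * g + 1) (I : Ideal (Q f)) (hI : I ≠ ⊥) :
    ∃ c u v : K[X], c ≠ 0 ∧ u.Monic ∧ u ∣ f - v ^ 2 ∧ I = Ideal.span {cc f c} * Mu f u v := by
  obtain ⟨c, hc⟩ := (IsPrincipalIdealRing.principal (imI I)).principal
  have him : ∀ z ∈ I, c ∣ z.im := by
    intro z hz
    have h1 : z.im ∈ imI I := ⟨z, hz, rfl⟩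
    rw [hc] at h1
    exact Ideal.mem_span_singleton.1 h1
  have hre : ∀ z ∈ I, c ∣ z.re := by
    intro z hz
    have h1 := him _ (I.mul_mem_left (yy f) hz)
    have h2 : (yy f * z).im = z.re := by simp [yy]
    rwa [h2] at h1
  have hc0 : c ≠ 0 := by
    rintro rfl
    apply hI
    rw [eq_bot_iff]
    intro z hz
    rw [Ideal.mem_bot]
    exact QuadraticAlgebra.ext (zero_dvd_iff.1 (hre z hz)) (zero_dvd_iff.1 (him z hz))
  obtain ⟨z₀, hz₀, hz₀'⟩ : c ∈ imI I := by
    rw [hc]
    exact Ideal.mem_span_singleton_self c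
  obtain ⟨v₀, hv₀⟩ := hre z₀ hz₀
  have hz : z₀ = cc f c * (yy f - cc f (-v₀)) := by
    rw [cc_mul]
    refine QuadraticAlgebra.ext ?_ ?_
    · rw [hv₀]
      simp [yy, cc_re]
    · rw [hz₀']
      simp [yy, cc_im]
  set v := -v₀ with hv
  have hfv : f - v ^ 2 ∈ reI I c := by
    show cc f (c * (f - v ^ 2)) ∈ I
    have h1 : cc f (c * (f - v ^ 2)) = (yy f + cc f v) * z₀ := by
      rw [hz, map_mul, map_sub, map_pow, ← yy_sq]; ring
    rw [h1]
    exact I.mul_mem_left _ hz₀
  obtain ⟨u₀, hu₀⟩ := (IsPrincipalIdealRing.principal (reI I c)).principal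
  have hmem : ∀ p, p ∈ reI I c ↔ u₀ ∣ p := by
    intro p
    rw [hu₀]
    exact Ideal.mem_span_singleton
  have hu0 : u₀ ≠ 0 := by
    rintro rfl
    exact sub_sq_ne hd v (zero_dvd_iff.1 ((hmem _).1 hfv))
  have hlc : u₀.leadingCoeff ≠ 0 := leadingCoeff_ne_zero.2 hu0
  set u := u₀ * C u₀.leadingCoeff⁻¹ with hu
  have hass : ∀ p, u ∣ p ↔ u₀ ∣ p := by
    intro p
    have h1 : IsUnit (C u₀.leadingCoeff⁻¹) := isUnit_C.2 (isUnit_iff_ne_zero.2 (inv_ne_zero hlc))
    exact h1.mul_right_dvd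
  refine ⟨c, u, v, hc0, monic_mul_leadingCoeff_inv hu0, (hass _).2 ((hmem _).1 hfv), ?_⟩
  have hudvd : u ∣ f - v ^ 2 := (hass _).2 ((hmem _).1 hfv)
  apply le_antisymm
  · intro z hzI
    obtain ⟨p, hp⟩ := hre z hzI
    obtain ⟨q, hq⟩ := him z hzI
    have h1 : z = cc f c * ⟨p, q⟩ := by
      rw [cc_mul]
      exact QuadraticAlgebra.ext hp hq
    rw [h1]
    refine Ideal.mul_mem_mul (Ideal.mem_span_singleton_self _) ((mem_Mu hudvd).2 ?_)
    rw [hass, ← hmem]
    show cc f (c * (p + q * v)) ∈ I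
    have h2 : cc f (c * (p + q * v)) = z - cc f q * z₀ := by
      rw [h1, hz, eq_cc (⟨p, q⟩ : Q f)]
      simp only [map_add, map_mul]
      ring
    rw [h2]
    exact I.sub_mem hzI (I.mul_mem_left _ hz₀)
  · rw [Mu, Ideal.span_mul_span', Ideal.span_le]
    rintro z ⟨a, ha, b, hb, rfl⟩
    rw [Set.mem_singleton_iff] at ha
    subst ha
    rcases hb with rfl | hb
    · show cc f c * cc f u ∈ I
      rw [← map_mul]
      exact (hmem u).2 ((hass u).1 dvd_rfl)
    · rw [Set.mem_singleton_iff] at hb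
      subst hb
      show cc f c * (yy f - cc f v) ∈ I
      rw [← hz]
      exact hz₀

end Pool.Agent.H14P
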