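import Pool.Agent.H14P.Loc3
import Pool.Agent.TH943.HJ.Ded

/-!
# From the Picard group to points

By helper14.
-/

set_option autoImplicit false
set_option linter.all false

open Polynomial
open scoped nonZeroDivisors

noncomputable section

namespace Pool.Agent.H14P

/-- discrete valuation rings -/
theorem dv_of_dvr (O K : Type) [CommRing O] [IsDomain O] [IsDiscreteValuationRing O] [Field K]
    [Algebra O K] [IsFractionRing O K] {π : O} (hπ : Irreducible π) :
    DV K π (IsLocalRing.residue O) where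
  surj := IsLocalRing.residue_surjective
  ker a := by
    rw [IsLocalRing.residue_eq_zero_iff, hπ.maximalIdeal_eq, Ideal.mem_span_singleton]
  inj := IsFractionRing.injective O K
  fac a ha := by
    obtain ⟨n, u, hu⟩ := IsDiscreteValuationRing.associated_pow_irreducible ha hπ
    refine ⟨n, ((u⁻¹ : Oˣ) : O), ?_, ?_⟩
    · rw [← hu, mul_assoc, Units.mul_inv, mul_one]
    · rw [IsLocalRing.residue_ne_zero_iff_isUnit]
      exact Units.isUnit _
  frac x := by
    obtain ⟨a, b, hb, rfl⟩ := IsFractionRing.div_surjective (A := O) x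
    have hb0 : b ≠ 0 := nonZeroDivisors.ne_zero hb
    obtain ⟨n, u, hu⟩ := IsDiscreteValuationRing.associated_pow_irreducible hb0 hπ
    refine ⟨n, u * a, ?_⟩
    have hbK : algebraMap O K b ≠ 0 := fun h0 =>
      hb0 (IsFractionRing.injective O K (by rw [h0, map_zero]))
    rw [← hu, map_mul, map_mul]
    field_simp
  ne := hπ.ne_zero

/-! ### The coordinate ring -/

section iso

variable {K : Type} [Field K] (f : K[X])

/-- the homomorphism -/
def lf : AdjoinRoot (X ^ 2 - C f : K[X][X]) →+* Q f :=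
  AdjoinRoot.lift (cc f) (yy f) (by
    rw [eval₂_sub, eval₂_pow, eval₂_X, eval₂_C, pow_two, yy_sq, sub_self])

theorem lf_el (p q : K[X]) : lf f (Pool.Agent.TH943.HJ.el p q) = ⟨p, q⟩ := by
  unfold Pool.Agent.TH943.HJ.el Pool.Agent.TH943.HJ.yy
  rw [map_add, map_mul, lf, Pool.Agent.TH943.HJ.pp_eq, Pool.Agent.TH943.HJ.pp_eq,
    AdjoinRoot.algebraMap_eq, AdjoinRoot.lift_of, AdjoinRoot.lift_of, AdjoinRoot.lift_root]
  exact (eq_cc (⟨p, q⟩ : Q f)).symm

theorem lf_bij : Function.Bijective (lf f) := by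
  constructor
  · rw [injective_iff_map_eq_zero]
    intro z hz
    obtain ⟨p, q, rfl⟩ := Pool.Agent.TH943.HJ.exists_el z
    rw [lf_el] at hz
    have h1 : p = 0 := congrArg QuadraticAlgebra.re hz
    have h2 : q = 0 := congrArg QuadraticAlgebra.im hz
    rw [h1, h2]
    unfold Pool.Agent.TH943.HJ.el
    simp
  · intro z
    exact ⟨Pool.Agent.TH943.HJ.el z.re z.im, lf_el f _ _⟩

/-- the isomorphism -/
def iso : AdjoinRoot (X ^ 2 - C f : K[X][X]) ≃+* Q f := RingEquiv.ofBijective (lf f) (lf_bij f)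

end iso

/-! ### The Picard group -/

theorem pow_surj {G : Type*} [CommGroup G] (h : Function.Surjective fun P : G => P ^ 2) (n : ℕ)
    (c : G) : ∃ d, d ^ (2 ^ n) = c := by
  induction n generalizing c with
  | zero => exact ⟨c, by simp⟩
  | succ n ih =>
    obtain ⟨d, hd⟩ := h c
    obtain ⟨e, he⟩ := ih d
    exact ⟨e, by rw [pow_succ, pow_mul, he]; exact hd⟩

theorem ideals_of_pic {A : Type} [CommRing A] [IsDedekindDomain A]
    (h : Function.Surjective fun P : CommRing.Pic A => P ^ 2) (J : Ideal A) (hJ : J ≠ ⊥) (n : ℕ) :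
    ∃ I : Ideal A, I ≠ ⊥ ∧ ∃ φ, I ^ (2 ^ n) * J = Ideal.span {φ} := by
  have hJ' : J ∈ (Ideal A)⁰ := mem_nonZeroDivisors_of_ne_zero hJ
  obtain ⟨P, hP⟩ := pow_surj h n (ClassGroup.equivPic A (ClassGroup.mk0 ⟨J, hJ'⟩)⁻¹)
  obtain ⟨⟨I, hI'⟩, hI⟩ := ClassGroup.mk0_surjective ((ClassGroup.equivPic A).symm P)
  have hI0 : I ≠ ⊥ := nonZeroDivisors.ne_zero hI'
  refine ⟨I, hI0, ?_⟩
  have h1 : ClassGroup.mk0 ((⟨I, hI'⟩ : (Ideal A)⁰) ^ (2 ^ n) * ⟨J, hJ'⟩) = 1 := by
    rw [map_mul, map_pow, hI, ← map_pow (ClassGroup.equivPic A).symm, hP, MulEquiv.symm_apply_apply,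
      inv_mul_cancel]
  have hh : I ^ (2 ^ n) * J ∈ (Ideal A)⁰ := mul_mem (pow_mem hI' _) hJ'
  have e : (⟨I ^ (2 ^ n) * J, hh⟩ : (Ideal A)⁰) = (⟨I, hI'⟩ : (Ideal A)⁰) ^ (2 ^ n) * ⟨J, hJ'⟩ := by
    apply Subtype.ext
    rfl
  rw [← e] at h1
  have h2 := (ClassGroup.mk0_eq_one_iff hh).1 h1
  obtain ⟨φ, hφ⟩ := h2.principal
  exact ⟨φ, hφ⟩

/-- the statement for the ring `Q f` -/
theorem ideals_Q {K : Type} [Field K] {f : K[X]} (h2 : (2 : K) ≠ 0) (hodd : Odd f.natDegree)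
    (hsq : Squarefree f)
    (h : Function.Surjective fun P : CommRing.Pic (AdjoinRoot (X ^ 2 - C f : K[X][X])) => P ^ 2)
    (J : Ideal (Q f)) (hJ : J ≠ ⊥) (n : ℕ) :
    ∃ I : Ideal (Q f), I ≠ ⊥ ∧ ∃ φ, I ^ (2 ^ n) * J = Ideal.span {φ} := by
  haveI : IsDedekindDomain (AdjoinRoot (X ^ 2 - C f : K[X][X])) :=
    Pool.Agent.TH943.HJ.dedekind h2 hodd hsq
  have hJ' : J.map (iso f).symm ≠ ⊥ := by
    intro h0
    apply hJ
    rw [Ideal.map_eq_bot_iff_of_injective (iso f).symm.injective] at h0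
    exact h0
  obtain ⟨I, hI, φ, hφ⟩ := ideals_of_pic h (J.map (iso f).symm) hJ' n
  refine ⟨I.map (iso f), ?_, iso f φ, ?_⟩
  · intro h0
    rw [Ideal.map_eq_bot_iff_of_injective (iso f).injective] at h0
    exact hI h0
  · have h1 := congrArg (Ideal.map (iso f)) hφ
    rw [Ideal.map_mul, Ideal.map_pow, Ideal.map_span, Set.image_singleton] at h1
    rw [← h1]
    congr 1
    rw [Ideal.map_symm]
    exact (Ideal.map_comap_of_surjective (iso f) (iso f).surjective J).symm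

/-! ### Extension of the field -/

theorem map_Mu {M E : Type} [Field M] [Field E] (ι : M →+* E) {f u v : M[X]} :
    (Mu f u v).map (mp ι f) = Mu (f.map ι) (u.map ι) (v.map ι) := by
  unfold Mu
  rw [Ideal.map_span, Set.image_pair]
  have e1 : mp ι f (yy f) = yy (f.map ι) := by
    refine QuadraticAlgebra.ext ?_ ?_
    · show (0 : M[X]).map ι = 0
      simp
    · show (1 : M[X]).map ι = 1
      simp
  rw [map_sub, mp_cc, mp_cc, e1]

/-- **No infinitely divisible points.** -/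
theorem no_pt' {M E O k : Type} [Field M] [CommRing O] [IsDomain O] [Field E] [Field k] [Algebra O E]
    {π : O} {ρ : O →+* k} (h : DV E π ρ) (ι : M →+* E) {f : M[X]} {fO : O[X]} {g : ℕ}
    (hf : f.map ι = fO.map (algebraMap O E)) (hm : fO.Monic) (hd : fO.natDegree = 2 * g + 1)
    (hreg : Reg π ρ fO) (h2 : π ∣ 2) (hs : f.Separable) (h2M : (2 : M) ≠ 0) (hg : 1 ≤ g)
    {x y : M} (hxy : y ^ 2 = f.eval x)
    (hI : ∀ n : ℕ, ∃ I : Ideal (Q f), I ≠ ⊥ ∧
      ∃ φ, I ^ (2 ^ (n + 1)) * Mu f (X - C x) (C y) = Ideal.span {φ}) : False := by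
  have hsE : Squarefree (fO.map (algebraMap O E)) := by
    rw [← hf]
    exact (hs.map).squarefree
  have h2E : (2 : E) ≠ 0 := by
    intro h0
    apply h2M
    apply ι.injective
    rw [map_ofNat, h0, map_zero]
  refine no_point h hm hd hreg h2 hsE h2E hg (x₀ := ι x) (y₀ := ι y) ?_ ?_
  · rw [← hf, eval_map, eval₂_at_apply, ← hxy, map_pow]
  · intro n
    obtain ⟨I, hI, φ, hφ⟩ := hI n
    rw [← hf]
    refine ⟨I.map (mp ι f), ?_, mp ι f φ, ?_⟩
    · intro h0
      rw [Ideal.map_eq_bot_iff_of_injective (mp_inj ι.injective)] at h0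
      exact hI h0
    · have h1 := congrArg (Ideal.map (mp ι f)) hφ
      rw [Ideal.map_mul, Ideal.map_pow, Ideal.map_span, Set.image_singleton, map_Mu] at h1
      rw [← h1]
      simp

theorem Mu_ne {M : Type} [Field M] {f : M[X]} (x y : M) : Mu f (X - C x) (C y) ≠ ⊥ := by
  intro h0
  have h1 : cc f (X - C x) ∈ Mu f (X - C x) (C y) := Ideal.subset_span (by simp)
  rw [h0, Ideal.mem_bot] at h1
  exact cc_ne (X_sub_C_ne_zero x) h1

/-- **No points.** -/
theorem no_pt {M E O k : Type} [Field M] [CommRing O] [IsDomain O] [Field E] [Field k] [Algebra O E]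
    {π : O} {ρ : O →+* k} (h : DV E π ρ) (ι : M →+* E) {f : M[X]} {fO : O[X]} {g : ℕ}
    (hf : f.map ι = fO.map (algebraMap O E)) (hm : fO.Monic) (hd : fO.natDegree = 2 * g + 1)
    (hreg : Reg π ρ fO) (h2 : π ∣ 2) (hs : f.Separable) (h2M : (2 : M) ≠ 0) (hg : 1 ≤ g)
    (hJ : Function.Surjective fun P : CommRing.Pic (AdjoinRoot (X ^ 2 - C f : M[X][X])) => P ^ 2)
    {x y : M} (hxy : y ^ 2 = f.eval x) : False := by
  have hdf : f.natDegree = 2 * g + 1 := by
    rw [← natDegree_map ι, hf, hm.natDegree_map, hd]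
  have hP' : X - C x ∣ f - C y ^ 2 := by
    rw [dvd_iff_isRoot, IsRoot, eval_sub, ← hxy]
    simp
  have hsE : Squarefree (fO.map (algebraMap O E)) := by
    rw [← hf]
    exact (hs.map).squarefree
  have h2E : (2 : E) ≠ 0 := by
    intro h0
    apply h2M
    apply ι.injective
    rw [map_ofNat, h0, map_zero]
  have hMu : Mu f (X - C x) (C y) ≠ ⊥ := by
    intro h0
    have h1 : cc f (X - C x) ∈ Mu f (X - C x) (C y) := Ideal.subset_span (by simp)
    rw [h0, Ideal.mem_bot] at h1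
    exact cc_ne (X_sub_C_ne_zero x) h1
  refine no_point h hm hd hreg h2 hsE h2E hg (x₀ := ι x) (y₀ := ι y) ?_ ?_
  · rw [← hf, eval_map, eval₂_at_apply, ← hxy, map_pow]
  · intro n
    obtain ⟨I, hI, φ, hφ⟩ := ideals_Q h2M ⟨g, hdf⟩ hs.squarefree hJ _ hMu (n + 1)
    rw [← hf]
    refine ⟨I.map (mp ι f), ?_, mp ι f φ, ?_⟩
    · intro h0
      rw [Ideal.map_eq_bot_iff_of_injective (mp_inj ι.injective)] at h0
      exact hI h0
    · have h1 := congrArg (Ideal.map (mp ι f)) hφ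
      rw [Ideal.map_mul, Ideal.map_pow, Ideal.map_span, Set.image_singleton, map_Mu] at h1
      rw [← h1]
      simp

end Pool.Agent.H14P
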