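import Mathlib

/-!
# The ring `E[x, y] / (y ^ 2 - f(x))`

By helper14.
-/

set_option autoImplicit false
set_option linter.all false

open Polynomial

noncomputable section

namespace Pool.Agent.H14P

/-- The ring `E[x, y] / (y ^ 2 - f(x))`. -/
abbrev Q {E : Type} [CommRing E] (f : E[X]) : Type := QuadraticAlgebra E[X] f 0

section basic

variable {E E' : Type} [CommRing E] [CommRing E'] {f : E[X]}

/-- polynomials in `x` -/
def cc (f : E[X]) : E[X] →+* Q f := algebraMap E[X] (Q f)

theorem cc_re (p : E[X]) : (cc f p).re = p := rfl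
theorem cc_im (p : E[X]) : (cc f p).im = 0 := rfl

theorem cc_mul (p : E[X]) (z : Q f) : cc f p * z = ⟨p * z.re, p * z.im⟩ := by
  ext1
  · simp [cc_re, cc_im]
  · simp [cc_re, cc_im]

theorem cc_inj {p q : E[X]} (h : cc f p = cc f q) : p = q := congrArg QuadraticAlgebra.re h

theorem smul_cc (p : E[X]) (z : Q f) : p • z = cc f p * z := Algebra.smul_def p z

theorem cc_dvd (p : E[X]) (z : Q f) : cc f p ∣ z ↔ p ∣ z.re ∧ p ∣ z.im :=
  QuadraticAlgebra.algebraMap_dvd_iff

/-- The function `y`. -/
def yy (f : E[X]) : Q f := ⟨0, 1⟩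

theorem yy_sq : yy f * yy f = cc f f := by
  ext1 <;> simp [yy, cc_re, cc_im]

theorem eq_cc (z : Q f) : z = cc f z.re + cc f z.im * yy f := by
  ext1 <;> simp [yy, cc_re, cc_im]

/-- Conjugation. -/
def cj (f : E[X]) : Q f →+* Q f where
  toFun z := ⟨z.re, -z.im⟩
  map_one' := by ext1 <;> simp [QuadraticAlgebra.re_one, QuadraticAlgebra.im_one]
  map_mul' z w := by
    ext1
    · simp
    · simp; ring
  map_zero' := by ext1 <;> simp
  map_add' z w := by
    ext1
    · simp
    · simp; ring

theorem cj_re (z : Q f) : (cj f z).re = z.re := rfl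
theorem cj_im (z : Q f) : (cj f z).im = -z.im := rfl

theorem cj_cj (z : Q f) : cj f (cj f z) = z := by
  ext1 <;> simp [cj_re, cj_im]

theorem cj_cc (p : E[X]) : cj f (cc f p) = cc f p := by
  ext1
  · rfl
  · show -(0 : E[X]) = 0
    simp

/-- The norm. -/
def nm {f : E[X]} (z : Q f) : E[X] := z.re * z.re - f * z.im * z.im

theorem cc_nm (z : Q f) : cc f (nm z) = z * cj f z := by
  ext1
  · simp [nm, cj_re, cj_im, cc_re, cc_im]; ring
  · simp [nm, cj_re, cj_im, cc_re, cc_im]; ring

theorem nm_mul (z w : Q f) : nm (z * w) = nm z * nm w := by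
  simp [nm]; ring

theorem nm_one : nm (1 : Q f) = 1 := by
  simp [nm, QuadraticAlgebra.re_one, QuadraticAlgebra.im_one]

theorem nm_pow (z : Q f) (n : ℕ) : nm (z ^ n) = nm z ^ n := by
  induction n with
  | zero => simp [nm_one]
  | succ n ih => rw [pow_succ, pow_succ, nm_mul, ih]

theorem nm_cc (p : E[X]) : nm (cc f p) = p * p := by
  simp [nm, cc_re, cc_im]

theorem nm_cj (z : Q f) : nm (cj f z) = nm z := by
  simp [nm, cj_re, cj_im]

/-- The map given by a homomorphism of the coefficients. -/
def mp (φ : E →+* E') (f : E[X]) : Q f →+* Q (f.map φ) where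
  toFun z := ⟨z.re.map φ, z.im.map φ⟩
  map_one' := by ext1 <;> simp [QuadraticAlgebra.re_one, QuadraticAlgebra.im_one]
  map_mul' z w := by
    ext1
    · simp
    · simp
  map_zero' := by ext1 <;> simp
  map_add' z w := by ext1 <;> simp

theorem mp_re (φ : E →+* E') (z : Q f) : (mp φ f z).re = z.re.map φ := rfl
theorem mp_im (φ : E →+* E') (z : Q f) : (mp φ f z).im = z.im.map φ := rfl

theorem mp_cc (φ : E →+* E') (p : E[X]) : mp φ f (cc f p) = cc (f.map φ) (p.map φ) := by
  ext1
  · rfl
  · show (0 : E[X]).map φ = 0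
    simp

theorem mp_cj (φ : E →+* E') (z : Q f) : mp φ f (cj f z) = cj (f.map φ) (mp φ f z) := by
  ext1
  · rfl
  · show (-z.im).map φ = -(z.im.map φ)
    simp

theorem nm_mp (φ : E →+* E') (z : Q f) : nm (mp φ f z) = (nm z).map φ := by
  simp [nm, mp_re, mp_im]

theorem mp_inj {φ : E →+* E'} (h : Function.Injective φ) : Function.Injective (mp φ f) := by
  intro z w hzw
  have h1 := congrArg QuadraticAlgebra.re hzw
  have h2 := congrArg QuadraticAlgebra.im hzw
  exact QuadraticAlgebra.ext (Polynomial.map_injective φ h h1) (Polynomial.map_injective φ h h2)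

theorem mp_surj {φ : E →+* E'} (h : Function.Surjective φ) : Function.Surjective (mp φ f) := by
  intro z
  obtain ⟨a, ha⟩ := Polynomial.map_surjective φ h z.re
  obtain ⟨b, hb⟩ := Polynomial.map_surjective φ h z.im
  exact ⟨⟨a, b⟩, QuadraticAlgebra.ext ha hb⟩

end basic

theorem cc_zero {E : Type} [CommRing E] (f : E[X]) : cc f 0 = 0 := map_zero (cc f)

theorem cc_one {E : Type} [CommRing E] (f : E[X]) : cc f 1 = 1 := map_one (cc f)

theorem cc_ne {E : Type} [CommRing E] {f p : E[X]} (hp : p ≠ 0) : cc f p ≠ 0 := by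
  rw [← cc_zero]
  exact fun h => hp (cc_inj h)

theorem cc_cancel {E : Type} [CommRing E] [IsDomain E] {f p : E[X]} (hp : p ≠ 0) {z w : Q f}
    (h : cc f p * z = cc f p * w) : z = w := by
  rw [cc_mul, cc_mul] at h
  have h1 := congrArg QuadraticAlgebra.re h
  have h2 := congrArg QuadraticAlgebra.im h
  exact QuadraticAlgebra.ext (mul_left_cancel₀ hp h1) (mul_left_cancel₀ hp h2)

/-! ### Degrees -/

section deg

variable {E : Type} [CommRing E] [IsDomain E] {f : E[X]} {g : ℕ} (hm : f.Monic)
  (hd : f.natDegree = 2 * g + 1)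

include hm hd

/-- the degree of the norm -/
theorem deg_nm (z : Q f) (hz : z.im ≠ 0) (h : 2 * z.re.natDegree < 2 * g + 1 + 2 * z.im.natDegree) :
    (nm z).natDegree = 2 * g + 1 + 2 * z.im.natDegree ∧
      (nm z).leadingCoeff = -(z.im.leadingCoeff) ^ 2 := by
  have h1 : (f * z.im * z.im).natDegree = 2 * g + 1 + 2 * z.im.natDegree := by
    rw [natDegree_mul (mul_ne_zero hm.ne_zero hz) hz, natDegree_mul hm.ne_zero hz, hd]
    ring
  have h2 : (z.re * z.re).natDegree < (f * z.im * z.im).natDegree := by
    rw [h1]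
    refine lt_of_le_of_lt natDegree_mul_le ?_
    omega
  have h3 : nm z = -(f * z.im * z.im) + z.re * z.re := by unfold nm; ring
  have h4 : (z.re * z.re).natDegree < (-(f * z.im * z.im)).natDegree := by rwa [natDegree_neg]
  constructor
  · rw [h3, natDegree_add_eq_left_of_natDegree_lt h4, natDegree_neg, h1]
  · rw [h3, leadingCoeff_add_of_degree_lt' (degree_lt_degree h4), leadingCoeff_neg,
      leadingCoeff_mul, leadingCoeff_mul, hm.leadingCoeff]
    ring

theorem deg_nm' (z : Q f) (hz : z.re ≠ 0)
    (h : z.im ≠ 0 → 2 * g + 1 + 2 * z.im.natDegree < 2 * z.re.natDegree) :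
    (nm z).natDegree = 2 * z.re.natDegree := by
  have h1 : (z.re * z.re).natDegree = 2 * z.re.natDegree := by
    rw [natDegree_mul hz hz]
    ring
  by_cases him : z.im = 0
  · unfold nm
    rw [him, mul_zero, sub_zero, h1]
  · have h0 := h him
    have h2 : (f * z.im * z.im).natDegree = 2 * g + 1 + 2 * z.im.natDegree := by
      rw [natDegree_mul (mul_ne_zero hm.ne_zero him) him, natDegree_mul hm.ne_zero him, hd]
      ring
    unfold nm
    rw [natDegree_sub_eq_left_of_natDegree_lt (by rw [h1, h2]; exact h0), h1]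

theorem nm_eq_zero {z : Q f} : nm z = 0 ↔ z = 0 := by
  constructor
  · intro h
    by_contra hz
    rcases lt_or_ge (2 * z.re.natDegree) (2 * g + 1 + 2 * z.im.natDegree) with h1 | h1
    · by_cases him : z.im = 0
      · have hre : z.re ≠ 0 := fun h2 => hz (QuadraticAlgebra.ext h2 him)
        unfold nm at h
        rw [him, mul_zero, sub_zero] at h
        exact hre (mul_self_eq_zero.1 h)
      · have h2 := (deg_nm hm hd z him h1).1
        rw [h, natDegree_zero] at h2
        omega
    · have hre : z.re ≠ 0 := by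
        intro h2
        rw [h2, natDegree_zero] at h1
        omega
      have h2 := deg_nm' hm hd z hre (fun _ => by omega)
      rw [h, natDegree_zero] at h2
      omega
  · rintro rfl
    simp [nm]

theorem isDomain_Q : IsDomain (Q f) := by
  haveI : NoZeroDivisors (Q f) := by
    refine ⟨fun {a b} h => ?_⟩
    have h1 : nm a * nm b = 0 := by
      rw [← nm_mul, h]
      simp [nm]
    rcases mul_eq_zero.1 h1 with h2 | h2
    · exact Or.inl ((nm_eq_zero hm hd).1 h2)
    · exact Or.inr ((nm_eq_zero hm hd).1 h2)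
  exact NoZeroDivisors.to_isDomain _

/-- elements of small degree are polynomials in `x` -/
theorem small {z : Q f} (h : (nm z).natDegree ≤ 2 * g) : z.im = 0 ∧ z.re.natDegree ≤ g := by
  by_cases him : z.im = 0
  · refine ⟨him, ?_⟩
    by_cases hre : z.re = 0
    · rw [hre]; simp
    · have h2 := deg_nm' hm hd z hre (fun h => absurd him h)
      omega
  · exfalso
    rcases lt_or_ge (2 * z.re.natDegree) (2 * g + 1 + 2 * z.im.natDegree) with h1 | h1
    · have h2 := (deg_nm hm hd z him h1).1
      omega
    · have hre : z.re ≠ 0 := by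
        intro h2
        rw [h2, natDegree_zero] at h1
        omega
      have h2 := deg_nm' hm hd z hre (fun _ => by omega)
      omega

/-- elements of odd degree -/
theorem odd_deg {z : Q f} {N : ℕ} (h : (nm z).natDegree = 2 * N + 1) :
    2 * g + 1 + 2 * z.im.natDegree = 2 * N + 1 ∧
      (nm z).leadingCoeff = -(z.im.leadingCoeff) ^ 2 := by
  by_cases him : z.im = 0
  · exfalso
    by_cases hre : z.re = 0
    · have : z = 0 := QuadraticAlgebra.ext hre him
      rw [(nm_eq_zero hm hd).2 this] at h
      simp at h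
    · have h2 := deg_nm' hm hd z hre (fun h => absurd him h)
      omega
  · rcases lt_or_ge (2 * z.re.natDegree) (2 * g + 1 + 2 * z.im.natDegree) with h1 | h1
    · have h2 := deg_nm hm hd z him h1
      exact ⟨by omega, h2.2⟩
    · exfalso
      have hre : z.re ≠ 0 := by
        intro h2
        rw [h2, natDegree_zero] at h1
        omega
      have h2 := deg_nm' hm hd z hre (fun _ => by omega)
      omega

end deg

end Pool.Agent.H14P
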