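import Pool.Agent.H14P.Dv

/-!
# Saturated ideals and the multipliers of their reductions

By helper14. `f` is regular if it is not a square modulo the square of a maximal ideal `(π, m)` of `O[x]`.
Then `O[x, y] / (y ^ 2 - f)` is regular, and the reductions of the saturated ideals are invertible; we only
prove that their multipliers are in the ring.
-/

set_option autoImplicit false
set_option linter.all false

open Polynomial

noncomputable section

namespace Pool.Agent.H14P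

variable {O K k : Type} [CommRing O] [IsDomain O] [Field K] [Field k] [Algebra O K]

/-- `f` is not a square modulo the squares of the maximal ideals `(π, m)`. -/
def Reg (π : O) (ρ : O →+* k) (f : O[X]) : Prop :=
  ∀ m v c₁ c₂ c₃ : O[X], Irreducible (m.map ρ) →
    f ≠ v ^ 2 + m ^ 2 * c₁ + C π * m * c₂ + C (π ^ 2) * c₃

variable {π : O} {ρ : O →+* k} (h : DV K π ρ) {f : O[X]} {g : ℕ} (hm : f.Monic)
  (hd : f.natDegree = 2 * g + 1) (I : Ideal (Q f))

/-- The ideal is saturated. -/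
def Sat (π : O) {f : O[X]} (I : Ideal (Q f)) : Prop := ∀ a, cc f (C π) * a ∈ I → a ∈ I

include h in
/-- a primitive element -/
theorem exists_prim (hI : Sat π I) (hne : I ≠ ⊥) : ∃ a ∈ I, mp ρ f a ≠ 0 := by
  obtain ⟨a, ha, ha0⟩ := Submodule.exists_mem_ne_zero_of_ne_bot hne
  obtain ⟨n, b, rfl, hb1⟩ := h.qfac ha0
  refine ⟨b, ?_, hb1⟩
  clear ha0
  induction n with
  | zero =>
    rw [pow_zero, C_1, cc_one, one_mul] at ha
    exact ha
  | succ n ih =>
    apply ih
    apply hI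
    rw [← mul_assoc, ← map_mul, ← C_mul, ← pow_succ']
    exact ha

include hm hd in
/-- an element of minimal degree -/
theorem exists_min (hne : ∃ a ∈ I, mp ρ f a ≠ 0) : ∃ e ∈ I, mp ρ f e ≠ 0 ∧
    ∀ m : k[X], Irreducible m → ∀ a ∈ I, mp ρ f e ≠ cc _ m * mp ρ f a := by
  classical
  have hm' : (f.map ρ).Monic := hm.map ρ
  have hd' : (f.map ρ).natDegree = 2 * g + 1 := by rw [hm.natDegree_map, hd]
  obtain ⟨a₀, ha₀, ha₀'⟩ := hne
  have hex : ∃ n, ∃ a ∈ I, mp ρ f a ≠ 0 ∧ (nm (mp ρ f a)).natDegree = n :=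
    ⟨_, a₀, ha₀, ha₀', rfl⟩
  obtain ⟨e, he, he0, hen⟩ := Nat.find_spec hex
  refine ⟨e, he, he0, fun m hmi a ha hea => ?_⟩
  have ha0 : mp ρ f a ≠ 0 := by
    intro h0
    rw [h0, mul_zero] at hea
    exact he0 hea
  have hn0 : nm (mp ρ f a) ≠ 0 := fun h0 => ha0 ((nm_eq_zero hm' hd').1 h0)
  have h1 : (nm (mp ρ f e)).natDegree = 2 * m.natDegree + (nm (mp ρ f a)).natDegree := by
    rw [hea, nm_mul, nm_cc, natDegree_mul (mul_ne_zero hmi.ne_zero hmi.ne_zero) hn0,
      natDegree_mul hmi.ne_zero hmi.ne_zero]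
    ring
  have h2 := Nat.find_min' hex ⟨a, ha, ha0, rfl⟩
  have h3 : 0 < m.natDegree := hmi.natDegree_pos
  omega

variable {I}

/-- divisibility of a polynomial from the element `e` -/
theorem mdvd (hs : Function.Surjective ρ) {e : Q f} (he : e ∈ I)
    (hmin : ∀ m : k[X], Irreducible m → ∀ a ∈ I, mp ρ f e ≠ cc _ m * mp ρ f a)
    {m c : k[X]} (hmi : Irreducible m) {b : Q f} (hb : b ∈ I)
    (hc : cc _ c * mp ρ f e = cc _ m * mp ρ f b) : m ∣ c := by
  by_contra hn
  obtain ⟨α, β, hαβ⟩ := (hmi.coprime_iff_not_dvd.2 hn)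
  -- α * m + β * c = 1
  obtain ⟨α', rfl⟩ := Polynomial.map_surjective ρ hs α
  obtain ⟨β', rfl⟩ := Polynomial.map_surjective ρ hs β
  refine hmin m hmi (cc f α' * e + cc f β' * b)
    (I.add_mem (I.mul_mem_left _ he) (I.mul_mem_left _ hb)) ?_
  rw [map_add, map_mul, map_mul, mp_cc, mp_cc]
  calc mp ρ f e = cc (f.map ρ) (α'.map ρ * m + β'.map ρ * c) * mp ρ f e := by
        rw [hαβ, cc_one, one_mul]
    _ = cc _ m * (cc _ (α'.map ρ) * mp ρ f e) + cc _ (β'.map ρ) * (cc _ c * mp ρ f e) := by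
        rw [map_add, map_mul, map_mul]; ring
    _ = _ := by rw [hc]; ring

include h hm hd

/-- multipliers, the case of an irreducible polynomial -/
theorem mult_irr (hI : Sat π I) (hne : ∃ a ∈ I, mp ρ f a ≠ 0) (hreg : Reg π ρ f) (h2 : π ∣ 2)
    {m : k[X]} (hmi : Irreducible m) {w : Q (f.map ρ)}
    (hw : ∀ a ∈ I, ∃ a' ∈ I, w * mp ρ f a = cc _ m * mp ρ f a') :
    ∃ w', w = cc _ m * w' := by
  obtain ⟨e, he, he0, hmin⟩ := exists_min (ρ := ρ) hm hd I hne
  have hs := h.surj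
  by_cases hb : m ∣ w.im
  · suffices h3 : m ∣ w.re from (cc_dvd m w).2 ⟨h3, hb⟩
    obtain ⟨b', hb'⟩ := hb
    obtain ⟨b'', hb''⟩ := Polynomial.map_surjective ρ hs b'
    obtain ⟨e', he', hee⟩ := hw e he
    refine mdvd hs he hmin hmi (b := e' - cc f b'' * (yy f * e))
      (I.sub_mem he' (I.mul_mem_left _ (I.mul_mem_left _ he))) ?_
    have hyy : mp ρ f (yy f) = yy (f.map ρ) := by
      refine QuadraticAlgebra.ext ?_ ?_
      · show (0 : O[X]).map ρ = 0
        simp
      · show (1 : O[X]).map ρ = 1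
        simp
    rw [map_sub, map_mul, map_mul, mp_cc, hb'', hyy, mul_sub, ← hee]
    have h4 : w = cc _ w.re + cc _ m * cc _ b' * yy _ := by
      rw [← map_mul, ← hb']
      exact eq_cc w
    calc cc _ w.re * mp ρ f e = (cc _ w.re + cc _ m * cc _ b' * yy _) * mp ρ f e -
          cc _ m * (cc _ b' * (yy _ * mp ρ f e)) := by ring
      _ = _ := by rw [← h4]
  · exfalso
    obtain ⟨β, α, hαβ⟩ := (hmi.coprime_iff_not_dvd.2 hb)
    -- β * m + α * w.im = 1
    have hyy : mp ρ f (yy f) = yy (f.map ρ) := by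
      refine QuadraticAlgebra.ext ?_ ?_
      · show (0 : O[X]).map ρ = 0
        simp
      · show (1 : O[X]).map ρ = 1
        simp
    obtain ⟨m', hm'⟩ := Polynomial.map_surjective ρ hs m
    obtain ⟨v, hv⟩ := Polynomial.map_surjective ρ hs (-(α * w.re))
    obtain ⟨α', hα'⟩ := Polynomial.map_surjective ρ hs α
    obtain ⟨β', hβ'⟩ := Polynomial.map_surjective ρ hs β
    have H1 : ∀ a ∈ I, ∃ a₁ ∈ I, ∃ a₂ ∈ I,
        (yy f - cc f v) * a = cc f m' * a₁ + cc f (C π) * a₂ := by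
      intro a ha
      obtain ⟨a', ha', haa⟩ := hw a ha
      have h3 : mp ρ f ((yy f - cc f v) * a) =
          mp ρ f (cc f m' * (cc f α' * a' + cc f β' * (yy f * a))) := by
        rw [map_mul, map_sub, hyy, mp_cc, hv, map_mul, map_add, map_mul, map_mul, map_mul, mp_cc,
          mp_cc, mp_cc, hm', hα', hβ', hyy]
        have h4 : cc (f.map ρ) α * w = cc _ (α * w.re) + cc _ (α * w.im) * yy _ := by
          conv_lhs => rw [eq_cc w]
          rw [map_mul, map_mul]; ring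
        have h5 : cc (f.map ρ) (α * w.im) = 1 - cc _ β * cc _ m := by
          rw [← map_mul, ← cc_one (f.map ρ), ← hαβ, map_add]; ring
        calc (yy _ - cc _ (-(α * w.re))) * mp ρ f a
            = (cc _ (α * w.re) + cc _ (α * w.im) * yy _ + (1 - cc _ (α * w.im)) * yy _) *
              mp ρ f a := by rw [map_neg]; ring
          _ = (cc _ α * w + cc _ β * cc _ m * yy _) * mp ρ f a := by
              rw [← h4, h5]; ring
          _ = cc _ α * (w * mp ρ f a) + cc _ β * cc _ m * yy _ * mp ρ f a := by ring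
          _ = _ := by rw [haa]; ring
      obtain ⟨t, ht⟩ := h.qsub h3
      have ha1 : cc f α' * a' + cc f β' * (yy f * a) ∈ I :=
        I.add_mem (I.mul_mem_left _ ha') (I.mul_mem_left _ (I.mul_mem_left _ ha))
      refine ⟨_, ha1, t, ?_, ht⟩
      apply hI
      have h6 : cc f (C π) * t = (yy f - cc f v) * a -
          cc f m' * (cc f α' * a' + cc f β' * (yy f * a)) := by rw [ht]; ring
      rw [h6]
      exact I.sub_mem (I.mul_mem_left _ ha) (I.mul_mem_left _ ha1)
    obtain ⟨ε, hε⟩ := h2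
    have hsq : cc f (f - v ^ 2) = (yy f - cc f v) * (yy f - cc f v) +
        cc f (C π) * cc f (C ε * v) * (yy f - cc f v) := by
      have h3 : cc f (C π) * cc f (C ε * v) = 2 * cc f v := by
        rw [← map_mul, ← mul_assoc, ← C_mul, ← hε, map_mul]
        congr 1
      rw [h3, map_sub, map_pow, ← yy_sq]
      ring
    have H2 : ∃ A₁ ∈ I, ∃ A₂ ∈ I, ∃ A₃ ∈ I, cc f (f - v ^ 2) * e =
        cc f (m' * m') * A₁ + cc f (C π) * (cc f m' * A₂ + cc f (C π) * A₃) := by
      obtain ⟨a₁, h1, a₂, h2, e1⟩ := H1 e he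
      obtain ⟨a₁₁, h11, a₁₂, h12, e2⟩ := H1 a₁ h1
      obtain ⟨a₂₁, h21, a₂₂, h22, e3⟩ := H1 a₂ h2
      refine ⟨a₁₁, h11, a₁₂ + a₂₁ + cc f (C ε * v) * a₁,
        I.add_mem (I.add_mem h12 h21) (I.mul_mem_left _ h1), a₂₂ + cc f (C ε * v) * a₂,
        I.add_mem h22 (I.mul_mem_left _ h2), ?_⟩
      calc cc f (f - v ^ 2) * e = (yy f - cc f v) * ((yy f - cc f v) * e) +
            cc f (C π) * cc f (C ε * v) * ((yy f - cc f v) * e) := by rw [hsq]; ring
        _ = cc f m' * ((yy f - cc f v) * a₁) + cc f (C π) * ((yy f - cc f v) * a₂) +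
            cc f (C π) * cc f (C ε * v) * (cc f m' * a₁ + cc f (C π) * a₂) := by rw [e1]; ring
        _ = _ := by rw [e2, e3, map_mul (cc f) m' m']; ring
    obtain ⟨A₁, hA1, A₂, hA2, A₃, hA3, hA⟩ := H2
    have hcne : cc (f.map ρ) m ≠ 0 := cc_ne hmi.ne_zero
    -- first divisibility
    have r1 : cc _ ((f - v ^ 2).map ρ) * mp ρ f e = cc _ m * (cc _ m * mp ρ f A₁) := by
      have h3 := congrArg (mp ρ f) hA
      rw [map_mul, mp_cc, map_add, map_mul, mp_cc, map_mul, mp_cc, map_C, h.rho_pi, C_0, cc_zero,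
        zero_mul, add_zero, Polynomial.map_mul, hm', map_mul] at h3
      rw [h3]; ring
    have d1 : m ∣ (f - v ^ 2).map ρ := by
      refine mdvd hs he hmin hmi (b := cc f m' * A₁) (I.mul_mem_left _ hA1) ?_
      rw [map_mul, mp_cc, hm']
      exact r1
    obtain ⟨c', hc'⟩ := d1
    have r2 : cc _ c' * mp ρ f e = cc _ m * mp ρ f A₁ := by
      apply cc_cancel hmi.ne_zero
      rw [← r1, hc', map_mul]; ring
    obtain ⟨c'', hc''⟩ := mdvd hs he hmin hmi hA1 r2
    obtain ⟨c₁, hc₁⟩ := Polynomial.map_surjective ρ hs c''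
    have r3 : (f - v ^ 2 - m' * m' * c₁).map ρ = 0 := by
      rw [Polynomial.map_sub, hc', Polynomial.map_mul, Polynomial.map_mul, hm', hc₁, hc'']
      ring
    obtain ⟨c₂, hc₂⟩ := h.pdvd.1 r3
    -- the difference
    have r4 : cc (f.map ρ) (m * m) * mp ρ f (A₁ - cc f c₁ * e) = 0 := by
      rw [map_sub, map_mul (mp ρ f), mp_cc, hc₁, mul_sub, map_mul (cc (f.map ρ)) m m]
      have e1 : cc _ m * cc _ m * (cc _ c'' * mp ρ f e) = cc _ m * (cc _ c' * mp ρ f e) := by
        rw [hc'', map_mul]; ring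
      rw [e1, r2]
      ring
    have r5 : mp ρ f (A₁ - cc f c₁ * e) = 0 := by
      apply cc_cancel (mul_ne_zero hmi.ne_zero hmi.ne_zero)
      rw [r4, mul_zero]
    obtain ⟨a', ha'⟩ := h.qdvd.1 r5
    have ha'I : a' ∈ I := by
      apply hI
      rw [← ha']
      exact I.sub_mem hA1 (I.mul_mem_left _ he)
    have r6 : cc f c₂ * e = cc f m' * (cc f m' * a' + A₂) + cc f (C π) * A₃ := by
      apply h.cpi_cancel1
      have e1 : f - v ^ 2 = m' * m' * c₁ + C π * c₂ := by rw [← hc₂]; ring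
      rw [e1, map_add, map_mul (cc f) (m' * m') c₁, map_mul (cc f) (C π) c₂] at hA
      have e2 : A₁ = cc f c₁ * e + cc f (C π) * a' := by rw [← ha']; ring
      rw [e2] at hA
      have e3 : (cc f (m' * m') * cc f c₁ + cc f (C π) * cc f c₂) * e =
          cc f (m' * m') * (cc f c₁ * e) + cc f (C π) * (cc f c₂ * e) := by ring
      rw [e3] at hA
      have e4 : cc f (m' * m') * (cc f c₁ * e + cc f (C π) * a') +
          cc f (C π) * (cc f m' * A₂ + cc f (C π) * A₃) = cc f (m' * m') * (cc f c₁ * e) +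
          cc f (C π) * (cc f m' * (cc f m' * a' + A₂) + cc f (C π) * A₃) := by
        rw [map_mul]; ring
      rw [e4] at hA
      exact add_left_cancel hA
    have d3 : m ∣ c₂.map ρ := by
      refine mdvd hs he hmin hmi (b := cc f m' * a' + A₂) (I.add_mem (I.mul_mem_left _ ha'I) hA2) ?_
      have e1 := congrArg (mp ρ f) r6
      rw [map_mul, mp_cc, map_add, map_mul, mp_cc, map_mul, mp_cc, map_C, h.rho_pi, C_0, cc_zero,
        zero_mul, add_zero, hm'] at e1
      exact e1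
    obtain ⟨c₃', hc₃'⟩ := d3
    obtain ⟨c₃, hc₃⟩ := Polynomial.map_surjective ρ hs c₃'
    have r7 : (c₂ - m' * c₃).map ρ = 0 := by
      rw [Polynomial.map_sub, Polynomial.map_mul, hm', hc₃, hc₃', sub_self]
    obtain ⟨c₄, hc₄⟩ := h.pdvd.1 r7
    refine hreg m' v c₁ c₃ c₄ (by rw [hm']; exact hmi) ?_
    have e1 : f - v ^ 2 = m' * m' * c₁ + C π * c₂ := by rw [← hc₂]; ring
    have e2 : c₂ = m' * c₃ + C π * c₄ := by rw [← hc₄]; ring
    rw [e2] at e1
    rw [C_pow]
    linear_combination e1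

/-- multipliers -/
theorem mult (hI : Sat π I) (hne : ∃ a ∈ I, mp ρ f a ≠ 0) (hreg : Reg π ρ f) (h2 : π ∣ 2)
    (δ : k[X]) (hδ : δ ≠ 0) : ∀ w : Q (f.map ρ),
    (∀ a ∈ I, ∃ a' ∈ I, w * mp ρ f a = cc _ δ * mp ρ f a') → ∃ w', w = cc _ δ * w' := by
  have hs := h.surj
  induction δ using WfDvdMonoid.induction_on_irreducible with
  | zero => exact absurd rfl hδ
  | unit u hu =>
    intro w _
    obtain ⟨v, hv⟩ := hu.exists_right_inv
    exact ⟨cc _ v * w, by rw [← mul_assoc, ← map_mul, hv, cc_one, one_mul]⟩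
  | mul δ m hδ0 hmi ih =>
    intro w hw
    obtain ⟨δ', hδ'⟩ := Polynomial.map_surjective ρ hs δ
    obtain ⟨w₁, hw₁⟩ := mult_irr h hm hd hI hne hreg h2 hmi (w := w) (by
      intro a ha
      obtain ⟨a', ha', e⟩ := hw a ha
      refine ⟨cc f δ' * a', I.mul_mem_left _ ha', ?_⟩
      rw [map_mul, mp_cc, hδ', e, map_mul]; ring)
    obtain ⟨w₂, hw₂⟩ := ih hδ0 w₁ (by
      intro a ha
      obtain ⟨a', ha', e⟩ := hw a ha
      refine ⟨a', ha', ?_⟩
      apply cc_cancel hmi.ne_zero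
      rw [← mul_assoc, ← hw₁, e, map_mul]; ring)
    exact ⟨w₂, by rw [hw₁, hw₂, map_mul]; ring⟩

end Pool.Agent.H14P
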