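import Pool.Agent.H14P.Fin2
import Pool.Agent.H14P.Desc2

/-!
# The components over two of the adelic points surviving 2-power descent, for a positive proportion of
# all hyperelliptic curves of odd degree and infinitely many number fields at once

Let `F` be a number field and `g ≥ 1`. We consider all the curves `C : y² = f(x)` of genus `g` over `F`,
`f` monic of degree `2 g + 1`, ordered by height. A finite extension `M` of `F` is called admissible for
`C` if `M / F` is Galois of 2-power degree, the primes over `2` and the real places of `F` split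
completely in `M`, the primes `𝔭` of `F` with `𝔭 ^ (2 g + 1 - j) ∣ a_j` for all coefficients `a_j` of `f`
split completely in `M`, and `f` is irreducible modulo every prime of `F` which is ramified in `M`.

Theorem. Let `M₀ / F` be a Galois extension of 2-power degree in which the primes over `2` and the real
places split completely (for instance `M₀ = F`). A positive proportion of all curves `C` has the
following properties: `M₀` is admissible for `C`; for EVERY admissible `M` the following is true: if an
adelic point `(P_v)` of `C` over `M` survives the descents by the `2 ^ k`-coverings, for all `k`, then for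
all the places `w` of `M` over two `P_w` is the point at infinity, which is a rational point; there are
infinitely many prime numbers `l` such that `M(√l)` is admissible for every admissible `M`.

The points of `C(𝔸_M)_•` which are orthogonal to the Brauer group of `C` survive all descents by
abelian coverings (Stoll), in particular by the `2 ^ k`-coverings, which are the pull-backs of the
`2 ^ k`-coverings of the Jacobian. So for these curves and fields the components over two of all the
points in `C(𝔸_M)_•^Br` are rational: the assertion of Stoll's conjecture is true for the projections to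
the product of the `C(M_w)`, `w ∣ 2`. In particular `C(M)` consists of the point at infinity.

The proof. As for MP_821da1_nt.HyperellipticCovers the Jacobian `J` satisfies `2 J(M) = J(M)` and
`Ш(J / M)[2^∞] = 0`. A `2 ^ k`-covering with points everywhere is therefore the trivial one
(`H14P/Desc.lean`), and a point which lifts to it over `M_w` is divisible by `2 ^ k` in `J(M_w)`. No
point of the affine curve over `M_w = F_v`, `w ∣ 2`, is divisible by all powers of two in `J(M_w)`
(`H14P/Loc3.lean`).
-/

set_option autoImplicit false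
set_option linter.all false

namespace Pool.Agent.Results.MP_ab3ecb_nt.TwoAdicPlacesPositiveProportion

open Filter NumberField IsDedekindDomain Polynomial
open Pool.Agent.N874.Jac (CoordRing J mapJ Cochain Cocycle)
open scoped Classical IntermediateField Pointwise

section family

variable (F : Type) [Field F] [NumberField F] (g : ℕ)

/-- All curves `y² = f(x)` with `f` monic of degree `2 g + 1`, with integral coefficients `a_j`,
`a_{2 g} = 0`, without multiple roots, and minimal: no nonzero prime ideal `𝔭` satisfies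
`𝔭 ^ (2 (2 g + 1 - j)) ∣ a_j` for all `j`. -/
def Family : Set (𝓞 F)[X] :=
  {f | f.Monic ∧ f.natDegree = 2 * g + 1 ∧ f.coeff (2 * g) = 0 ∧
    (f.map (algebraMap (𝓞 F) F)).Separable ∧
    ∀ 𝔭 : Ideal (𝓞 F), 𝔭.IsPrime → 𝔭 ≠ ⊥ →
      ¬ ∀ j ≤ 2 * g, f.coeff j ∈ 𝔭 ^ (2 * (2 * g + 1 - j))}

/-- The members of the family of height at most `B`: all the conjugates of the coefficient `a_j` are at
most `B ^ (2 g + 1 - j)` in absolute value, for all `j`. -/
def UpTo (B : ℕ) : Set (𝓞 F)[X] :=
  {f ∈ Family F g | ∀ j ≤ 2 * g, ∀ σ : F →+* ℂ,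
    ‖σ ((f.coeff j : 𝓞 F) : F)‖ ≤ (B : ℝ) ^ (2 * g + 1 - j)}

end family

section admissible

variable (F : Type) {M : Type} [Field F] [NumberField F] [Field M] [NumberField M] [Algebra F M]

/-- The decomposition group of the prime `w` of `M` over `F` is trivial. -/
def SplitAt (w : HeightOneSpectrum (𝓞 M)) : Prop :=
  MulAction.stabilizer Gal(M/F) w.asIdeal = ⊥

/-- The inertia group of the prime `w` of `M` over `F` is trivial. -/
def UnramifiedAt (w : HeightOneSpectrum (𝓞 M)) : Prop :=
  w.asIdeal.inertia Gal(M/F) = ⊥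

variable (M)

/-- The extension `M` of `F` is admissible for the curve `y² = f(x)`: it is Galois of 2-power degree;
the decomposition groups of the primes of `M` over `2`, and of those over a prime `𝔭` of `F` with
`𝔭 ^ (2 g + 1 - j) ∣ a_j` for all `j ≤ 2 g`, are trivial; every embedding of `F` in `ℝ` extends to `M`;
`f` is irreducible modulo the primes of `F` below the primes of `M` with nontrivial inertia group. -/
structure Admissible (g : ℕ) (f : (𝓞 F)[X]) : Prop where
  galois : IsGalois F M
  degree : ∃ n : ℕ, Module.finrank F M = 2 ^ n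
  two : ∀ w : HeightOneSpectrum (𝓞 M), (2 : 𝓞 M) ∈ w.asIdeal → SplitAt F w
  split : ∀ w : HeightOneSpectrum (𝓞 M),
    (∀ j ≤ 2 * g, f.coeff j ∈ (w.under (𝓞 F)).asIdeal ^ (2 * g + 1 - j)) → SplitAt F w
  real : ∀ σ : F →+* ℝ, ∃ ρ : M →+* ℝ, ρ.comp (algebraMap F M) = σ
  ramified : ∀ w : HeightOneSpectrum (𝓞 M), ¬ UnramifiedAt F w →
    Irreducible (f.map (Ideal.Quotient.mk (w.under (𝓞 F)).asIdeal))

/-- The prime numbers `l` such that `M(√l)` is admissible for every admissible field `M`. -/
def Steps (g : ℕ) (f : (𝓞 F)[X]) : Set ℕ := {l : ℕ | l.Prime ∧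
  ∀ (M M' : Type) [Field M] [NumberField M] [Field M'] [NumberField M'] [Algebra F M]
    [Algebra M M'] [Algebra F M'] [IsScalarTower F M M'] (x : M'),
    x ^ 2 = (l : M') → M⟮x⟯ = ⊤ → Admissible F M g f → Admissible F M' g f}

end admissible

section points

variable {K : Type} [Field K] (f : K[X]) (L : Type) [Field L] [Algebra K L]

/-- The points of the smooth projective model of `y² = f(x)`, `f` of odd degree, over the extension `L`
of `K`: the pairs `(a, b)` with `b² = f(a)`, and the point at infinity, `none`. -/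
abbrev Points : Type :=
  Option {p : L × L // p.2 ^ 2 = (f.map (algebraMap K L)).eval p.1}

/-- The polynomials in `x`, as functions on the affine curve. -/
noncomputable def polyFun : L[X] →+* CoordRing f L := AdjoinRoot.of _

/-- The function `y` on the affine curve. -/
noncomputable def yFun : CoordRing f L := AdjoinRoot.root _

variable {L}

/-- The ideal `(x - a, y - b)` of the affine coordinate ring over `L`. -/
noncomputable def pointIdeal (a b : L) : Ideal (CoordRing f L) :=
  Ideal.span {polyFun f L (X - C a), yFun f L - polyFun f L (C b)}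

variable {f}

/-- `c ∈ Pic(A)` is the class of the ideal `I` of the ring `A`: the invertible module `c` is isomorphic
to `I`. -/
def IsClassOfIdeal {A : Type} [CommRing A] (c : CommRing.Pic A) (I : Ideal A) : Prop :=
  Nonempty (I ≃ₗ[A] c)

/-- `c ∈ J(L) = Pic(L[x, y] / (y² - f))` is the class of the point: it is the trivial class for the point
at infinity, and the class of the ideal `(x - a, y - b)` for the point `(a, b)`. -/
def IsClass (c : J f L) (P : Points f L) : Prop :=
  (P = none ∧ c = 1) ∨ ∃ p, P = some p ∧ IsClassOfIdeal c (pointIdeal f p.1.1 p.1.2)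

end points

section descent

variable {K : Type} [Field K] {f : K[X]}

/-- All the values of `c`, in the group `J(Ω)`, written multiplicatively, are killed by `n`. -/
def KilledBy {Ω G : Type} [Field Ω] [Algebra K Ω] (n : ℕ) (c : G → J f Ω) : Prop :=
  ∀ σ, c σ ^ n = 1

/-- `Q ^ n = S` in `J(Ω')`, where `S ∈ J(E)`. -/
def IsRootOf {E Ω' : Type} [Field E] [Field Ω'] [Algebra E Ω'] [Algebra K E] [Algebra K Ω']
    [IsScalarTower K E Ω'] (n : ℕ) (Q : J f Ω') (S : J f E) : Prop :=
  Q ^ n = mapJ f (IsScalarTower.toAlgHom K E Ω') S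

/-- The class `S ∈ J(E)` lifts to the `n`-covering given by the cocycle `c` of the group of the
automorphisms of `Ω` over `K`, with values in `J(Ω)`: for an embedding `ι : Ω → Ω'` there is `Q ∈ J(Ω')`
such that `Q ^ n = S` and `τ Q / Q = c(τ|Ω)` for all automorphisms `τ` of `Ω'` over `E`. -/
def LiftsIn {Ω : Type} [Field Ω] [Algebra K Ω] (n : ℕ) (c : (Ω ≃ₐ[K] Ω) → J f Ω) (E Ω' : Type)
    [Field E] [Field Ω'] [Algebra E Ω'] [Algebra K E] [Algebra K Ω'] [IsScalarTower K E Ω']
    (S : J f E) : Prop :=
  ∃ (ι : Ω →ₐ[K] Ω') (Q : J f Ω'), IsRootOf n Q S ∧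
    ∀ (τ : Ω' ≃ₐ[E] Ω') (σ : Ω ≃ₐ[K] Ω), (∀ x : Ω, τ (ι x) = ι (σ x)) →
      mapJ f ι (c σ) = mapJ f (τ.toAlgHom.restrictScalars K) Q / Q

/-- The point `P` over the extension `E` of `K` lifts to the `n`-covering given by the cocycle `c` with
values in the elements of `J(K^sep)` killed by `n`. -/
def Lifts (n : ℕ) (c : Cochain f) (E : Type) [Field E] [Algebra K E] (P : Points f E) : Prop :=
  ∃ S : J f E, IsClass S P ∧ LiftsIn n c E (SeparableClosure E) S

/-- Some point over `ℝ` lifts to the `n`-covering, for the embedding `ρ` of `K` in the real numbers. -/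
def SomeLiftsReal (n : ℕ) (c : Cochain f) (ρ : K →+* ℝ) : Prop :=
  letI := ρ.toAlgebra; ∃ R : Points f ℝ, Lifts n c ℝ R

variable [NumberField K]

/-- The adelic points. -/
abbrev AdelicPoint (f : K[X]) : Type :=
  ∀ v : HeightOneSpectrum (𝓞 K), Points f (v.adicCompletion K)

/-- All the `P_v`, `v` finite, lift to the `n`-covering. -/
def AllLift (n : ℕ) (c : Cochain f) (P : AdelicPoint f) : Prop :=
  ∀ v : HeightOneSpectrum (𝓞 K), Lifts n c (v.adicCompletion K) (P v)

/-- The adelic point `(P_v)` survives the descent by the `n`-coverings: there is a continuous cocycle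
with values in the elements killed by `n` such that all the `P_v`, `v` finite, lift to the covering given
by the cocycle, and for every real embedding there is a point over `ℝ` which lifts to it. -/
def Survives (n : ℕ) (P : AdelicPoint f) : Prop :=
  ∃ c : Cochain f, Cocycle c ∧ KilledBy n c ∧ AllLift n c P ∧ ∀ ρ, SomeLiftsReal n c ρ

/-- If an adelic point of `y² = f(x)` over `K` survives the descents by the `2 ^ k`-coverings for all `k`,
then its components at the places over two are the point at infinity. -/
def OnlyInfinityAtTwo (f : K[X]) : Prop :=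
  ∀ P : AdelicPoint f, (∀ k : ℕ, Survives (2 ^ k) P) →
    ∀ w : HeightOneSpectrum (𝓞 K), (2 : 𝓞 K) ∈ w.asIdeal → P w = none

end descent

/-- The polynomial `f` over the extension `M` of `F`. -/
noncomputable def polyOver {F : Type} [Field F] [NumberField F] (f : (𝓞 F)[X]) (M : Type) [Field M]
    [Algebra F M] : M[X] :=
  (f.map (algebraMap (𝓞 F) F)).map (algebraMap F M)

theorem adm_iff (F M : Type) [Field F] [NumberField F] [Field M] [NumberField M] [Algebra F M]
    (g : ℕ) (f : (𝓞 F)[X]) : Pool.Agent.H14P.AdmH F M g f ↔ Admissible F M g f :=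
  ⟨fun h => ⟨h.galois, h.deg, h.two, h.bad, h.real, h.ram⟩,
    fun h => ⟨h.galois, h.degree, h.two, h.split, h.real, h.ramified⟩⟩

/-- The components of the surviving points are divisible. -/
theorem div_of {K : Type} [Field K] [NumberField K] {f : K[X]} (hm : f.Monic) (hs : f.Separable)
    (ho : Odd f.natDegree) (hdiv : Pool.Agent.N874.Jac.UniquelyTwoDivisible f)
    (hsha : Pool.Agent.N874.Jac.ShaTwoTrivialReal f (𝓞 K)) {P : AdelicPoint f} {n : ℕ}
    (h : Survives (2 ^ n) P) (v : HeightOneSpectrum (𝓞 K)) :
    ∃ S T : J f (v.adicCompletion K), IsClass S (P v) ∧ T ^ (2 ^ n) = S := by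
  obtain ⟨c, hc, hc1, hv, hr⟩ := h
  have hcob : Pool.Agent.N874.Jac.Coboundary c := by
    refine hsha c n hc (fun v => ?_) (fun ρ => ?_) ?_
    · obtain ⟨S, -, ι, Q, -, h3⟩ := hv v
      exact ⟨ι, Q, h3⟩
    · obtain ⟨R, S, -, ι, Q, -, h3⟩ := hr ρ
      exact ⟨ι, Q, h3⟩
    · refine ⟨1, fun σ => ?_⟩
      show c σ ^ 2 ^ n = _
      rw [hc1 σ, map_one, div_one]
  obtain ⟨S, h1, ι, Q, h2, h3⟩ := hv v
  have hg : Pool.Agent.Y160.SE.Good 2 (-1 : K) f :=
    Pool.Agent.N106.JB.good2 two_ne_zero hm hs ho
  obtain ⟨T, hT⟩ := Pool.Agent.H14P.Desc.div_local (E := v.adicCompletion K) hg hdiv.surjective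
    (c := c) hcob hc1 ι Q S h2 h3
  exact ⟨S, T, h1, hT⟩

theorem only_of {F : Type} [Field F] [NumberField F] {f : (𝓞 F)[X]} {M : Type} [Field M]
    [NumberField M] [Algebra F M] (hm : f.Monic) (hs : (f.map (algebraMap (𝓞 F) F)).Separable)
    (ho : Odd f.natDegree) (h : Pool.Agent.H14P.AllH F M f) :
    OnlyInfinityAtTwo (polyOver f M) := by
  have e : Pool.Agent.N783.PF.fF (Pool.Agent.H14F.up M f) = polyOver f M :=
    Pool.Agent.H14F.fF_up f
  obtain ⟨h1, h2, -, h4⟩ := h
  rw [e] at h1 h2 h4
  have hmM : (polyOver f M).Monic := (hm.map _).map _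
  have hsM : (polyOver f M).Separable := hs.map
  have hoM : Odd (polyOver f M).natDegree := by
    rw [polyOver, natDegree_map, hm.natDegree_map]
    exact ho
  intro P hP w hw
  cases hPw : P w with
  | none => rfl
  | some p =>
    exfalso
    haveI : CharZero (w.adicCompletion M) :=
      charZero_of_injective_algebraMap (algebraMap M (w.adicCompletion M)).injective
    refine h4 w hw p.1.1 p.1.2 p.2 fun n => ?_
    obtain ⟨S, T, h5, h6⟩ := div_of hmM hsM hoM h1 h2 (hP (n + 1)) w
    rw [hPw] at h5
    rcases h5 with ⟨h5, -⟩ | ⟨p', hp', h5⟩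
    · exact absurd h5 (Option.some_ne_none p)
    obtain rfl := Option.some.inj hp'
    exact Pool.Agent.H14P.Desc.ideal_pt two_ne_zero (by rw [natDegree_map]; exact hoM)
      (hsM.map).squarefree h5 h6

/-- Let `F` be a number field, `g ≥ 1` and `M₀ / F` a Galois extension of degree `2 ^ n` in which the
primes over `2` split completely and to which all real embeddings of `F` extend. There is `c > 0` such
that for all large `B` at least `c` times the number of all curves `y² = f(x)`, `deg f = 2 g + 1`, over
`F` of height at most `B` have the following properties: `M₀` is admissible; for all admissible fields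
`M` the components over two of all the adelic points over `M` which survive all the descents by
`2 ^ k`-coverings are the point at infinity; there are infinitely many prime numbers `l` such that
`M(√l)` is admissible for all admissible fields `M`. -/
theorem result (F M₀ : Type) [Field F] [NumberField F] [Field M₀] [NumberField M₀] [Algebra F M₀]
    [IsGalois F M₀] (n : ℕ) (hn : Module.finrank F M₀ = 2 ^ n)
    (h2 : ∀ w : HeightOneSpectrum (𝓞 M₀), (2 : 𝓞 M₀) ∈ w.asIdeal → SplitAt F w)
    (hr : ∀ σ : F →+* ℝ, ∃ ρ : M₀ →+* ℝ, ρ.comp (algebraMap F M₀) = σ) (g : ℕ) (hg : 1 ≤ g) :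
    (∀ B : ℕ, (UpTo F g B).Finite) ∧
    ∃ c : ℝ, 0 < c ∧ ∀ᶠ B : ℕ in atTop,
      0 < (UpTo F g B).ncard ∧
      c * ((UpTo F g B).ncard : ℝ) ≤ (({f ∈ UpTo F g B | Admissible F M₀ g f ∧
        (∀ (M : Type) [Field M] [NumberField M] [Algebra F M], Admissible F M g f →
          OnlyInfinityAtTwo (polyOver f M)) ∧
        (Steps F g f).Infinite}).ncard : ℝ) := by
  obtain ⟨c, hc, B₀, h⟩ := Pool.Agent.H14P.finalL F M₀ g hg hn h2 hr
  have hsub : ∀ B : ℕ, UpTo F g B ⊆ {f : (𝓞 F)[X] | Pool.Agent.N783.PF.Ht g B f} := by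
    rintro B f ⟨⟨h1, h2, h3, -, -⟩, h4⟩
    exact ⟨h1, h2, h3, h4⟩
  have hfinH : ∀ B : ℕ, {f : (𝓞 F)[X] | Pool.Agent.N783.PF.Ht g B f}.Finite := by
    intro B
    refine (h (max B B₀) (le_max_right _ _)).1.subset ?_
    rintro f ⟨h1, h2, h3, h4⟩
    refine ⟨h1, h2, h3, fun j hj σ => (h4 j hj σ).trans ?_⟩
    exact pow_le_pow_left₀ (Nat.cast_nonneg B) (Nat.cast_le.2 (le_max_left _ _)) _
  have hfin : ∀ B : ℕ, (UpTo F g B).Finite := fun B => (hfinH B).subset (hsub B)
  refine ⟨hfin, c, hc, ?_⟩
  filter_upwards [eventually_ge_atTop B₀] with B hB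
  obtain ⟨-, h3⟩ := h B hB
  have h4 : {f : (𝓞 F)[X] | Pool.Agent.N783.PF.Ht g B f ∧ Irreducible (Pool.Agent.N783.PF.fF f) ∧
      Pool.Agent.H14P.GoodL F M₀ g f ∧ Pool.Agent.N783.PF.Min g f} ⊆
      {f ∈ UpTo F g B | Admissible F M₀ g f ∧
        (∀ (M : Type) [Field M] [NumberField M] [Algebra F M], Admissible F M g f →
          OnlyInfinityAtTwo (polyOver f M)) ∧
        (Steps F g f).Infinite} := by
    rintro f ⟨hf, hi, hg', hmin⟩
    refine ⟨⟨⟨hf.mon, hf.deg, hf.tr, hi.separable, hmin⟩, hf.ht⟩,
      (adm_iff F M₀ g f).1 hg'.good.adm, fun M _ _ _ hM => ?_, hg'.inf.mono ?_⟩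
    · exact only_of hf.mon hi.separable (by rw [hf.deg]; exact ⟨g, rfl⟩)
        (hg'.good.all M ((adm_iff F M g f).2 hM))
    · rintro l ⟨hl, h⟩
      exact ⟨hl, fun M M' _ _ _ _ _ _ _ _ x hx htop hM =>
        (adm_iff F M' g f).1 (h M M' x hx htop ((adm_iff F M g f).2 hM))⟩
  have h5 := Set.ncard_le_ncard h4 ((hfin B).subset fun p hp => hp.1)
  have h6 : ((UpTo F g B).ncard : ℝ) ≤
      ({f : (𝓞 F)[X] | Pool.Agent.N783.PF.Ht g B f}.ncard : ℝ) := by
    exact_mod_cast Set.ncard_le_ncard (hsub B) (hfinH B)
  have h7 : 0 < ({f : (𝓞 F)[X] | Pool.Agent.N783.PF.Ht g B f}).ncard := by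
    rw [Set.ncard_pos (hfinH B)]
    refine ⟨X ^ (2 * g + 1), monic_X_pow _, natDegree_X_pow _, ?_, fun j hj σ => ?_⟩
    · rw [coeff_X_pow, if_neg (by omega)]
    · have e : ((0 : 𝓞 F) : F) = 0 := map_zero (algebraMap (𝓞 F) F)
      rw [coeff_X_pow, if_neg (by omega), e, map_zero, norm_zero]
      positivity
  constructor
  · have h8 : 0 < c * ({f : (𝓞 F)[X] | Pool.Agent.N783.PF.Ht g B f}.ncard : ℝ) :=
      mul_pos hc (by exact_mod_cast h7)
    have h9 : (0 : ℝ) < (({f : (𝓞 F)[X] | Pool.Agent.N783.PF.Ht g B f ∧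
        Irreducible (Pool.Agent.N783.PF.fF f) ∧
        Pool.Agent.H14P.GoodL F M₀ g f ∧ Pool.Agent.N783.PF.Min g f}).ncard : ℝ) := h8.trans_le h3
    have h10 := Nat.cast_pos.1 h9
    refine lt_of_lt_of_le h10 (Set.ncard_le_ncard ?_ (hfin B))
    exact h4.trans fun f hf => hf.1
  · refine (mul_le_mul_of_nonneg_left h6 hc.le).trans (h3.trans ?_)
    exact_mod_cast h5

end Pool.Agent.Results.MP_ab3ecb_nt.TwoAdicPlacesPositiveProportion
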